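import Pool.Agent.K9h12.SH.Dgn2

/-!
Meromorphic functions near infinity which share values: the result.
-/

set_option autoImplicit false

open FF Polynomial Filter Metric Set Topology

namespace Pool.Agent.K9h12.SH

open Pool.Agent.W603.LV Pool.Agent.W602.GT Pool.Agent.W603.BP Pool.Agent.W601.PH
  Pool.Agent.W602.NC Pool.Agent.TH152.HY Pool.Agent.Y190.AN Pool.Agent.Y190.BV
  Pool.Agent.K9h12.AX

/-- **Totally ramified values.** -/
theorem an_const {B : ℂ[X]} (hB : B.Separable) (hq : 5 ≤ B.natDegree) {y : MK (exD 1 one_pos)}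
    (hy : MDer (exD 1 one_pos) y ≠ 0)
    (hst : ∀ (z : ℂ) (hz : z ∈ (exD 1 one_pos).U), Ge (PL hz) 0 y →
      (PL hz).ord (aeval y B) ≠ 1) : y ∈ Minf 1 one_pos := by
  classical
  have hB0 : B ≠ 0 := by rintro rfl; simp at hq
  have hc := const_of_eq hy
  have hy0 : y ≠ 0 := fun h0 => hc 0 (by rw [h0, map_zero])
  have hcard : B.roots.toFinset.card = B.natDegree := by
    rw [Multiset.toFinset_card_of_nodup (nodup_roots hB)]
    exact (IsAlgClosed.splits B).natDegree_eq_card_roots.symm
  obtain ⟨b, hb⟩ : ∃ b : Fin (4 + 1) → ℂ, Function.Injective b ∧ ∀ i, b i ∈ B.roots.toFinset := by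
    have h1 : Fintype.card (Fin (4 + 1)) ≤ Fintype.card B.roots.toFinset := by
      rw [Fintype.card_fin, Fintype.card_coe, hcard]
      exact hq
    obtain ⟨f⟩ := Function.Embedding.nonempty_of_card_le h1
    exact ⟨fun i => (f i : ℂ), fun i j h => f.injective (Subtype.ext h), fun i => (f i).2⟩
  have heval : ∀ e : ℂ, (X - C y : (MK (exD 1 one_pos))[X]).eval (algebraMap ℂ _ e) =
      algebraMap ℂ _ e - y := fun e => by simp
  have hne : ∀ e : ℂ, algebraMap ℂ (MK (exD 1 one_pos)) e - y ≠ 0 := fun e h0 =>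
    hc e (sub_eq_zero.1 h0).symm
  have h1 := ratios_Minf (r0 := 1) (hr0 := one_pos) (R := X - C y) (d := 1) (natDegree_X_sub_C y)
    le_rfl (irreducible_X_sub_C y).squarefree (fun e => by rw [heval]; exact hne e) b hb.1
    (by norm_num) (fun z hz i => ?_) 1
  · rw [heval, heval] at h1
    have h2 : b 1 ≠ b 0 := fun h => absurd (hb.1 h) (by decide)
    have h3 : algebraMap ℂ (MK (exD 1 one_pos)) (b 1 - b 0) ≠ 0 :=
      (_root_.map_ne_zero _).2 (sub_ne_zero.2 h2)
    have h4 : y = algebraMap ℂ (MK (exD 1 one_pos)) (b 0) -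
        algebraMap ℂ (MK (exD 1 one_pos)) (b 1 - b 0) /
        ((algebraMap ℂ _ (b 1) - y) / (algebraMap ℂ _ (b 0) - y) - 1) := by
      have h5 := hne (b 0)
      have h6 : (algebraMap ℂ (MK (exD 1 one_pos)) (b 1) - y) /
          (algebraMap ℂ _ (b 0) - y) - 1 =
          algebraMap ℂ (MK (exD 1 one_pos)) (b 1 - b 0) / (algebraMap ℂ _ (b 0) - y) := by
        rw [map_sub]
        field_simp
        ring
      rw [h6]
      field_simp
      ring
    rw [h4]
    exact sub_mem (algebraMap_mem _ _) (div_mem (algebraMap_mem _ _)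
      (sub_mem h1 (one_mem _)))
  · -- the contacts
    unfold ct
    rw [heval]
    by_cases hreg : Ge (PL hz) 0 y
    · have hcnt : cnt (PL hz) (X - C y) = 0 := by
        refine cnt_unique _ (fun j => ?_) ⟨1, ?_, ?_⟩
        · rcases j with _ | _ | j
          · simp only [coeff_sub, coeff_X_zero, coeff_C_zero, zero_sub]
            exact hreg.neg
          · simp only [zero_add, coeff_sub, coeff_X_one, coeff_C_succ, sub_zero]
            exact Ge.one
          · rw [coeff_eq_zero_of_natDegree_lt (by rw [natDegree_X_sub_C]; omega)]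
            exact Ge.zero
        · simp
        · simp [FF.Place.ord_one]
      rw [hcnt, sub_zero]
      have hneg : algebraMap ℂ (MK (exD 1 one_pos)) (b i) - y =
          -(y - algebraMap ℂ (MK (exD 1 one_pos)) (b i)) := by ring
      rw [hneg, FF.Place.ord_neg]
      have hge : Ge (PL hz) 0 (y - algebraMap ℂ (MK (exD 1 one_pos)) (b i)) :=
        hreg.sub (Ge.const _)
      have h0 := hge.resolve_left (sub_ne_zero.2 (hc _))
      rcases h0.eq_or_lt with h2 | h2
      · exact Or.inl h2.symm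
      · right
        have h3 := ord_poly_fin (PL hz) hc hB0 (c := b i) rfl h2
        have h4 : B.rootMultiplicity (b i) = 1 := by
          have h5 : B.rootMultiplicity (b i) ≤ 1 := rootMultiplicity_le_one_of_separable hB _
          have h6 : 0 < B.rootMultiplicity (b i) := by
            rw [rootMultiplicity_pos hB0]
            exact isRoot_of_mem_roots (Multiset.mem_toFinset.1 (hb.2 i))
          omega
        rw [h4, Nat.cast_one, one_mul] at h3
        have h5 := hst z hz hreg
        rw [h3] at h5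
        omega
    · left
      have hx1 : (PL hz).ord y < 0 := by
        by_contra h1
        exact hreg (Or.inr (by omega))
      have hcnt : cnt (PL hz) (X - C y) = (PL hz).ord y := by
        refine cnt_unique _ (fun j => ?_) ⟨0, ?_, ?_⟩
        · rcases j with _ | _ | j
          · simp only [coeff_sub, coeff_X_zero, coeff_C_zero, zero_sub]
            exact (ge_ord _ y).neg
          · simp only [zero_add, coeff_sub, coeff_X_one, coeff_C_succ, sub_zero]
            exact Ge.one.mono hx1.le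
          · rw [coeff_eq_zero_of_natDegree_lt (by rw [natDegree_X_sub_C]; omega)]
            exact Ge.zero
        · simpa using hy0
        · simp [FF.Place.ord_neg]
      rw [hcnt]
      by_cases hb0 : b i = 0
      · rw [hb0, map_zero, zero_sub, FF.Place.ord_neg, sub_self]
      · have h2 := (PL hz).ord_add_eq (neg_ne_zero.2 hy0)
          ((_root_.map_ne_zero (algebraMap ℂ (MK (exD 1 one_pos)))).2 hb0) (by
            rw [FF.Place.ord_neg, FF.Place.ord_const _ hb0]; exact hx1)
        have h3 : algebraMap ℂ (MK (exD 1 one_pos)) (b i) - y =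
            -y + algebraMap ℂ (MK (exD 1 one_pos)) (b i) := by ring
        rw [h3, h2.2, FF.Place.ord_neg, sub_self]

/-- the shared values condition at a place -/
def Shr (A B : ℂ[X]) {L : Type} [Field L] [Algebra ℂ L] (P : Place ℂ L) (x y : L) : Prop :=
  Ge P 0 x → Ge P 0 y → aeval x A ≠ 0 → aeval y B ≠ 0 →
    P.ord (aeval x A) + P.ord (aeval y B) ≠ 1

/-- the exceptional polynomial of a pair -/
structure Exc (A B : ℂ[X]) (H : MvPolynomial (Fin 2) ℂ) : Prop where
  ne : H ≠ 0
  val : ∀ (L : Type) [Field L] [Algebra ℂ L] (x : Fin 2 → L), MvPolynomial.aeval x H ≠ 0 →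
    aeval (x 0) A ≠ 0 ∧ aeval (x 1) B ≠ 0 ∧
    (∀ (M M' : ℕ) (a : Fin M → ℂ) (b : Fin M' → ℂ), Enum A a → Enum B b → ∀ c c' : ℂ, c ≠ 0 →
      (aeval (x 0) A = aeval (x 1) B *
        (algebraMap ℂ L c + algebraMap ℂ L c' * aeval (x 0) A)) →
      ∃ i0, 3 ≤ nu A a i0 ∧ Bad A a B b c c' i0) ∧
    (∀ (M M' : ℕ) (a : Fin M → ℂ) (b : Fin M' → ℂ), Enum A a → Enum B b → ∀ c c' : ℂ, c ≠ 0 →
      (aeval (x 1) B = aeval (x 0) A *
        (algebraMap ℂ L c + algebraMap ℂ L c' * aeval (x 1) B)) →
      ∃ i0, 3 ≤ nu B b i0 ∧ Bad B b A a c c' i0)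

/-- the condition does not depend on the enumeration -/
theorem bad_indep {A B : ℂ[X]} (hA : A.Separable) (hB : B.Separable)
    (hp : 2 * kk A + 4 ≤ A.natDegree) (hB1 : B.derivative ≠ 0) : ∃ E : Finset (ℂ × ℂ),
      ∀ (M M' : ℕ) (a : Fin M → ℂ) (b : Fin M' → ℂ), Enum A a → Enum B b →
        ∀ c c' : ℂ, c ≠ 0 → (c, c') ∉ E → ∃ i0, 3 ≤ nu A a i0 ∧ Bad A a B b c c' i0 := by
  classical
  have hA0 : A ≠ 0 := by rintro rfl; simp at hp
  have hB0 : B ≠ 0 := by rintro rfl; simp at hB1
  have hA1 : A.derivative ≠ 0 := by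
    intro h0
    have h1 := derivative_eq_zero.1 h0
    omega
  refine ⟨(A.derivative.roots.toFinset ×ˢ (CV B ×ˢ CV B)).image
    fun w => (A.eval w.1 * (w.2.1 - w.2.2), w.2.2), fun M M' a b hE hE' c c' hc hcc => ?_⟩
  obtain ⟨k, hk⟩ := exists_crit hE hA1 (by omega)
  by_contra hcon
  push Not at hcon
  have h0 := hcon 0 (by
    have : nu A a 0 = A.natDegree - 1 := rfl
    omega)
  have h1 := hcon k.succ hk
  unfold Bad at h0 h1
  push Not at h0 h1
  obtain ⟨u, v, hu, hv, hl, hJ, hr⟩ := h0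
  obtain ⟨u', v', hu', hv', hl', hJ', hr'⟩ := h1
  obtain ⟨n1, w, hw, hvw⟩ := crit_vec hE' hB hB0 hB1 hv hJ
  obtain ⟨n2, w', hw', hvw'⟩ := crit_vec hE' hB hB0 hB1 hv' hJ'
  rw [ell_zero] at hl
  have e1 : c' = w := by
    have h3 := HA_inf hE hA0 hu hl
    rw [hvw, hl, zero_pow (by omega), mul_zero, zero_add] at hr
    have h4 : HA A a u * HA B b v * (c' - w) = 0 := by linear_combination -hr
    have h5 := (mul_eq_zero.1 h4).resolve_left (mul_ne_zero h3 n1)
    exact sub_eq_zero.1 h5
  have hu2 : u' 1 = u' 0 * a k := by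
    rw [ell_succ] at hl'
    simp only [Algebra.algebraMap_self, RingHom.id_apply] at hl'
    linear_combination hl'
  have e2 : c = A.eval (a k) * (w' - c') := by
    have h3 : u' 0 ≠ 0 := by
      intro h4
      apply hu'
      funext j
      fin_cases j
      · exact h4
      · simp only [Fin.mk_one]
        rw [hu2, h4, zero_mul]
        rfl
    rw [hvw', HA_at hE hA0 hu2] at hr'
    have h4 : (u' 0 ^ A.natDegree * HA B b v') * (c - A.eval (a k) * (w' - c')) = 0 := by
      linear_combination -hr'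
    exact sub_eq_zero.1 ((mul_eq_zero.1 h4).resolve_left (mul_ne_zero (pow_ne_zero _ h3) n2))
  have hak : a k ∈ A.derivative.roots.toFinset := by
    rw [Multiset.mem_toFinset, mem_roots hA1]
    refine (rootMultiplicity_pos hA1).1 ?_
    have : nu A a k.succ = A.derivative.rootMultiplicity (a k) := rfl
    omega
  exact hcc (Finset.mem_image.2 ⟨(a k, (w', w)), Finset.mem_product.2 ⟨hak,
    Finset.mem_product.2 ⟨hw', hw⟩⟩, by rw [e2, e1]⟩)

theorem exists_Exc {A B : ℂ[X]} (hA : A.Separable) (hB : B.Separable)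
    (hp : 2 * kk A + 4 ≤ A.natDegree) (hq : 2 * kk B + 4 ≤ B.natDegree) : ∃ H, Exc A B H := by
  have hA1 : A.derivative ≠ 0 := by
    intro h0
    have h1 := derivative_eq_zero.1 h0
    omega
  have hB1 : B.derivative ≠ 0 := by
    intro h0
    have h1 := derivative_eq_zero.1 h0
    omega
  obtain ⟨E, hE⟩ := bad_indep hA hB hp hB1
  obtain ⟨E', hE'⟩ := bad_indep hB hA hq hA1
  obtain ⟨H, hH, hval⟩ := exists_H hA hB (by omega) (by omega) E E'
  refine ⟨H, hH, fun L _ _ x hx => ?_⟩
  obtain ⟨h1, h2, h3, h4⟩ := hval L x hx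
  refine ⟨h1, h2, fun M M' a b ha hb c c' hc hrel => ?_, fun M M' a b ha hb c c' hc hrel => ?_⟩
  · exact hE M M' a b ha hb c c' hc fun hmem => h3 c c' hc hmem hrel
  · exact hE' M' M b a hb ha c c' hc fun hmem => h4 c c' hc hmem hrel

/-- the inverse relation -/
theorem rel_symm {L : Type} [Field L] [Algebra ℂ L] {s t : L} {c c' : ℂ} (hc : c ≠ 0)
    (h : s = t * (algebraMap ℂ L c + algebraMap ℂ L c' * s)) :
    t = s * (algebraMap ℂ L c⁻¹ + algebraMap ℂ L (-(c' / c)) * t) := by
  have hc' : algebraMap ℂ L c ≠ 0 := (_root_.map_ne_zero _).2 hc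
  rw [map_neg, map_div₀, map_inv₀]
  field_simp
  linear_combination -h

/-- **Functions which share values are meromorphic at infinity.** -/
theorem han {A B : ℂ[X]} (hA : A.Separable) (hB : B.Separable)
    (hp : 2 * kk A + 14 ≤ A.natDegree) (hq : 2 * kk B + 14 ≤ B.natDegree)
    {H : MvPolynomial (Fin 2) ℂ} (hH : Exc A B H) (x : Fin 2 → MK (exD 1 one_pos))
    (hx : MvPolynomial.aeval x H ≠ 0)
    (hst : ∀ (z : ℂ) (hz : z ∈ (exD 1 one_pos).U), Shr A B (PL hz) (x 0) (x 1)) :
    ∀ i, x i ∈ Minf 1 one_pos := by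
  have hA0 : A ≠ 0 := by rintro rfl; simp at hp
  have hB0 : B ≠ 0 := by rintro rfl; simp at hq
  have hA1 : A.derivative ≠ 0 := by
    intro h0
    have h1 := derivative_eq_zero.1 h0
    omega
  have hB1 : B.derivative ≠ 0 := by
    intro h0
    have h1 := derivative_eq_zero.1 h0
    omega
  obtain ⟨v1, v2, v3, v4⟩ := hH.val _ x hx
  suffices h : x 0 ∈ Minf 1 one_pos ∧ x 1 ∈ Minf 1 one_pos by
    intro i
    fin_cases i
    · exact h.1
    · exact h.2
  by_cases hx0 : MDer (exD 1 one_pos) (x 0) = 0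
  · obtain ⟨c, hc⟩ := MDer_eq_zero hx0
    have h0 : x 0 ∈ Minf 1 one_pos := by rw [hc]; exact algebraMap_mem _ _
    refine ⟨h0, ?_⟩
    by_cases hx1 : MDer (exD 1 one_pos) (x 1) = 0
    · obtain ⟨d, hd⟩ := MDer_eq_zero hx1
      rw [hd]
      exact algebraMap_mem _ _
    · refine an_const hB (by omega) hx1 fun z hz hreg h1 => ?_
      have h2 : (PL hz).ord (aeval (x 0) A) = 0 := by
        rw [hc, aeval_algebraMap_apply] at v1 ⊢
        refine FF.Place.ord_const _ fun h3 => v1 ?_
        rw [h3, map_zero]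
      exact hst z hz (by rw [hc]; exact Ge.const c) hreg v1 v2 (by rw [h2, h1, zero_add])
  · by_cases hx1 : MDer (exD 1 one_pos) (x 1) = 0
    · obtain ⟨c, hc⟩ := MDer_eq_zero hx1
      have h0 : x 1 ∈ Minf 1 one_pos := by rw [hc]; exact algebraMap_mem _ _
      refine ⟨?_, h0⟩
      refine an_const hA (by omega) hx0 fun z hz hreg h1 => ?_
      have h2 : (PL hz).ord (aeval (x 1) B) = 0 := by
        rw [hc, aeval_algebraMap_apply] at v2 ⊢
        refine FF.Place.ord_const _ fun h3 => v2 ?_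
        rw [h3, map_zero]
      exact hst z hz hreg (by rw [hc]; exact Ge.const c) v1 v2 (by rw [h2, h1, add_zero])
    · by_cases hW : W (MDer (exD 1 one_pos)) (aeval (x 0) A)⁻¹ (aeval (x 1) B)⁻¹ = 0
      · obtain ⟨c, c', hc, hrel⟩ := rel_of_W (fun f hf => MDer_eq_zero hf) hA0 hB0 hA1 hB1
          hx0 hx1 hW
        obtain ⟨M, a, hE⟩ := exists_Enum hA (by omega)
        obtain ⟨M', b, hE'⟩ := exists_Enum hB (by omega)
        rcases le_total A.natDegree B.natDegree with hle | hle
        · obtain ⟨i0, hi0, hbad⟩ := v3 M M' a b hE hE' c c' hc hrel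
          exact an_dgn hA hB (by omega) hle hE hE' hi0 hc hbad hx0 hx1 hrel
        · have hrel' := rel_symm hc hrel
          obtain ⟨i0, hi0, hbad⟩ := v4 M M' a b hE hE' _ _ (inv_ne_zero hc) hrel'
          have h1 := an_dgn hB hA (by omega) hle hE' hE hi0 (inv_ne_zero hc) hbad hx1 hx0 hrel'
          exact ⟨h1.2, h1.1⟩
      · exact an_main hA hB hp hq hx0 hx1 hW fun z hz h1 h2 => hst z hz h1 h2 v1 v2

end Pool.Agent.K9h12.SH
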