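import Pool.Agent.K9h12.SH.Cur

/-!
Surfaces of log general type.
-/

set_option autoImplicit false

open FF Polynomial

namespace Pool.Agent.K9h12.SH

open Pool.Agent.W603.LV Pool.Agent.W602.GT

variable {L : Type} [Field L] [Algebra ℂ L]

/-- the data of a coordinate at a place -/
theorem coord (P : Place ℂ L) {A : ℂ[X]} (hA : A.Separable) {i : ℕ} (hi : i + 4 ≤ A.natDegree)
    {x : L} (hx : ∀ c : ℂ, x ≠ algebraMap ℂ L c) : ∃ (α : ℂ) (n e : ℤ),
      P.ord (x - algebraMap ℂ L α) = n ∧ Ge P e (x ^ i / aeval x A) ∧ 0 ≤ 2 * n + e ∧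
      ((Ge P 0 x ∧ n = P.ord (aeval x A) ∧ 0 ≤ n ∧ n ≤ 2 * n + e) ∨
        (¬ Ge P 0 x ∧ 2 ≤ 2 * n + e)) := by
  have hA0 : A ≠ 0 := by rintro rfl; simp at hi
  have hx0 : x ≠ 0 := fun h0 => hx 0 (by rw [h0, map_zero])
  have ha := ord_poly P hx hA0
  have hG : Ge P (P.ord (x ^ i / aeval x A)) (x ^ i / aeval x A) := ge_ord P _
  rw [P.ord_div (pow_ne_zero _ hx0) ha.1, P.ord_pow] at hG
  by_cases hreg : Ge P 0 x
  · have hge : ∀ c : ℂ, 0 ≤ P.ord (x - algebraMap ℂ L c) := fun c =>
      (hreg.sub (Ge.const c)).resolve_left (sub_ne_zero.2 (hx c))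
    have hi0 : 0 ≤ (i : ℤ) * P.ord x := mul_nonneg (Int.natCast_nonneg i) (hreg.resolve_left hx0)
    have hA1 : 0 ≤ P.ord (aeval x A) := by
      rw [ha.2]
      refine Multiset.sum_nonneg fun t ht => ?_
      obtain ⟨c, -, rfl⟩ := Multiset.mem_map.1 ht
      exact hge c
    rcases hA1.eq_or_lt with h0 | h0
    · -- unit
      obtain ⟨α, hα⟩ : ∃ α : ℂ, P.ord (x - algebraMap ℂ L α) = 0 := by
        rcases (hge 0).eq_or_lt with h1 | h1
        · exact ⟨0, h1.symm⟩
        · refine ⟨1, ?_⟩
          have h2 : x - algebraMap ℂ L 1 = algebraMap ℂ L (-1) + (x - algebraMap ℂ L 0) := by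
            simp only [map_neg, map_one, map_zero]
            ring
          rw [h2, (P.ord_add_eq ((_root_.map_ne_zero _).2 (by norm_num)) (sub_ne_zero.2 (hx 0)) (by
            rw [P.ord_const (by norm_num)]; exact h1)).2, P.ord_const (by norm_num)]
      exact ⟨α, 0, _, hα, hG, by omega, Or.inl ⟨hreg, h0, le_rfl, by omega⟩⟩
    · obtain ⟨α, hα⟩ : ∃ α ∈ A.roots, 0 < P.ord (x - algebraMap ℂ L α) := by
        by_contra hcon
        push Not at hcon
        have h1 : (A.roots.map fun c => P.ord (x - algebraMap ℂ L c)).sum ≤ 0 := by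
          have h2 : ∀ t ∈ A.roots.map fun c => P.ord (x - algebraMap ℂ L c), t ≤ 0 := by
            intro t ht
            obtain ⟨c, hc, rfl⟩ := Multiset.mem_map.1 ht
            exact hcon c hc
          have h3 : ∀ s : Multiset ℤ, (∀ t ∈ s, t ≤ 0) → s.sum ≤ 0 := by
            intro s
            induction s using Multiset.induction_on with
            | empty => simp
            | cons a s ih =>
              intro h4
              rw [Multiset.sum_cons]
              have h5 := h4 a (Multiset.mem_cons_self a s)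
              have h6 := ih fun t ht => h4 t (Multiset.mem_cons_of_mem ht)
              omega
          exact h3 _ h2
        rw [ha.2] at h0
        omega
      have e1 := ord_poly_fin P hx hA0 (c := α) rfl hα.2
      have hmul : A.rootMultiplicity α = 1 := by
        have h1 : A.rootMultiplicity α ≤ 1 := rootMultiplicity_le_one_of_separable hA α
        have h2 := (rootMultiplicity_pos hA0).2 (isRoot_of_mem_roots hα.1)
        omega
      rw [hmul, Nat.cast_one, one_mul] at e1
      refine ⟨α, P.ord (aeval x A), _, e1.symm, hG, by omega, Or.inl ⟨hreg, rfl, h0.le, by omega⟩⟩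
  · have hx1 : P.ord x < 0 := by
      by_contra h1
      exact hreg (Or.inr (by omega))
    obtain ⟨ρ, hρ⟩ : ∃ ρ, P.ord x = -ρ := ⟨-P.ord x, by ring⟩
    have hρ0 : 0 < ρ := by omega
    have e1 := ord_poly_inf P hx hA0 hρ hρ0
    have hi' : (i : ℤ) + 4 ≤ A.natDegree := by exact_mod_cast hi
    have h4 : 2 ≤ 2 * P.ord x + ((i : ℤ) * P.ord x - P.ord (aeval x A)) := by
      rw [e1, hρ]
      nlinarith
    refine ⟨0, P.ord x, _, by rw [map_zero, sub_zero], hG, by omega, Or.inr ⟨hreg, h4⟩⟩

/-- the determinant -/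
theorem det_two (D : Fin 2 → Derivation ℂ L L) (x : Fin 2 → L) (α : Fin 2 → ℂ)
    (hx : ∀ j, x j - algebraMap ℂ L (α j) ≠ 0) :
    (Matrix.of fun i j => D i (x j)).det = (x 0 - algebraMap ℂ L (α 0)) *
      (x 1 - algebraMap ℂ L (α 1)) * (Matrix.of fun i j => D i (x j - algebraMap ℂ L (α j)) /
        (x j - algebraMap ℂ L (α j))).det := by
  have h0 := hx 0
  have h1 := hx 1
  simp only [Matrix.det_fin_two, Matrix.of_apply, map_sub, Derivation.map_algebraMap, sub_zero]
  field_simp

/-- **Surfaces.** -/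
theorem surf {A B : ℂ[X]} (hA : A.Separable) (hB : B.Separable) (hp : 5 ≤ A.natDegree)
    (hq : 5 ≤ B.natDegree) {x : Fin 2 → L} (hx : IsTranscendenceBasis ℂ x)
    {Bd : Place ℂ L → Prop} (hst : ∀ P, ¬ Bd P → Shr A B P (x 0) (x 1)) :
    LogGeneralType ℂ L 2 Bd := by
  have hA0 : A ≠ 0 := by rintro rfl; simp at hp
  have hB0 : B ≠ 0 := by rintro rfl; simp at hq
  have htr : ∀ j, Transcendental ℂ (x j) := fun j => hx.1.transcendental j
  have hc : ∀ j (c : ℂ), x j ≠ algebraMap ℂ L c := fun j c h => htr j (by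
    rw [h]; exact isAlgebraic_algebraMap c)
  have hAx : aeval (x 0) A ≠ 0 := fun h0 => htr 0 ⟨_, hA0, h0⟩
  have hBy : aeval (x 1) B ≠ 0 := fun h0 => htr 1 ⟨_, hB0, h0⟩
  have hx0 : ∀ j, x j ≠ 0 := fun j h0 => hc j 0 (by rw [h0, map_zero])
  have key : ∀ (P : Place ℂ L) (i j : ℕ), i ≤ 1 → j ≤ 1 →
      LogAt P (form x 2 (x 0 ^ i / aeval (x 0) A * (x 1 ^ j / aeval (x 1) B))) ∧
      (Shr A B P (x 0) (x 1) →
        RegAt P (form x 2 (x 0 ^ i / aeval (x 0) A * (x 1 ^ j / aeval (x 1) B)))) := by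
    intro P i j hi hj
    obtain ⟨α, n, e, h1, h2, h3, h4⟩ := coord P hA (i := i) (by omega) (hc 0)
    obtain ⟨α', n', e', h1', h2', h3', h4'⟩ := coord P hB (i := j) (by omega) (hc 1)
    have hne : ∀ k : Fin 2, x k - algebraMap ℂ L ((![α, α'] : Fin 2 → ℂ) k) ≠ 0 := fun k =>
      sub_ne_zero.2 (hc k _)
    have hdet := fun D : Fin 2 → Derivation ℂ L L => det_two D x ![α, α'] hne
    simp only [Matrix.cons_val_zero, Matrix.cons_val_one] at hdet
    have g1 : Ge P n (x 0 - algebraMap ℂ L α) := Or.inr h1.ge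
    have g2 : Ge P n' (x 1 - algebraMap ℂ L α') := Or.inr h1'.ge
    refine ⟨fun D hD => ?_, fun hs D hD => ?_⟩
    · change Ge P 0 _
      unfold form
      have g3 : Ge P 0 (Matrix.of fun i j => D i (x j - algebraMap ℂ L ((![α, α'] : Fin 2 → ℂ) j)) /
          (x j - algebraMap ℂ L ((![α, α'] : Fin 2 → ℂ) j))).det := by
        refine ge_det P _ 0 (fun _ _ => 0) (fun i j => ?_) fun σ => by simp
        exact ge_logder_log (hD i) _
      rw [hdet]
      have g4 := ((g1.mul g2).mul g3).pow 2
      exact ((h2.mul h2').mul g4).mono (by push_cast; omega)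
    · change Ge P 0 _
      unfold form
      have g3 : Ge P (-1) (Matrix.of fun i j =>
          D i (x j - algebraMap ℂ L ((![α, α'] : Fin 2 → ℂ) j)) /
          (x j - algebraMap ℂ L ((![α, α'] : Fin 2 → ℂ) j))).det :=
        det_log D hD _ hne
      have g4 : Ge P (n + n' - 1) (Matrix.of fun i j => D i (x j)).det := by
        rw [hdet]
        exact ((g1.mul g2).mul g3).mono (by omega)
      have g5 : Ge P (2 * n + e + (2 * n' + e') - 2) (x 0 ^ i / aeval (x 0) A *
          (x 1 ^ j / aeval (x 1) B) * (Matrix.of fun i j => D i (x j)).det ^ 2) :=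
        ((h2.mul h2').mul (g4.pow 2)).mono (by push_cast; omega)
      rcases h4 with ⟨r1, r2, r3, r4⟩ | ⟨r1, r2⟩
      · rcases h4' with ⟨s1, s2, s3, s4⟩ | ⟨s1, s2⟩
        · have h5 := hs r1 s1 hAx hBy
          rw [← r2, ← s2] at h5
          by_cases h6 : n = 0 ∧ n' = 0
          · -- nothing happens
            have g6 : Ge P 0 (Matrix.of fun i j => D i (x j)).det := by
              refine ge_det P _ 0 (fun _ _ => 0) (fun i j => ?_) fun σ => by simp
              refine hD i (x j) ?_
              fin_cases j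
              · exact r1
              · exact s1
            exact ((h2.mul h2').mul (g6.pow 2)).mono (by push_cast; omega)
          · exact g5.mono (by omega)
        · exact g5.mono (by omega)
      · exact g5.mono (by omega)
  let e : Fin 3 → ℕ × ℕ := ![(0, 0), (1, 0), (0, 1)]
  have he : ∀ l, (e l).1 ≤ 1 ∧ (e l).2 ≤ 1 := by
    intro l
    fin_cases l <;> simp [e]
  refine ⟨?_, 2, by norm_num, fun l => form x 2 (x 0 ^ (e l).1 / aeval (x 0) A *
    (x 1 ^ (e l).2 / aeval (x 1) B)), fun l => form_pluri _ _ _, fun P _ l =>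
    (key P _ _ (he l).1 (he l).2).1, fun P _ hP l => (key P _ _ (he l).1 (he l).2).2 (hst P hP), ?_⟩
  · rw [← hx.cardinalMk_eq_trdeg]
    simp
  · choose D hD using fun i : Fin 2 => exists_der x hx fun j => if i = j then (1 : L) else 0
    have hdet : (Matrix.of fun i j => D i (x j)).det = 1 := by
      have : (Matrix.of fun i j => D i (x j)) = (1 : Matrix (Fin 2) (Fin 2) L) := by
        ext i j
        rw [Matrix.of_apply, hD, Matrix.one_apply]
      rw [this, Matrix.det_one]
    refine ⟨D, ?_, ?_⟩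
    · change x 0 ^ (e 0).1 / aeval (x 0) A * (x 1 ^ (e 0).2 / aeval (x 1) B) *
        (Matrix.of fun i j => D i (x j)).det ^ 2 ≠ 0
      rw [hdet, one_pow, mul_one]
      exact mul_ne_zero (div_ne_zero (pow_ne_zero _ (hx0 0)) hAx)
        (div_ne_zero (pow_ne_zero _ (hx0 1)) hBy)
    · have h1 : (fun i : Fin 2 => form x 2 (x 0 ^ (e i.succ).1 / aeval (x 0) A *
          (x 1 ^ (e i.succ).2 / aeval (x 1) B)) D / form x 2 (x 0 ^ (e 0).1 / aeval (x 0) A *
          (x 1 ^ (e 0).2 / aeval (x 1) B)) D) = x := by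
        funext i
        unfold form
        rw [hdet]
        fin_cases i
        · simp [e]
          field_simp
        · simp [e]
          field_simp
      rw [h1]
      exact hx.1

/-- **The subvarieties.** -/
theorem halg {A B : ℂ[X]} (hA : A.Separable) (hB : B.Separable)
    (hp : 2 * kk A + 14 ≤ A.natDegree) (hq : 2 * kk B + 14 ≤ B.natDegree)
    {H : MvPolynomial (Fin 2) ℂ} (hH : Exc A B H) (hess : Algebra.EssFiniteType ℂ L) {d : ℕ}
    {x : Fin 2 → L} {Bd : Place ℂ L → Prop} (hd : 0 < d) (htr : Algebra.trdeg ℂ L = d)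
    (halg : Algebra.IsAlgebraic (IntermediateField.adjoin ℂ (Set.range x)) L)
    (hx : MvPolynomial.aeval x H ≠ 0) (hst : ∀ P, ¬ Bd P → Shr A B P (x 0) (x 1)) :
    LogGeneralType ℂ L d Bd := by
  have hA0 : A ≠ 0 := by rintro rfl; simp at hp
  have hB0 : B ≠ 0 := by rintro rfl; simp at hq
  have hA1 : A.derivative ≠ 0 := by
    intro h0
    have h1 := derivative_eq_zero.1 h0
    omega
  have hB1 : B.derivative ≠ 0 := by
    intro h0
    have h1 := derivative_eq_zero.1 h0
    omega
  have halg' : Algebra.IsAlgebraic (Algebra.adjoin ℂ (Set.range x)) L := by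
    rw [← IntermediateField.isAlgebraic_adjoin_iff_top]
    exact halg
  have hle : d ≤ 2 := by
    have h1 := Algebra.IsAlgebraic.trdeg_le_cardinalMk ℂ (A := L) (Set.range x)
    rw [htr] at h1
    have h2 : Cardinal.mk (Set.range x) ≤ (2 : ℕ) := by
      refine Cardinal.mk_range_le.trans ?_
      simp
    exact_mod_cast h1.trans h2
  obtain ⟨v1, v2, v3, v4⟩ := hH.val _ x hx
  rcases (by omega : d = 1 ∨ d = 2) with rfl | rfl
  · -- curves
    have : IsFF ℂ L := ⟨hess, by rw [htr]; simp⟩
    obtain ⟨s, hs⟩ := exists_isTranscendenceBasis ℂ L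
    obtain ⟨D0, hD0⟩ := exists_der (fun i : s => (i : L)) hs fun _ => (1 : L)
    have hD : D0 ≠ 0 := by
      rintro rfl
      have hne : s.Nonempty := by
        rw [Set.nonempty_iff_ne_empty]
        rintro rfl
        have h1 := hs.cardinalMk_eq_trdeg
        rw [htr] at h1
        simp at h1
      obtain ⟨t, ht⟩ := hne
      exact zero_ne_one (hD0 ⟨t, ht⟩)
    have hconst : ∀ f, D0 f = 0 → ∃ c : ℂ, f = algebraMap ℂ L c := by
      intro f hf
      by_contra hcon
      have ht : Transcendental ℂ f := fun h => hcon (const_of_algebraic h)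
      exact der_ne_zero hD ht hf
    by_cases hx0 : D0 (x 0) = 0
    · obtain ⟨c, hc⟩ := hconst _ hx0
      by_cases hx1 : D0 (x 1) = 0
      · exfalso
        refine hD (der_eq_zero D0 (Set.range x) halg ?_)
        rintro _ ⟨j, rfl⟩
        fin_cases j
        · exact hx0
        · exact hx1
      · refine cur_const hB (by omega) hx1 fun P hP hreg h1 => ?_
        have h2 : P.ord (aeval (x 0) A) = 0 := by
          rw [hc, aeval_algebraMap_apply] at v1 ⊢
          refine P.ord_const fun h3 => v1 ?_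
          rw [h3, map_zero]
        exact hst P hP (by rw [hc]; exact Ge.const c) hreg v1 v2 (by rw [h2, h1, zero_add])
    · by_cases hx1 : D0 (x 1) = 0
      · obtain ⟨c, hc⟩ := hconst _ hx1
        refine cur_const hA (by omega) hx0 fun P hP hreg h1 => ?_
        have h2 : P.ord (aeval (x 1) B) = 0 := by
          rw [hc, aeval_algebraMap_apply] at v2 ⊢
          refine P.ord_const fun h3 => v2 ?_
          rw [h3, map_zero]
        exact hst P hP hreg (by rw [hc]; exact Ge.const c) v1 v2 (by rw [h2, h1, add_zero])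
      · by_cases hW : W D0 (aeval (x 0) A)⁻¹ (aeval (x 1) B)⁻¹ = 0
        · obtain ⟨c, c', hc, hrel⟩ := rel_of_W hconst hA0 hB0 hA1 hB1 hx0 hx1 hW
          obtain ⟨M, a, hE⟩ := exists_Enum hA (by omega)
          obtain ⟨M', b, hE'⟩ := exists_Enum hB (by omega)
          rcases le_total A.natDegree B.natDegree with hle | hle
          · obtain ⟨i0, hi0, hbad⟩ := v3 M M' a b hE hE' c c' hc hrel
            exact cur_dgn hA hB (by omega) hle hE hE' hi0 hc hbad hx0 hx1 hrel Bd
          · have hrel' := rel_symm hc hrel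
            obtain ⟨i0, hi0, hbad⟩ := v4 M M' a b hE hE' _ _ (inv_ne_zero hc) hrel'
            exact cur_dgn hB hA (by omega) hle hE' hE hi0 (inv_ne_zero hc) hbad hx1 hx0 hrel' Bd
        · exact cur_main hA hB hp hq hx0 hx1 hW hst
  · -- surfaces
    refine surf hA hB (by omega) (by omega) ?_ hst
    refine Algebra.IsAlgebraic.isTranscendenceBasis_of_lift_le_trdeg_of_finite ℂ x ?_
    rw [htr]
    simp

end Pool.Agent.K9h12.SH
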