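import Pool.Agent.K9h12.SH.Alg

/-!
The order of the jet differential in homogeneous coordinates.
-/

set_option autoImplicit false

open FF Polynomial Pool.Agent.W603.LV Pool.Agent.W602.GT

namespace Pool.Agent.K9h12.SH

variable {L : Type} [Field L] [Algebra ℂ L]

/-- the Wronskian of a vector -/
def wrA (D : Derivation ℂ L L) (u : Fin 2 → L) : L := u 0 * D (u 1) - u 1 * D (u 0)

theorem wrA_eq (D : Derivation ℂ L L) {u : Fin 2 → L} {x : L} (hx : u 1 = u 0 * x) :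
    wrA D u = u 0 ^ 2 * D x := by
  unfold wrA
  rw [hx, D.leibniz]
  simp only [smul_eq_mul]
  ring

/-- the jet differential -/
noncomputable def PsiA (D : Derivation ℂ L L) {M M' : ℕ} (a : Fin M → ℂ) (μ ν : Fin (M + 1) → ℕ)
    (b : Fin M' → ℂ) (μ' ν' : Fin (M' + 1) → ℕ) (u v : Fin 2 → L) : L :=
  Va D (∏ i, ell a i u ^ μ i) ((∏ i, ell a i u ^ ν i) * wrA D u)
    (∏ i, ell b i v ^ μ' i) ((∏ i, ell b i v ^ ν' i) * wrA D v) ^ 2 * (wrA D u ^ 3 * wrA D v ^ 3)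

theorem prod_mu {M : ℕ} {A : ℂ[X]} {a : Fin M → ℂ} (hE : Enum A a) (hA : A ≠ 0) {u : Fin 2 → L}
    {x : L} (hx : u 1 = u 0 * x) : ∏ i, ell a i u ^ mu A a i =
      u 0 ^ A.natDegree * (algebraMap ℂ L A.leadingCoeff⁻¹ * aeval x A) := by
  rw [prod_ell hx, hE.hmu, hE.prA x]
  congr 1
  rw [← mul_assoc, ← map_mul, inv_mul_cancel₀ (leadingCoeff_ne_zero.2 hA), map_one, one_mul]
  rfl

theorem prod_nu {M : ℕ} {A : ℂ[X]} {a : Fin M → ℂ} (hE : Enum A a) (hA : A.derivative ≠ 0)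
    (D : Derivation ℂ L L) {u : Fin 2 → L} {x : L} (hx : u 1 = u 0 * x) :
    (∏ i, ell a i u ^ nu A a i) * wrA D u =
      u 0 ^ (2 * A.natDegree) * (algebraMap ℂ L A.derivative.leadingCoeff⁻¹ * D (aeval x A)) := by
  rw [prod_ell hx, wrA_eq D hx, der_poly, hE.prA' x, ← hE.hnu, pow_add]
  have h1 : ∀ t : L, algebraMap ℂ L A.derivative.leadingCoeff⁻¹ *
      (algebraMap ℂ L A.derivative.leadingCoeff * t) = t := by
    intro t
    rw [← mul_assoc, ← map_mul, inv_mul_cancel₀ (leadingCoeff_ne_zero.2 hA), map_one, one_mul]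
  have h2 : ∀ i : Fin M, nu A a i.succ = A.derivative.rootMultiplicity (a i) := fun i => rfl
  simp only [h2]
  rw [mul_assoc (algebraMap ℂ L A.derivative.leadingCoeff), h1]
  ring

theorem PsiA_eq {M M' : ℕ} {A B : ℂ[X]} {a : Fin M → ℂ} {b : Fin M' → ℂ} (hE : Enum A a)
    (hE' : Enum B b) (hA : A.derivative ≠ 0) (hB : B.derivative ≠ 0) (D : Derivation ℂ L L)
    {u v : Fin 2 → L} {x y : L} (hu : u 0 ≠ 0) (hv : v 0 ≠ 0) (hx : u 1 = u 0 * x)
    (hy : v 1 = v 0 * y) (hAx : aeval x A ≠ 0) (hBy : aeval y B ≠ 0) :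
    ∃ κ : ℂ, κ ≠ 0 ∧ PsiA D a (mu A a) (nu A a) b (mu B b) (nu B b) u v =
      algebraMap ℂ L κ * (u 0 ^ (6 * A.natDegree + 6) * v 0 ^ (6 * B.natDegree + 6) *
        ((aeval x A * aeval y B) ^ 6 * W D (aeval x A)⁻¹ (aeval y B)⁻¹ ^ 2 *
          (D x ^ 3 * D y ^ 3))) := by
  have hA0 : A ≠ 0 := by rintro rfl; simp at hA
  have hB0 : B ≠ 0 := by rintro rfl; simp at hB
  refine ⟨(A.leadingCoeff⁻¹ * A.derivative.leadingCoeff⁻¹ * B.leadingCoeff⁻¹ *
    B.derivative.leadingCoeff⁻¹) ^ 2, ?_, ?_⟩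
  · refine pow_ne_zero _ (mul_ne_zero (mul_ne_zero (mul_ne_zero ?_ ?_) ?_) ?_) <;>
    exact inv_ne_zero (leadingCoeff_ne_zero.2 (by assumption))
  · unfold PsiA
    rw [prod_mu hE hA0 hx, prod_nu hE hA D hx, prod_mu hE' hB0 hy, prod_nu hE' hB D hy,
      Va_scale D hu hv, Va_const, Va_W D hAx hBy, wrA_eq D hx, wrA_eq D hy, map_pow]
    have e1 : u 0 ^ (6 * A.natDegree + 6) = (u 0 ^ (3 * A.natDegree)) ^ 2 * (u 0 ^ 2) ^ 3 := by
      rw [← pow_mul, ← pow_mul, ← pow_add]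
      congr 1
      ring
    have e2 : v 0 ^ (6 * B.natDegree + 6) = (v 0 ^ (3 * B.natDegree)) ^ 2 * (v 0 ^ 2) ^ 3 := by
      rw [← pow_mul, ← pow_mul, ← pow_add]
      congr 1
      ring
    rw [e1, e2]
    ring

theorem ord_EE (P : Place ℂ L) {D : Derivation ℂ L L} {A : ℂ[X]} {x : L} (hx : D x ≠ 0)
    (hA : A ≠ 0) (i : ℕ) : EE D A x i ≠ 0 ∧ P.ord (EE D A x i) =
      3 * P.ord (D x) + 3 * P.ord (aeval x A) - P.ord (aeval x (RR A)) + i * P.ord x := by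
  have hc := const_of_eq hx
  have ha := ord_poly P hc hA
  have hr := ord_poly P hc (RR_ne A)
  have hx0 : x ≠ 0 := fun h0 => hc 0 (by rw [h0, map_zero])
  have h1 : D x ^ 3 * aeval x A ^ 3 ≠ 0 := mul_ne_zero (pow_ne_zero _ hx) (pow_ne_zero _ ha.1)
  refine ⟨mul_ne_zero (div_ne_zero h1 hr.1) (pow_ne_zero _ hx0), ?_⟩
  unfold EE
  rw [P.ord_mul (div_ne_zero h1 hr.1) (pow_ne_zero _ hx0), P.ord_div h1 hr.1,
    P.ord_mul (pow_ne_zero _ hx) (pow_ne_zero _ ha.1), P.ord_pow, P.ord_pow, P.ord_pow]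
  push_cast
  ring

/-- the weights of a block -/
theorem ord_cw (P : Place ℂ L) {M : ℕ} {A : ℂ[X]} {a : Fin M → ℂ} (hE : Enum A a)
    (hA : A ≠ 0) {u : Fin 2 → L} {x : L} (hu : u 0 ≠ 0) (hx : u 1 = u 0 * x)
    (hc : ∀ c : ℂ, x ≠ algebraMap ℂ L c) :
    (∀ i, ell a i u ≠ 0) ∧ ∑ i, (cw A a i : ℤ) * P.ord (ell a i u) =
      (∑ i, cw A a i : ℕ) * P.ord (u 0) + 3 * P.ord (aeval x A) + P.ord (aeval x (RR A)) := by
  have hne : ∀ i, ell a i u ≠ 0 := by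
    intro i
    refine Fin.cases hu (fun k => ?_) i
    rw [ell_ratio hx]
    exact mul_ne_zero hu (sub_ne_zero.2 (hc _))
  refine ⟨hne, ?_⟩
  have hprod : ∀ (s : Finset (Fin (M + 1))), P.ord (∏ i ∈ s, ell a i u ^ cw A a i) =
      ∑ i ∈ s, (cw A a i : ℤ) * P.ord (ell a i u) := by
    intro s
    classical
    induction s using Finset.induction_on with
    | empty => simp [P.ord_one]
    | insert j s hj ih =>
      rw [Finset.prod_insert hj, Finset.sum_insert hj, P.ord_mul (pow_ne_zero _ (hne _))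
        (Finset.prod_ne_zero_iff.2 fun i _ => pow_ne_zero _ (hne i)), P.ord_pow, ih]
  rw [← hprod]
  have hr := ord_poly P hc (RR_ne A)
  have ha := ord_poly P hc hA
  have hlc : algebraMap ℂ L A.leadingCoeff ≠ 0 := (_root_.map_ne_zero _).2 (leadingCoeff_ne_zero.2 hA)
  have hlr : algebraMap ℂ L (RR A).leadingCoeff ≠ 0 :=
    (_root_.map_ne_zero _).2 (leadingCoeff_ne_zero.2 (RR_ne A))
  have h1 : algebraMap ℂ L A.leadingCoeff ^ 3 * algebraMap ℂ L (RR A).leadingCoeff *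
      ∏ i, ell a i u ^ cw A a i =
      u 0 ^ (∑ i, cw A a i) * (aeval x A ^ 3 * aeval x (RR A)) := by
    rw [prod_ell hx, hE.prA x, hE.prR x, mul_pow, ← Finset.prod_pow]
    have h2 : ∀ i : Fin M, (x - algebraMap ℂ L (a i)) ^ cw A a i.succ =
        ((x - algebraMap ℂ L (a i)) ^ A.rootMultiplicity (a i)) ^ 3 *
          (x - algebraMap ℂ L (a i)) ^ (2 * (A.derivative.rootMultiplicity (a i) - 1)) := by
      intro i
      rw [← pow_mul, ← pow_add]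
      congr 1
      change 3 * _ + 2 * _ = _
      ring
    rw [Finset.prod_congr rfl fun i _ => h2 i, Finset.prod_mul_distrib]
    ring
  have h3 := congrArg P.ord h1
  have h4 : ∏ i, ell a i u ^ cw A a i ≠ 0 :=
    Finset.prod_ne_zero_iff.2 fun i _ => pow_ne_zero _ (hne i)
  rw [P.ord_mul (mul_ne_zero (pow_ne_zero _ hlc) hlr) h4,
    P.ord_mul (pow_ne_zero _ hlc) hlr, P.ord_pow, P.ord_const (leadingCoeff_ne_zero.2 hA),
    P.ord_const (leadingCoeff_ne_zero.2 (RR_ne A)),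
    P.ord_mul (pow_ne_zero _ hu) (mul_ne_zero (pow_ne_zero _ ha.1) hr.1), P.ord_pow,
    P.ord_mul (pow_ne_zero _ ha.1) hr.1, P.ord_pow] at h3
  push_cast at h3 ⊢
  linarith

/-- the order of the first coordinate of a vector without common zeros -/
theorem prim_ord {P : Place ℂ L} {u : Fin 2 → L} {x : L} (hu : u 0 ≠ 0) (hx0 : x ≠ 0)
    (hx : u 1 = u 0 * x) (h0 : Ge P 0 (u 0)) (h1 : Ge P 0 (u 1))
    (hp : P.ord (u 0) = 0 ∨ P.ord (u 1) = 0) :
    (Ge P 0 x ∧ P.ord (u 0) = 0) ∨ (¬ Ge P 0 x ∧ P.ord (u 0) = -P.ord x) := by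
  have h2 : P.ord (u 1) = P.ord (u 0) + P.ord x := by rw [hx, P.ord_mul hu hx0]
  have h3 := h0.resolve_left hu
  have h4 := h1.resolve_left (by rw [hx]; exact mul_ne_zero hu hx0)
  by_cases h5 : Ge P 0 x
  · left
    have h6 := h5.resolve_left hx0
    exact ⟨h5, by omega⟩
  · right
    have h6 : P.ord x < 0 := by
      by_contra h7
      exact h5 (Or.inr (by omega))
    exact ⟨h5, by omega⟩

/-- **The order of the jet differential.** -/
theorem ord_main {P : Place ℂ L} {D : Derivation ℂ L L} (h : Nice P D) {A B : ℂ[X]}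
    (hA : A.Separable) (hB : B.Separable) (hp : 2 * kk A + 13 ≤ A.natDegree)
    (hq : 2 * kk B + 13 ≤ B.natDegree) {M M' : ℕ} {a : Fin M → ℂ} {b : Fin M' → ℂ}
    (hE : Enum A a) (hE' : Enum B b) {u v : Fin 2 → L} {x y : L} (hu : u 0 ≠ 0) (hv : v 0 ≠ 0)
    (hux : u 1 = u 0 * x) (hvy : v 1 = v 0 * y) (hu0 : Ge P 0 (u 0)) (hu1 : Ge P 0 (u 1))
    (hup : P.ord (u 0) = 0 ∨ P.ord (u 1) = 0) (hv0 : Ge P 0 (v 0)) (hv1 : Ge P 0 (v 1))
    (hvp : P.ord (v 0) = 0 ∨ P.ord (v 1) = 0) (hx : D x ≠ 0) (hy : D y ≠ 0)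
    (hW : W D (aeval x A)⁻¹ (aeval y B)⁻¹ ≠ 0)
    (hst : Ge P 0 x → Ge P 0 y → P.ord (aeval x A) + P.ord (aeval y B) ≠ 1) :
    PsiA D a (mu A a) (nu A a) b (mu B b) (nu B b) u v ≠ 0 ∧
    (∀ i, ell a i u ≠ 0) ∧ (∀ i, ell b i v ≠ 0) ∧
    ∑ i, (cw A a i : ℤ) * P.ord (ell a i u) + ∑ i, (cw B b i : ℤ) * P.ord (ell b i v) ≤
      P.ord (PsiA D a (mu A a) (nu A a) b (mu B b) (nu B b) u v) := by
  have hA0 : A ≠ 0 := by rintro rfl; simp at hp
  have hB0 : B ≠ 0 := by rintro rfl; simp at hq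
  have hA1 : A.derivative ≠ 0 := by
    intro h0
    have h1 := derivative_eq_zero.1 h0
    omega
  have hB1 : B.derivative ≠ 0 := by
    intro h0
    have h1 := derivative_eq_zero.1 h0
    omega
  have hcx := const_of_eq hx
  have hcy := const_of_eq hy
  have hx0 : x ≠ 0 := fun h0 => hcx 0 (by rw [h0, map_zero])
  have hy0 : y ≠ 0 := fun h0 => hcy 0 (by rw [h0, map_zero])
  have ha := ord_poly P hcx hA0
  have hb := ord_poly P hcy hB0
  obtain ⟨n1, c1⟩ := ord_cw P hE hA0 hu hux hcx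
  obtain ⟨n2, c2⟩ := ord_cw P hE' hB0 hv hvy hcy
  obtain ⟨κ, hκ, hPsi⟩ := PsiA_eq hE hE' hA1 hB1 D hu hv hux hvy ha.1 hb.1
  have hκ' : algebraMap ℂ L κ ≠ 0 := (_root_.map_ne_zero _).2 hκ
  have m1 : u 0 ^ (6 * A.natDegree + 6) * v 0 ^ (6 * B.natDegree + 6) ≠ 0 :=
    mul_ne_zero (pow_ne_zero _ hu) (pow_ne_zero _ hv)
  have m2 : (aeval x A * aeval y B) ^ 6 * W D (aeval x A)⁻¹ (aeval y B)⁻¹ ^ 2 ≠ 0 :=
    mul_ne_zero (pow_ne_zero _ (mul_ne_zero ha.1 hb.1)) (pow_ne_zero _ hW)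
  have m3 : D x ^ 3 * D y ^ 3 ≠ 0 := mul_ne_zero (pow_ne_zero _ hx) (pow_ne_zero _ hy)
  refine ⟨?_, n1, n2, ?_⟩
  · rw [hPsi]
    exact mul_ne_zero hκ' (mul_ne_zero m1 (mul_ne_zero m2 m3))
  · rw [c1, c2, hPsi, P.ord_mul hκ' (mul_ne_zero m1 (mul_ne_zero m2 m3)), P.ord_const hκ,
      P.ord_mul m1 (mul_ne_zero m2 m3), P.ord_mul (pow_ne_zero _ hu) (pow_ne_zero _ hv),
      P.ord_mul m2 m3, P.ord_mul (pow_ne_zero _ (mul_ne_zero ha.1 hb.1)) (pow_ne_zero _ hW),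
      P.ord_mul (pow_ne_zero _ hx) (pow_ne_zero _ hy), P.ord_pow, P.ord_pow, P.ord_pow, P.ord_pow,
      P.ord_pow, P.ord_pow, P.ord_mul ha.1 hb.1]
    -- choose the exponents
    obtain ⟨k, hk⟩ : ∃ k, A.natDegree = 2 * kk A + 13 + k := ⟨_, (Nat.add_sub_cancel' hp).symm⟩
    obtain ⟨k', hk'⟩ : ∃ k, B.natDegree = 2 * kk B + 13 + k := ⟨_, (Nat.add_sub_cancel' hq).symm⟩
    have hcw : ∑ i, cw A a i = 6 * A.natDegree + 6 + k := by
      have := hE.hcw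
      omega
    have hcw' : ∑ i, cw B b i = 6 * B.natDegree + 6 + k' := by
      have := hE'.hcw
      omega
    have key : ∀ i j : ℕ, i ≤ k → j ≤ k' → 0 ≤ 2 * P.ord (W D (aeval x A)⁻¹ (aeval y B)⁻¹) +
        (3 * P.ord (D x) + 3 * P.ord (aeval x A) - P.ord (aeval x (RR A)) + i * P.ord x) +
        (3 * P.ord (D y) + 3 * P.ord (aeval y B) - P.ord (aeval y (RR B)) + j * P.ord y) := by
      intro i j hi hj
      have h1 := (loc_main h hA hB hx hy (i := i) (j := j) (by omega) (by omega)).2 hst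
      have e1 := ord_EE P hx hA0 i
      have e2 := ord_EE P hy hB0 j
      have h2 : om D A B x y i j ≠ 0 := mul_ne_zero (pow_ne_zero _ hW) (mul_ne_zero e1.1 e2.1)
      have h3 := h1.resolve_left h2
      have h4 : P.ord (om D A B x y i j) = 2 * P.ord (W D (aeval x A)⁻¹ (aeval y B)⁻¹) +
          (P.ord (EE D A x i) + P.ord (EE D B y j)) := by
        unfold om
        rw [P.ord_mul (pow_ne_zero _ hW) (mul_ne_zero e1.1 e2.1), P.ord_mul e1.1 e2.1, P.ord_pow]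
        push_cast
        ring
      rw [h4, e1.2, e2.2] at h3
      linarith
    rw [hcw, hcw']
    push_cast
    rcases prim_ord hu hx0 hux hu0 hu1 hup with ⟨-, o1⟩ | ⟨-, o1⟩ <;>
    rcases prim_ord hv hy0 hvy hv0 hv1 hvp with ⟨-, o2⟩ | ⟨-, o2⟩
    · have := key 0 0 (Nat.zero_le _) (Nat.zero_le _)
      rw [o1, o2]
      push_cast at this
      nlinarith
    · have := key 0 k' (Nat.zero_le _) le_rfl
      rw [o1, o2]
      push_cast at this
      nlinarith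
    · have := key k 0 le_rfl (Nat.zero_le _)
      rw [o1, o2]
      push_cast at this
      nlinarith
    · have := key k k' le_rfl le_rfl
      rw [o1, o2]
      push_cast at this
      nlinarith

end Pool.Agent.K9h12.SH
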