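import Pool.Agent.K9h12.SH.Blk

/-!
The pointwise bound for the jet differential.
-/

set_option autoImplicit false

open Filter Metric Set Topology Pool.Agent.W602.NC Pool.Agent.TH152.HY Pool.Agent.K9h12.AX

namespace Pool.Agent.K9h12.SH

/-- the Wronskian expression -/
noncomputable def Vf (A w B v : ℂ → ℂ) (z : ℂ) : ℂ :=
  A z * B z * (w z * deriv v z - deriv w z * v z) +
    2 * (w z * v z) * (B z * deriv A z - A z * deriv B z)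

theorem deriv_pow_mul {l f : ℂ → ℂ} {z : ℂ} (hl : AnalyticAt ℂ l z) (hf : AnalyticAt ℂ f z)
    (h0 : l z ≠ 0) (n : ℕ) : deriv (fun t => l t ^ n * f t) z =
      l z ^ n * (deriv f z + n * (deriv l z / l z) * f z) := by
  rw [deriv_fun_mul (hl.fun_pow n).differentiableAt hf.differentiableAt,
    deriv_fun_pow hl.differentiableAt]
  cases n with
  | zero => simp
  | succ n =>
    simp only [Nat.add_sub_cancel]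
    field_simp
    ring

theorem Vf_scale {A w B v A' w' B' v' l m : ℂ → ℂ} {z : ℂ} {p q : ℕ} (hl : AnalyticAt ℂ l z)
    (hm : AnalyticAt ℂ m z) (hl0 : l z ≠ 0) (hm0 : m z ≠ 0) (hA' : AnalyticAt ℂ A' z)
    (hw' : AnalyticAt ℂ w' z) (hB' : AnalyticAt ℂ B' z) (hv' : AnalyticAt ℂ v' z)
    (hA : A =ᶠ[𝓝 z] fun t => l t ^ p * A' t) (hw : w =ᶠ[𝓝 z] fun t => l t ^ (2 * p) * w' t)
    (hB : B =ᶠ[𝓝 z] fun t => m t ^ q * B' t) (hv : v =ᶠ[𝓝 z] fun t => m t ^ (2 * q) * v' t) :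
    Vf A w B v z = l z ^ (3 * p) * m z ^ (3 * q) * Vf A' w' B' v' z := by
  unfold Vf
  rw [hA.deriv_eq, hw.deriv_eq, hB.deriv_eq, hv.deriv_eq, hA.self_of_nhds, hw.self_of_nhds,
    hB.self_of_nhds, hv.self_of_nhds, deriv_pow_mul hl hA' hl0, deriv_pow_mul hl hw' hl0,
    deriv_pow_mul hm hB' hm0, deriv_pow_mul hm hv' hm0]
  have e1 : l z ^ (2 * p) = (l z ^ p) ^ 2 := by rw [← pow_mul, mul_comm]
  have e2 : l z ^ (3 * p) = (l z ^ p) ^ 3 := by rw [← pow_mul, mul_comm]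
  have e3 : m z ^ (2 * q) = (m z ^ q) ^ 2 := by rw [← pow_mul, mul_comm]
  have e4 : m z ^ (3 * q) = (m z ^ q) ^ 3 := by rw [← pow_mul, mul_comm]
  rw [e1, e2, e3, e4]
  push_cast
  ring

variable {M M' : ℕ}

/-- the values of the polynomial -/
noncomputable def FA (a : Fin M → ℂ) (μ : Fin (M + 1) → ℕ) (u : ℂ → Fin 2 → ℂ) (z : ℂ) : ℂ :=
  ∏ i, UU a u i z ^ μ i

/-- the derivative of the quotient -/
noncomputable def Fw (a : Fin M → ℂ) (ν : Fin (M + 1) → ℕ) (u : ℂ → Fin 2 → ℂ) (z : ℂ) : ℂ :=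
  (∏ i, UU a u i z ^ ν i) * wr u z

/-- the jet differential along a pair of maps -/
noncomputable def Psi (a : Fin M → ℂ) (μ ν : Fin (M + 1) → ℕ) (b : Fin M' → ℂ)
    (μ' ν' : Fin (M' + 1) → ℕ) (u v : ℂ → Fin 2 → ℂ) (z : ℂ) : ℂ :=
  Vf (FA a μ u) (Fw a ν u) (FA b μ' v) (Fw b ν' v) z ^ 2 * (wr u z ^ 3 * wr v z ^ 3)

theorem FA_an {a : Fin M → ℂ} {μ : Fin (M + 1) → ℕ} {u : ℂ → Fin 2 → ℂ} {z : ℂ}
    (hu : ∀ j, AnalyticAt ℂ (fun w => u w j) z) : AnalyticAt ℂ (FA a μ u) z :=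
  Finset.analyticAt_fun_prod _ fun i _ => (UU_an hu i).fun_pow _

theorem Fw_an {a : Fin M → ℂ} {ν : Fin (M + 1) → ℕ} {u : ℂ → Fin 2 → ℂ} {z : ℂ}
    (hu : ∀ j, AnalyticAt ℂ (fun w => u w j) z) : AnalyticAt ℂ (Fw a ν u) z :=
  (FA_an hu).fun_mul (wr_an hu)

theorem Vf_an {A w B v : ℂ → ℂ} {z : ℂ} (hA : AnalyticAt ℂ A z) (hw : AnalyticAt ℂ w z)
    (hB : AnalyticAt ℂ B z) (hv : AnalyticAt ℂ v z) : AnalyticAt ℂ (Vf A w B v) z := by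
  unfold Vf
  exact ((hA.fun_mul hB).fun_mul ((hw.fun_mul hv.deriv).fun_sub (hw.deriv.fun_mul hv))).fun_add
    ((analyticAt_const.fun_mul (hw.fun_mul hv)).fun_mul
      ((hB.fun_mul hA.deriv).fun_sub (hA.fun_mul hB.deriv)))

theorem Psi_an {a : Fin M → ℂ} {μ ν : Fin (M + 1) → ℕ} {b : Fin M' → ℂ}
    {μ' ν' : Fin (M' + 1) → ℕ} {u v : ℂ → Fin 2 → ℂ} {z : ℂ}
    (hu : ∀ j, AnalyticAt ℂ (fun w => u w j) z) (hv : ∀ j, AnalyticAt ℂ (fun w => v w j) z) :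
    AnalyticAt ℂ (Psi a μ ν b μ' ν' u v) z := by
  unfold Psi
  exact ((Vf_an (FA_an hu) (Fw_an hu) (FA_an hv) (Fw_an hv)).fun_pow 2).fun_mul
    (((wr_an hu).fun_pow 3).fun_mul ((wr_an hv).fun_pow 3))

theorem Vf_bound {A w B v : ℂ → ℂ} {z : ℂ} {C C' K X Y : ℝ} (hC : 0 ≤ C) (hC' : 0 ≤ C')
    (hK : 0 ≤ K) (hX : 0 ≤ X) (hY : 0 ≤ Y)
    (h1 : ‖deriv A z‖ ≤ C * K * ‖A z‖) (h2 : ‖w z‖ ≤ C * K * X) (h3 : ‖deriv w z‖ ≤ C * K ^ 2 * X)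
    (h1' : ‖deriv B z‖ ≤ C' * K * ‖B z‖) (h2' : ‖v z‖ ≤ C' * K * Y)
    (h3' : ‖deriv v z‖ ≤ C' * K ^ 2 * Y) :
    ‖Vf A w B v z‖ ≤ C * C' * (2 + 2 * C + 2 * C') * K ^ 3 * (‖A z‖ * ‖B z‖ * (X * Y)) := by
  unfold Vf
  have n1 : ‖A z * B z * (w z * deriv v z - deriv w z * v z)‖ ≤
      ‖A z‖ * ‖B z‖ * (‖w z‖ * ‖deriv v z‖ + ‖deriv w z‖ * ‖v z‖) := by
    rw [norm_mul, norm_mul]
    refine mul_le_mul_of_nonneg_left ?_ (by positivity)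
    rw [← norm_mul, ← norm_mul]
    exact norm_sub_le _ _
  have n2 : ‖2 * (w z * v z) * (B z * deriv A z - A z * deriv B z)‖ ≤
      2 * (‖w z‖ * ‖v z‖) * (‖B z‖ * ‖deriv A z‖ + ‖A z‖ * ‖deriv B z‖) := by
    rw [norm_mul, norm_mul, norm_mul, Complex.norm_ofNat]
    refine mul_le_mul_of_nonneg_left ?_ (by positivity)
    rw [← norm_mul, ← norm_mul]
    exact norm_sub_le _ _
  refine (norm_add_le _ _).trans ((add_le_add n1 n2).trans ?_)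
  have m1 : ‖w z‖ * ‖deriv v z‖ + ‖deriv w z‖ * ‖v z‖ ≤
      (C * K * X) * (C' * K ^ 2 * Y) + (C * K ^ 2 * X) * (C' * K * Y) :=
    add_le_add (mul_le_mul h2 h3' (norm_nonneg _) (by positivity))
      (mul_le_mul h3 h2' (norm_nonneg _) (by positivity))
  have m2 : (‖w z‖ * ‖v z‖) * (‖B z‖ * ‖deriv A z‖ + ‖A z‖ * ‖deriv B z‖) ≤
      ((C * K * X) * (C' * K * Y)) * (‖B z‖ * (C * K * ‖A z‖) + ‖A z‖ * (C' * K * ‖B z‖)) :=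
    mul_le_mul (mul_le_mul h2 h2' (norm_nonneg _) (by positivity))
      (add_le_add (mul_le_mul_of_nonneg_left h1 (norm_nonneg _))
        (mul_le_mul_of_nonneg_left h1' (norm_nonneg _))) (by positivity) (by positivity)
  calc ‖A z‖ * ‖B z‖ * (‖w z‖ * ‖deriv v z‖ + ‖deriv w z‖ * ‖v z‖) +
        2 * (‖w z‖ * ‖v z‖) * (‖B z‖ * ‖deriv A z‖ + ‖A z‖ * ‖deriv B z‖)
      ≤ ‖A z‖ * ‖B z‖ * ((C * K * X) * (C' * K ^ 2 * Y) + (C * K ^ 2 * X) * (C' * K * Y)) +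
        2 * (((C * K * X) * (C' * K * Y)) *
          (‖B z‖ * (C * K * ‖A z‖) + ‖A z‖ * (C' * K * ‖B z‖))) := by
        refine add_le_add (mul_le_mul_of_nonneg_left m1 (by positivity)) ?_
        rw [mul_assoc]
        exact mul_le_mul_of_nonneg_left m2 (by norm_num)
    _ = _ := by ring

/-- **The pointwise bound.** -/
theorem Psi_bound (hM : 0 < M) (hM' : 0 < M') {a : Fin M → ℂ} (ha : Function.Injective a)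
    {b : Fin M' → ℂ} (hb : Function.Injective b) (μ ν c : Fin (M + 1) → ℕ)
    (hc : ∀ i, (μ i = 1 ∧ c i ≤ 3) ∨ (μ i = 0 ∧ c i ≤ 2 * ν i)) (μ' ν' c' : Fin (M' + 1) → ℕ)
    (hc' : ∀ i, (μ' i = 1 ∧ c' i ≤ 3) ∨ (μ' i = 0 ∧ c' i ≤ 2 * ν' i))
    (hν : ∑ i, ν i + 2 = 2 * ∑ i, μ i) (hν' : ∑ i, ν' i + 2 = 2 * ∑ i, μ' i) {κ κ' : ℕ}
    (hκ : ∑ i, c i = 6 * ∑ i, μ i + 6 + κ) (hκ' : ∑ i, c' i = 6 * ∑ i, μ' i + 6 + κ') :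
    ∃ C : ℝ, 1 ≤ C ∧ ∀ (u v : ℂ → Fin 2 → ℂ) (z : ℂ) (ε B : ℝ), 0 < ε → ε ≤ 1 → 1 ≤ B →
      (∀ w ∈ closedBall z ε, ∀ j, AnalyticAt ℂ (fun w => u w j) w) →
      (∀ w ∈ closedBall z ε, ∀ j, AnalyticAt ℂ (fun w => v w j) w) →
      Calm (UU a u) z ε B → Calm (UU b v) z ε B →
      ‖Psi a μ ν b μ' ν' u v z‖ * sup (UU a u) z ^ κ * sup (UU b v) z ^ κ' ≤
        C * (B / ε) ^ 12 * ((∏ i, ‖UU a u i z‖ ^ c i) * ∏ i, ‖UU b v i z‖ ^ c' i) := by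
  obtain ⟨C, hC1, hC⟩ := block hM ha μ ν c hc
  obtain ⟨C', hC1', hC'⟩ := block hM' hb μ' ν' c' hc'
  have hC0 : 0 ≤ C := by linarith
  have hC0' : 0 ≤ C' := by linarith
  refine ⟨(C * C' * (2 + 2 * C + 2 * C')) ^ 2 * C ^ 4 * C' ^ 4, ?_, ?_⟩
  · have h1 : 1 ≤ C * C' := one_le_mul_of_one_le_of_one_le hC1 hC1'
    have h2 : 1 ≤ C * C' * (2 + 2 * C + 2 * C') :=
      one_le_mul_of_one_le_of_one_le h1 (by linarith)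
    exact one_le_mul_of_one_le_of_one_le (one_le_mul_of_one_le_of_one_le (one_le_pow₀ h2)
      (one_le_pow₀ hC1)) (one_le_pow₀ hC1')
  intro u v z ε B hε hε1 hB hu hv hcu hcv
  obtain ⟨l, A, w, ω, h⟩ := hC u z ε B hε hε1 hB hu hcu
  obtain ⟨l', A', w', ω', h'⟩ := hC' v z ε B hε hε1 hB hv hcv
  obtain ⟨T, δ, hT, hδ, b1, b2, b3, b4, b5⟩ := h.bd
  obtain ⟨T', δ', hT', hδ', b1', b2', b3', b4', b5'⟩ := h'.bd
  have hK : 1 ≤ B / ε := by rw [le_div_iff₀ hε]; linarith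
  have hK0 : 0 ≤ B / ε := by linarith
  set K := B / ε with hKd
  have hsc : Vf (FA a μ u) (Fw a ν u) (FA b μ' v) (Fw b ν' v) z =
      l z ^ (3 * ∑ i, μ i) * l' z ^ (3 * ∑ i, μ' i) * Vf A w A' w' z := by
    have e1 := h.eqw
    have e1' := h'.eqw
    rw [hν] at e1
    rw [hν'] at e1'
    exact Vf_scale h.lam_an h'.lam_an h.lam_ne h'.lam_ne h.A_an h.w_an h'.A_an h'.w_an
      h.eqA e1 h'.eqA e1'
  have hV := Vf_bound (X := T * δ) (Y := T' * δ') hC0 hC0' hK0 (by positivity) (by positivity)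
    b1 b2 b3 b1' b2' b3'
  have hnorm : ‖Psi a μ ν b μ' ν' u v z‖ = ‖l z‖ ^ (6 * ∑ i, μ i + 6) *
      ‖l' z‖ ^ (6 * ∑ i, μ' i + 6) * (‖Vf A w A' w' z‖ ^ 2 * (‖ω z‖ ^ 3 * ‖ω' z‖ ^ 3)) := by
    unfold Psi
    rw [hsc, h.eqω, h'.eqω]
    simp only [norm_mul, norm_pow, mul_pow]
    have e1 : ‖l z‖ ^ (6 * ∑ i, μ i + 6) = (‖l z‖ ^ (3 * ∑ i, μ i)) ^ 2 * (‖l z‖ ^ 2) ^ 3 := by
      rw [← pow_mul, ← pow_mul, ← pow_add]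
      congr 1
      ring
    have e2 : ‖l' z‖ ^ (6 * ∑ i, μ' i + 6) =
        (‖l' z‖ ^ (3 * ∑ i, μ' i)) ^ 2 * (‖l' z‖ ^ 2) ^ 3 := by
      rw [← pow_mul, ← pow_mul, ← pow_add]
      congr 1
      ring
    rw [e1, e2]
    ring
  have hb2 : ‖Vf A w A' w' z‖ ^ 2 ≤ (C * C' * (2 + 2 * C + 2 * C') * K ^ 3 *
      (‖A z‖ * ‖A' z‖ * (T * δ * (T' * δ')))) ^ 2 := pow_le_pow_left₀ (norm_nonneg _) hV 2
  have hb3 : ‖ω z‖ ^ 3 ≤ (C * K * δ) ^ 3 := pow_le_pow_left₀ (norm_nonneg _) b4 3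
  have hb3' : ‖ω' z‖ ^ 3 ≤ (C' * K * δ') ^ 3 := pow_le_pow_left₀ (norm_nonneg _) b4' 3
  rw [hnorm, ← h.lam_sup, ← h'.lam_sup]
  have hA0 : 0 ≤ ‖A z‖ ^ 2 * T ^ 2 * δ ^ 5 * ‖l z‖ ^ (∑ i, c i) := by positivity
  calc ‖l z‖ ^ (6 * ∑ i, μ i + 6) * ‖l' z‖ ^ (6 * ∑ i, μ' i + 6) *
        (‖Vf A w A' w' z‖ ^ 2 * (‖ω z‖ ^ 3 * ‖ω' z‖ ^ 3)) * ‖l z‖ ^ κ * ‖l' z‖ ^ κ'
      ≤ ‖l z‖ ^ (6 * ∑ i, μ i + 6) * ‖l' z‖ ^ (6 * ∑ i, μ' i + 6) *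
        ((C * C' * (2 + 2 * C + 2 * C') * K ^ 3 *
          (‖A z‖ * ‖A' z‖ * (T * δ * (T' * δ')))) ^ 2 * ((C * K * δ) ^ 3 * (C' * K * δ') ^ 3)) *
          ‖l z‖ ^ κ * ‖l' z‖ ^ κ' := by gcongr
    _ = ((C * C' * (2 + 2 * C + 2 * C')) ^ 2 * C ^ 3 * C' ^ 3) * K ^ 12 *
        ((‖A z‖ ^ 2 * T ^ 2 * δ ^ 5 * ‖l z‖ ^ (∑ i, c i)) *
          (‖A' z‖ ^ 2 * T' ^ 2 * δ' ^ 5 * ‖l' z‖ ^ (∑ i, c' i))) := by
        rw [hκ, hκ', pow_add (‖l z‖) _ κ, pow_add (‖l' z‖) _ κ']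
        ring
    _ ≤ ((C * C' * (2 + 2 * C + 2 * C')) ^ 2 * C ^ 3 * C' ^ 3) * K ^ 12 *
        ((C * ∏ i, ‖UU a u i z‖ ^ c i) * (C' * ∏ i, ‖UU b v i z‖ ^ c' i)) := by
        refine mul_le_mul_of_nonneg_left ?_ (by positivity)
        exact mul_le_mul b5 b5' (by positivity) (by positivity)
    _ = _ := by ring

end Pool.Agent.K9h12.SH
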