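import Pool.Agent.K9h12.SH.Ord
import Pool.Agent.K9h12.SH.Psi
import Pool.Agent.K9h12.AX.Mf

/-!
Meromorphic functions near infinity which share values.
-/

set_option autoImplicit false

open FF Polynomial Filter Metric Set Topology

namespace Pool.Agent.K9h12.SH

open Pool.Agent.W603.LV Pool.Agent.W602.GT Pool.Agent.W603.BP Pool.Agent.W601.PH
  Pool.Agent.W602.NC Pool.Agent.TH152.HY Pool.Agent.Y190.AN Pool.Agent.K9h12.AX

section classes

variable {D : Dm} {u : ℂ → Fin 2 → ℂ} (hu : ∀ j, MeromorphicOn (fun z => u z j) D.U)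

/-- the class of a vector -/
noncomputable def clv (j : Fin 2) : MK D := cl _ (hu j)

include hu in
theorem UU_mero {M : ℕ} (a : Fin M → ℂ) (i : Fin (M + 1)) : MeromorphicOn (UU a u i) D.U := by
  unfold UU
  refine Fin.cases ?_ (fun k => ?_) i
  · exact hu 0
  · exact fun z hz => (hu 1 z hz).fun_sub ((MeromorphicAt.const _ z).fun_mul (hu 0 z hz))

theorem cl_UU {M : ℕ} (a : Fin M → ℂ) (i : Fin (M + 1)) (h : MeromorphicOn (UU a u i) D.U) :
    cl _ h = ell a i (clv hu) := by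
  revert h
  unfold UU
  refine Fin.cases ?_ (fun k => ?_) i
  · intro h; rfl
  · intro h
    have h1 : MeromorphicOn (fun z => algebraMap ℂ ℂ (a k) * u z 0) D.U := fun z hz =>
      (MeromorphicAt.const _ z).fun_mul (hu 0 z hz)
    have h2 := cl_fun_sub (hu 1) h1 h
    rw [show cl (fun z => ell a k.succ (u z)) h = _ from h2,
      cl_fun_mul (MeromorphicOn.const _) (hu 0) h1, cl_fun_const]
    rfl

include hu in
theorem wr_mero : MeromorphicOn (wr u) D.U := fun z hz =>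
  ((hu 0 z hz).fun_mul (hu 1 z hz).deriv).fun_sub ((hu 1 z hz).fun_mul (hu 0 z hz).deriv)

theorem cl_wr (h : MeromorphicOn (wr u) D.U) : cl _ h = wrA (MDer D) (clv hu) := by
  have h1 : MeromorphicOn (fun z => u z 0 * deriv (fun w => u w 1) z) D.U := fun z hz =>
    (hu 0 z hz).fun_mul (hu 1 z hz).deriv
  have h2 : MeromorphicOn (fun z => u z 1 * deriv (fun w => u w 0) z) D.U := fun z hz =>
    (hu 1 z hz).fun_mul (hu 0 z hz).deriv
  have h3 := cl_fun_sub h1 h2 h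
  rw [show cl (wr u) h = _ from h3, cl_fun_mul (hu 0) (hu 1).deriv h1,
    cl_fun_mul (hu 1) (hu 0).deriv h2, cl_deriv (hu 1), cl_deriv (hu 0)]
  rfl

include hu in
theorem FA_mero {M : ℕ} (a : Fin M → ℂ) (μ : Fin (M + 1) → ℕ) : MeromorphicOn (FA a μ u) D.U :=
  fun z hz => MeromorphicAt.fun_prod fun i _ => (UU_mero hu a i z hz).fun_pow _

theorem cl_FA {M : ℕ} (a : Fin M → ℂ) (μ : Fin (M + 1) → ℕ) (h : MeromorphicOn (FA a μ u) D.U) :
    cl _ h = ∏ i, ell a i (clv hu) ^ μ i := by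
  have h1 : ∀ i, MeromorphicOn (fun z => UU a u i z ^ μ i) D.U := fun i z hz =>
    (UU_mero hu a i z hz).fun_pow _
  have h2 := cl_fun_prod Finset.univ h1 h
  rw [show cl (FA a μ u) h = _ from h2]
  refine Finset.prod_congr rfl fun i _ => ?_
  rw [cl_fun_pow (UU_mero hu a i) _ (h1 i), cl_UU hu]

include hu in
theorem Fw_mero {M : ℕ} (a : Fin M → ℂ) (μ : Fin (M + 1) → ℕ) : MeromorphicOn (Fw a μ u) D.U :=
  fun z hz => (FA_mero hu a μ z hz).fun_mul (wr_mero hu z hz)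

theorem cl_Fw {M : ℕ} (a : Fin M → ℂ) (μ : Fin (M + 1) → ℕ) (h : MeromorphicOn (Fw a μ u) D.U) :
    cl _ h = (∏ i, ell a i (clv hu) ^ μ i) * wrA (MDer D) (clv hu) := by
  have h2 := cl_fun_mul (FA_mero hu a μ) (wr_mero hu) h
  rw [show cl (Fw a μ u) h = _ from h2, cl_FA hu, cl_wr hu]

end classes

theorem Vf_mero {D : Dm} {A w B v : ℂ → ℂ} (hA : MeromorphicOn A D.U) (hw : MeromorphicOn w D.U)
    (hB : MeromorphicOn B D.U) (hv : MeromorphicOn v D.U) : MeromorphicOn (Vf A w B v) D.U :=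
  fun z hz => (((hA z hz).fun_mul (hB z hz)).fun_mul (((hw z hz).fun_mul (hv z hz).deriv).fun_sub
    ((hw z hz).deriv.fun_mul (hv z hz)))).fun_add
    (((MeromorphicAt.const _ z).fun_mul ((hw z hz).fun_mul (hv z hz))).fun_mul
      (((hB z hz).fun_mul (hA z hz).deriv).fun_sub ((hA z hz).fun_mul (hB z hz).deriv)))

theorem cl_Vf {D : Dm} {A w B v : ℂ → ℂ} (hA : MeromorphicOn A D.U) (hw : MeromorphicOn w D.U)
    (hB : MeromorphicOn B D.U) (hv : MeromorphicOn v D.U) (h : MeromorphicOn (Vf A w B v) D.U) :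
    cl _ h = Va (MDer D) (cl A hA) (cl w hw) (cl B hB) (cl v hv) := by
  have a1 : MeromorphicOn (fun z => A z * B z) D.U := fun z hz => (hA z hz).fun_mul (hB z hz)
  have a2 : MeromorphicOn (fun z => w z * deriv v z) D.U := fun z hz =>
    (hw z hz).fun_mul (hv z hz).deriv
  have a3 : MeromorphicOn (fun z => deriv w z * v z) D.U := fun z hz =>
    (hw z hz).deriv.fun_mul (hv z hz)
  have a4 : MeromorphicOn (fun z => w z * deriv v z - deriv w z * v z) D.U := fun z hz =>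
    (a2 z hz).fun_sub (a3 z hz)
  have a5 : MeromorphicOn (fun z => A z * B z * (w z * deriv v z - deriv w z * v z)) D.U :=
    fun z hz => (a1 z hz).fun_mul (a4 z hz)
  have b1 : MeromorphicOn (fun z => w z * v z) D.U := fun z hz => (hw z hz).fun_mul (hv z hz)
  have b2 : MeromorphicOn (fun z => 2 * (w z * v z)) D.U := fun z hz =>
    (MeromorphicAt.const _ z).fun_mul (b1 z hz)
  have b3 : MeromorphicOn (fun z => B z * deriv A z) D.U := fun z hz =>
    (hB z hz).fun_mul (hA z hz).deriv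
  have b4 : MeromorphicOn (fun z => A z * deriv B z) D.U := fun z hz =>
    (hA z hz).fun_mul (hB z hz).deriv
  have b5 : MeromorphicOn (fun z => B z * deriv A z - A z * deriv B z) D.U := fun z hz =>
    (b3 z hz).fun_sub (b4 z hz)
  have b6 : MeromorphicOn (fun z => 2 * (w z * v z) * (B z * deriv A z - A z * deriv B z)) D.U :=
    fun z hz => (b2 z hz).fun_mul (b5 z hz)
  have h1 := cl_fun_add a5 b6 h
  rw [show cl (Vf A w B v) h = _ from h1, cl_fun_mul a1 a4, cl_fun_mul hA hB, cl_fun_sub a2 a3,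
    cl_fun_mul hw hv.deriv, cl_fun_mul hw.deriv hv, cl_fun_mul b2 b5,
    cl_fun_mul (MeromorphicOn.const (2 : ℂ)) b1, cl_fun_const, cl_fun_mul hw hv,
    cl_fun_sub b3 b4, cl_fun_mul hB hA.deriv, cl_fun_mul hA hB.deriv, cl_deriv hA, cl_deriv hB,
    cl_deriv hw, cl_deriv hv, map_ofNat]
  rfl

section

variable {D : Dm} {u v : ℂ → Fin 2 → ℂ} (hu : ∀ j, MeromorphicOn (fun z => u z j) D.U)
  (hv : ∀ j, MeromorphicOn (fun z => v z j) D.U)

include hu hv in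
theorem Psi_mero {M M' : ℕ} (a : Fin M → ℂ) (μ ν : Fin (M + 1) → ℕ) (b : Fin M' → ℂ)
    (μ' ν' : Fin (M' + 1) → ℕ) : MeromorphicOn (Psi a μ ν b μ' ν' u v) D.U := fun z hz =>
  ((Vf_mero (FA_mero hu a μ) (Fw_mero hu a ν) (FA_mero hv b μ') (Fw_mero hv b ν') z hz).fun_pow
    2).fun_mul (((wr_mero hu z hz).fun_pow 3).fun_mul ((wr_mero hv z hz).fun_pow 3))

theorem cl_Psi {M M' : ℕ} (a : Fin M → ℂ) (μ ν : Fin (M + 1) → ℕ) (b : Fin M' → ℂ)
    (μ' ν' : Fin (M' + 1) → ℕ) (h : MeromorphicOn (Psi a μ ν b μ' ν' u v) D.U) :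
    cl _ h = PsiA (MDer D) a μ ν b μ' ν' (clv hu) (clv hv) := by
  have hV := Vf_mero (FA_mero hu a μ) (Fw_mero hu a ν) (FA_mero hv b μ') (Fw_mero hv b ν')
  have h1 : MeromorphicOn (fun z => Vf (FA a μ u) (Fw a ν u) (FA b μ' v) (Fw b ν' v) z ^ 2) D.U :=
    fun z hz => (hV z hz).fun_pow 2
  have h2 : MeromorphicOn (fun z => wr u z ^ 3) D.U := fun z hz => (wr_mero hu z hz).fun_pow 3
  have h3 : MeromorphicOn (fun z => wr v z ^ 3) D.U := fun z hz => (wr_mero hv z hz).fun_pow 3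
  have h4 : MeromorphicOn (fun z => wr u z ^ 3 * wr v z ^ 3) D.U := fun z hz =>
    (h2 z hz).fun_mul (h3 z hz)
  have h5 := cl_fun_mul h1 h4 h
  rw [show cl (Psi a μ ν b μ' ν' u v) h = _ from h5, cl_fun_pow hV, cl_fun_mul h2 h3,
    cl_fun_pow (wr_mero hu), cl_fun_pow (wr_mero hv), cl_wr hu, cl_wr hv,
    cl_Vf (FA_mero hu a μ) (Fw_mero hu a ν) (FA_mero hv b μ') (Fw_mero hv b ν'),
    cl_FA hu, cl_FA hv, cl_Fw hu, cl_Fw hv]
  rfl

end

/-- the order of an analytic function and of its class -/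
theorem le_order {D : Dm} {f : ℂ → ℂ} {hf : MeromorphicOn f D.U} {z : ℂ} (hz : z ∈ D.U)
    (han : AnalyticAt ℂ f z) {n : ℕ} (h : (n : ℤ) ≤ (PL hz).ord (cl f hf)) :
    (n : ℕ∞) ≤ analyticOrderAt f z := by
  cases ho : analyticOrderAt f z with
  | top => exact le_top
  | coe m =>
    have h1 := ord_cl (hg := hf) hz han ho
    rw [h1] at h
    exact_mod_cast h

/-- a primitive vector of a function -/
theorem prim_vec (x : MK (exD 1 one_pos)) : ∃ (r : ℝ) (_ : 1 < r) (u : ℂ → Fin 2 → ℂ)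
    (hu : ∀ j, MeromorphicOn (fun z => u z j) (exD 1 one_pos).U),
    (∀ z ∈ Ext r, ∀ j, AnalyticAt ℂ (fun z => u z j) z) ∧ (∀ z ∈ Ext r, u z ≠ 0) ∧
    clv hu 0 ≠ 0 ∧ clv hu 1 = clv hu 0 * x := by
  obtain ⟨r, hr, s, G, hG, hs, h1, h2, h3⟩ := primitive one_pos (d := 1) ![1, x] (by
    intro h
    have := congrFun h 0
    simp at this)
  have e0 := h3 0
  have e1 := h3 1
  simp only [Matrix.cons_val_zero, Matrix.cons_val_one] at e0 e1
  have h0 : clv hG 0 ≠ 0 := by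
    intro h
    unfold clv at h
    rw [h, mul_zero] at e0
    exact one_ne_zero e0
  refine ⟨r, hr, G, hG, h1, h2, h0, ?_⟩
  apply mul_left_cancel₀ hs
  have e2 : s * (clv hG 0 * x) = (s * clv hG 0) * x := by ring
  rw [e2]
  unfold clv
  rw [← e0, ← e1, one_mul]

/-- orders of a primitive vector -/
theorem prim_at {r : ℝ} (hr : 1 < r) {u : ℂ → Fin 2 → ℂ}
    {hu : ∀ j, MeromorphicOn (fun z => u z j) (exD 1 one_pos).U}
    (h1 : ∀ z ∈ Ext r, ∀ j, AnalyticAt ℂ (fun z => u z j) z) (h2 : ∀ z ∈ Ext r, u z ≠ 0)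
    {z : ℂ} (hz : z ∈ Ext r) (hz' : z ∈ (exD 1 one_pos).U) :
    Ge (PL hz') 0 (clv hu 0) ∧ Ge (PL hz') 0 (clv hu 1) ∧
      ((PL hz').ord (clv hu 0) = 0 ∨ (PL hz').ord (clv hu 1) = 0) := by
  refine ⟨ge_cl hz' (h1 z hz 0), ge_cl hz' (h1 z hz 1), ?_⟩
  obtain ⟨j, hj⟩ := Function.ne_iff.1 (h2 z hz)
  have h3 : (PL hz').ord (clv hu j) = 0 := by
    have h4 : analyticOrderAt (fun z => u z j) z = ((0 : ℕ) : ℕ∞) := by
      rw [Nat.cast_zero, (h1 z hz j).analyticOrderAt_eq_zero]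
      exact hj
    have := ord_cl (hg := hu j) hz' (h1 z hz j) h4
    exact_mod_cast this
  fin_cases j
  · exact Or.inl h3
  · exact Or.inr h3

/-- quotients which are meromorphic at infinity -/
theorem minf_of_rel {u : ℂ → Fin 2 → ℂ}
    {hu : ∀ j, MeromorphicOn (fun z => u z j) (exD 1 one_pos).U} {x : MK (exD 1 one_pos)}
    (h0 : clv hu 0 ≠ 0) (hx : clv hu 1 = clv hu 0 * x) {M : ℕ} {a : Fin M → ℂ} (k : Fin M)
    {w : ℂ → ℂ} (hw : MeromorphicOn w (exD 1 one_pos).U) (hw0 : cl w hw ≠ 0) {R : ℂ → ℂ}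
    (hR : MeromorphicAt (fun w => R w⁻¹) 0) {R0 : ℝ}
    (h : ∀ z, R0 < ‖z‖ → UU a u k.succ z * w z = R z * (UU a u 0 z * w z)) :
    x ∈ Minf 1 one_pos := by
  have hq : MeromorphicOn (fun z => u z 1 / u z 0) (exD 1 one_pos).U := fun z hz =>
    (hu 1 z hz).fun_div (hu 0 z hz)
  have h1 : x = cl _ hq := by
    have h2 : cl (fun z => u z 1 / u z 0) hq = clv hu 1 / clv hu 0 := by
      unfold clv
      rw [cl_div]
      rfl
    rw [h2, hx, mul_div_cancel_left₀ _ h0]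
  rw [h1]
  refine mem_of_large (R := fun z => R z + a k) (R0 := max R0 1) ?_ ?_
  · exact hR.fun_add (MeromorphicAt.const _ _)
  · intro z hz
    have hz1 : z ∈ (exD 1 one_pos).U := lt_of_le_of_lt (le_max_right _ _) hz
    have hop : ∀ᶠ t in 𝓝[≠] z, max R0 1 < ‖t‖ :=
      nhdsWithin_le_nhds (continuous_norm.continuousAt.eventually (lt_mem_nhds hz))
    filter_upwards [hop, ev_ne h0 hz1, ev_ne hw0 hz1] with t ht t0 tw
    have h2 := h t (lt_of_le_of_lt (le_max_left _ _) ht)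
    have h3 : UU a u k.succ t = R t * UU a u 0 t := by
      apply mul_right_cancel₀ tw
      rw [h2]
      ring
    simp only [UU, ell_succ, ell_zero, Algebra.algebraMap_self, RingHom.id_apply] at h3
    have h4 : u t 1 = (R t + a k) * u t 0 := by linear_combination h3
    rw [h4, mul_div_cancel_right₀ _ t0]

/-- **The main case.** -/
theorem an_main {A B : ℂ[X]} (hA : A.Separable) (hB : B.Separable)
    (hp : 2 * kk A + 14 ≤ A.natDegree) (hq : 2 * kk B + 14 ≤ B.natDegree)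
    {x y : MK (exD 1 one_pos)} (hx : MDer (exD 1 one_pos) x ≠ 0) (hy : MDer (exD 1 one_pos) y ≠ 0)
    (hW : W (MDer (exD 1 one_pos)) (aeval x A)⁻¹ (aeval y B)⁻¹ ≠ 0)
    (hst : ∀ (z : ℂ) (hz : z ∈ (exD 1 one_pos).U), Ge (PL hz) 0 x → Ge (PL hz) 0 y →
      (PL hz).ord (aeval x A) + (PL hz).ord (aeval y B) ≠ 1) :
    x ∈ Minf 1 one_pos ∧ y ∈ Minf 1 one_pos := by
  obtain ⟨M, a, hE⟩ := exists_Enum hA (by omega)
  obtain ⟨M', b, hE'⟩ := exists_Enum hB (by omega)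
  obtain ⟨r1, hr1, u, hu, hu1, hu2, hu0, hux⟩ := prim_vec x
  obtain ⟨r2, hr2, v, hv, hv1, hv2, hv0, hvy⟩ := prim_vec y
  set r : ℝ := max r1 r2 with hr
  have hr0 : 1 < r := lt_of_lt_of_le hr1 (le_max_left _ _)
  have hE1 : Ext r ⊆ Ext r1 := Ext_mono (le_max_left _ _)
  have hE2 : Ext r ⊆ Ext r2 := Ext_mono (le_max_right _ _)
  have hE0 : Ext r ⊆ (exD 1 one_pos).U := Ext_mono hr0.le
  have hloc : ∀ z (hz : z ∈ Ext r), _ := fun z hz =>
    ord_main (nice_PL (hE0 hz)) hA hB (by omega) (by omega) hE hE' hu0 hv0 hux hvy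
      (prim_at hr1 hu1 hu2 (hE1 hz) (hE0 hz)).1 (prim_at hr1 hu1 hu2 (hE1 hz) (hE0 hz)).2.1
      (prim_at hr1 hu1 hu2 (hE1 hz) (hE0 hz)).2.2 (prim_at hr2 hv1 hv2 (hE2 hz) (hE0 hz)).1
      (prim_at hr2 hv1 hv2 (hE2 hz) (hE0 hz)).2.1 (prim_at hr2 hv1 hv2 (hE2 hz) (hE0 hz)).2.2
      hx hy hW (hst z (hE0 hz))
  obtain ⟨z1, hz1⟩ := Ext_nonempty r
  obtain ⟨hPsi0, hUne, hVne, -⟩ := hloc z1 hz1
  obtain ⟨κ, hκ⟩ : ∃ κ, A.natDegree = 2 * kk A + 13 + (κ + 1) :=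
    ⟨A.natDegree - (2 * kk A + 14), by omega⟩
  obtain ⟨κ', hκ'⟩ : ∃ κ, B.natDegree = 2 * kk B + 13 + (κ + 1) :=
    ⟨B.natDegree - (2 * kk B + 14), by omega⟩
  have s1 : ∑ i, cw A a i = 6 * ∑ i, mu A a i + 6 + (κ + 1) := by
    have := hE.hcw
    have := hE.hmu
    omega
  have s2 : ∑ i, cw B b i = 6 * ∑ i, mu B b i + 6 + (κ' + 1) := by
    have := hE'.hcw
    have := hE'.hmu
    omega
  obtain ⟨C, hC1, hC⟩ := Psi_bound hE.pos hE'.pos hE.inj hE'.inj (mu A a) (nu A a) (cw A a) hE.hc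
    (mu B b) (nu B b) (cw B b) hE'.hc (by rw [hE.hmu, hE.hnu]) (by rw [hE'.hmu, hE'.hnu]) s1 s2
  have hPm := Psi_mero hu hv a (mu A a) (nu A a) b (mu B b) (nu B b)
  have hPc := cl_Psi hu hv a (mu A a) (nu A a) b (mu B b) (nu B b) hPm
  have hpos : 0 < r := by linarith
  have hUc : ∀ i, cl _ (UU_mero hu a i) ≠ 0 := fun i => by rw [cl_UU hu]; exact hUne i
  have hVc : ∀ i, cl _ (UU_mero hv b i) ≠ 0 := fun i => by rw [cl_UU hv]; exact hVne i
  have hmain := two_ext (r0 := r) hpos (cw A a) (cw B b) (by omega) (by omega)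
    (κ := κ + 1) (κ' := κ' + 1) (Nn := 12) (Nat.succ_pos _) (Nat.succ_pos _) hC1
    (U := UU a u) (V := UU b v) (fun i z hz => UU_an (hu1 z (hE1 hz)) i)
    (fun i z hz => UU_an (hv1 z (hE2 hz)) i)
    (fun i => exists_ne (hUc i) (Ext_open r) hE0 ⟨z1, hz1⟩)
    (fun i => exists_ne (hVc i) (Ext_open r) hE0 ⟨z1, hz1⟩)
    (P := Psi a (mu A a) (nu A a) b (mu B b) (nu B b) u v)
    (fun z hz => Psi_an (hu1 z (hE1 hz)) (hv1 z (hE2 hz)))
    (exists_ne (hf := hPm) (by rw [hPc]; exact hPsi0) (Ext_open r) hE0 ⟨z1, hz1⟩) ?_ ?_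
  · constructor
    · obtain ⟨R, hR, R0, hR0⟩ := hmain (⟨0, hE.pos⟩ : Fin M).succ 0
      exact minf_of_rel hu0 hux (a := a) ⟨0, hE.pos⟩ (UU_mero hv b 0) (hVc 0) hR hR0
    · obtain ⟨R, hR, R0, hR0⟩ := hmain 0 (⟨0, hE'.pos⟩ : Fin M').succ
      refine minf_of_rel hv0 hvy (a := b) ⟨0, hE'.pos⟩ (UU_mero hu a 0) (hUc 0) hR
        (R0 := R0) fun z hz => ?_
      have := hR0 z hz
      linear_combination this
  · intro z hz n m hn hm
    have h1 := (hloc z hz).2.2.2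
    apply le_order (hf := hPm) (hE0 hz) (Psi_an (hu1 z (hE1 hz)) (hv1 z (hE2 hz)))
    rw [hPc]
    refine le_trans (le_of_eq ?_) h1
    have e1 : ∀ i, (PL (hE0 hz)).ord (ell a i (clv hu)) = n i := fun i => by
      rw [← cl_UU hu a i (UU_mero hu a i)]
      exact ord_cl (hE0 hz) (UU_an (hu1 z (hE1 hz)) i) (hn i)
    have e2 : ∀ i, (PL (hE0 hz)).ord (ell b i (clv hv)) = m i := fun i => by
      rw [← cl_UU hv b i (UU_mero hv b i)]
      exact ord_cl (hE0 hz) (UU_an (hv1 z (hE2 hz)) i) (hm i)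
    simp only [e1, e2]
    push_cast
    rfl
  · intro z ε β hε hε1 hβ hball hcu hcv
    exact hC u v z ε β hε hε1 hβ (fun w hw => hu1 w (hE1 (hball hw)))
      (fun w hw => hv1 w (hE2 (hball hw))) hcu hcv

end Pool.Agent.K9h12.SH
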