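import Pool.Agent.K9h12.SH.Han
import Pool.Agent.W602.GT.Core
import Pool.Agent.W603.LV.Der2

/-!
Curves of log general type.
-/

set_option autoImplicit false

open FF Polynomial

namespace Pool.Agent.K9h12.SH

open Pool.Agent.W603.LV Pool.Agent.W602.GT

variable {L : Type} [Field L] [Algebra ℂ L]

section forms

variable [IsFF ℂ L]

/-- nonzero derivations are multiples of derivations with respect to uniformizers -/
theorem exists_nice (P : Place ℂ L) {D : Derivation ℂ L L} (hD : D ≠ 0) :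
    ∃ (h : L) (D' : Derivation ℂ L L), Nice P D' ∧ D = h • D' ∧
      (DerReg P D → Ge P 0 h) ∧ (DerLog P D → Ge P 1 h) := by
  obtain ⟨π, hπ0, hπ⟩ := P.surj
  have h1 := der_pi_ne_zero hD P hπ
  have hD' : ((D π)⁻¹ • D) π = 1 := by
    rw [Derivation.smul_apply, smul_eq_mul, inv_mul_cancel₀ h1]
  refine ⟨D π, (D π)⁻¹ • D, ⟨fun f hf => der_reg P hπ _ hD' hf, ⟨π, hπ, hD'⟩,
    fun f hf => exists_const P hf⟩, ?_, ?_, ?_⟩
  · rw [smul_smul, mul_inv_cancel₀ h1, one_smul]
  · intro h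
    exact h π (Or.inr (by omega))
  · intro h
    have h2 : Ge P 0 (D π / π) := h π
    have h3 := h2.mul (ge_ord P π)
    rw [div_mul_cancel₀ _ hπ0, hπ, zero_add] at h3
    exact h3

omit [IsFF ℂ L] in
theorem Nice.ne_zero {P : Place ℂ L} {D : Derivation ℂ L L} (h : Nice P D) : D ≠ 0 := by
  rintro rfl
  obtain ⟨π, -, h1⟩ := h.uni
  exact zero_ne_one h1

/-- **Forms on curves.** -/
theorem curve_lgt (Bd : Place ℂ L → Prop) {N : ℕ} (hN : 0 < N)
    (ω : Fin 2 → Derivation ℂ L L → L)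
    (hω : ∀ j (c : L) (D : Derivation ℂ L L), ω j (c • D) = c ^ N * ω j D)
    (D0 : Derivation ℂ L L) (hne : ω 0 D0 ≠ 0) {t : L} (ht : Transcendental ℂ t)
    (hr : ω 1 D0 / ω 0 D0 = t)
    (hlog : ∀ (P : Place ℂ L) (D : Derivation ℂ L L), Nice P D → ∀ j, Ge P (-N) (ω j D))
    (hreg : ∀ (P : Place ℂ L), ¬ Bd P → ∀ (D : Derivation ℂ L L), Nice P D →
      ∀ j, Ge P 0 (ω j D)) : LogGeneralType ℂ L 1 Bd := by
  have hω0 : ∀ j, ω j 0 = 0 := by
    intro j
    have := hω j 0 0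
    rwa [zero_smul, zero_pow hN.ne', zero_mul] at this
  refine ⟨?_, N, hN, fun j D => ω j (D 0), ?_, ?_, ?_, fun _ => D0, hne, ?_⟩
  · rw [IsFF.trdeg (k := ℂ) (K := L)]
    simp
  · intro j A D
    simp only [Fin.sum_univ_one, Matrix.det_unique, Fin.default_eq_zero]
    exact hω j _ _
  · intro P _ j D hD
    by_cases h0 : D 0 = 0
    · simp only [h0, hω0]
      exact P.reg_zero
    · obtain ⟨h, D', hD', heq, -, h1⟩ := exists_nice P h0
      simp only
      rw [heq, hω]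
      have h2 := ((h1 (hD 0)).pow N).mul (hlog P D' hD' j)
      exact h2.mono (by omega)
  · intro P _ hP j D hD
    by_cases h0 : D 0 = 0
    · simp only [h0, hω0]
      exact P.reg_zero
    · obtain ⟨h, D', hD', heq, h1, -⟩ := exists_nice P h0
      simp only
      rw [heq, hω]
      have h2 := ((h1 (hD 0)).pow N).mul (hreg P hP D' hD' j)
      exact h2.mono (by omega)
  · rw [algebraicIndependent_unique_type_iff]
    simp only [Fin.default_eq_zero, Fin.succ_zero_eq_one]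
    rw [hr]
    exact ht

end forms

theorem W_smul (c : L) (D : Derivation ℂ L L) (f g : L) :
    W (c • D) f g = c ^ 3 * W D f g := by
  unfold W
  simp only [Derivation.smul_apply, smul_eq_mul, D.leibniz]
  ring

theorem om_smul (c : L) (D : Derivation ℂ L L) (A B : ℂ[X]) (x y : L) (i j : ℕ) :
    om (c • D) A B x y i j = c ^ 12 * om D A B x y i j := by
  unfold om EE
  rw [W_smul]
  simp only [Derivation.smul_apply, smul_eq_mul]
  ring

theorem trans_of_der {D : Derivation ℂ L L} {x : L} (h : D x ≠ 0) : Transcendental ℂ x := by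
  intro h1
  obtain ⟨c, hc⟩ := const_of_algebraic h1
  exact const_of_eq h c hc

/-- the case of a nonvanishing Wronskian -/
theorem cur_main [IsFF ℂ L] {A B : ℂ[X]} (hA : A.Separable) (hB : B.Separable)
    (hp : 2 * kk A + 14 ≤ A.natDegree) (hq : 2 * kk B + 14 ≤ B.natDegree) {x y : L}
    {D0 : Derivation ℂ L L} (hx : D0 x ≠ 0) (hy : D0 y ≠ 0)
    (hW : W D0 (aeval x A)⁻¹ (aeval y B)⁻¹ ≠ 0) {Bd : Place ℂ L → Prop}
    (hst : ∀ P, ¬ Bd P → Shr A B P x y) : LogGeneralType ℂ L 1 Bd := by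
  have hA0 : A ≠ 0 := by rintro rfl; simp at hp
  have hB0 : B ≠ 0 := by rintro rfl; simp at hq
  have tx := trans_of_der hx
  have ty := trans_of_der hy
  have hE : ∀ i, EE D0 A x i ≠ 0 := by
    intro i
    unfold EE
    have h1 : ∀ {Q : ℂ[X]}, Q ≠ 0 → aeval x Q ≠ 0 := fun hQ h0 => tx ⟨_, hQ, h0⟩
    have h2 : x ≠ 0 := fun h0 => const_of_eq hx 0 (by rw [h0, map_zero])
    exact mul_ne_zero (div_ne_zero (mul_ne_zero (pow_ne_zero _ hx) (pow_ne_zero _ (h1 hA0)))
      (h1 (RR_ne A))) (pow_ne_zero _ h2)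
  have hE' : ∀ i, EE D0 B y i ≠ 0 := by
    intro i
    unfold EE
    have h1 : ∀ {Q : ℂ[X]}, Q ≠ 0 → aeval y Q ≠ 0 := fun hQ h0 => ty ⟨_, hQ, h0⟩
    have h2 : y ≠ 0 := fun h0 => const_of_eq hy 0 (by rw [h0, map_zero])
    exact mul_ne_zero (div_ne_zero (mul_ne_zero (pow_ne_zero _ hy) (pow_ne_zero _ (h1 hB0)))
      (h1 (RR_ne B))) (pow_ne_zero _ h2)
  refine curve_lgt Bd (N := 12) (by norm_num) (fun j D => om D A B x y j 0)
    (fun j c D => om_smul c D A B x y j 0) D0 ?_ tx ?_ ?_ ?_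
  · exact mul_ne_zero (pow_ne_zero _ hW) (mul_ne_zero (hE _) (hE' _))
  · have h1 := hE 0
    have h2 := hE' 0
    have h3 : EE D0 A x 1 = EE D0 A x 0 * x := by
      unfold EE
      ring
    have h4 : om D0 A B x y 1 0 = om D0 A B x y 0 0 * x := by
      unfold om
      rw [h3]
      ring
    rw [show ((1 : Fin 2) : ℕ) = 1 from rfl, show ((0 : Fin 2) : ℕ) = 0 from rfl, h4,
      mul_div_cancel_left₀]
    exact mul_ne_zero (pow_ne_zero _ hW) (mul_ne_zero h1 h2)
  · intro P D hD j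
    have hxD : D x ≠ 0 := der_ne_zero hD.ne_zero tx
    have hyD : D y ≠ 0 := der_ne_zero hD.ne_zero ty
    have h1 := (loc_main hD hA hB hxD hyD (i := j) (j := 0) (by have := j.2; omega)
      (by omega)).1
    exact h1.mono (by norm_num)
  · intro P hP D hD j
    have hxD : D x ≠ 0 := der_ne_zero hD.ne_zero tx
    have hyD : D y ≠ 0 := der_ne_zero hD.ne_zero ty
    refine (loc_main hD hA hB hxD hyD (i := j) (j := 0) (by have := j.2; omega)
      (by omega)).2 fun h1 h2 => hst P hP h1 h2 ?_ ?_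
    · exact fun h0 => tx ⟨_, hA0, h0⟩
    · exact fun h0 => ty ⟨_, hB0, h0⟩

/-- the case of a constant function -/
theorem cur_const [IsFF ℂ L] {B : ℂ[X]} (hB : B.Separable) (hq : 6 ≤ B.natDegree) {y : L}
    {D0 : Derivation ℂ L L} (hy : D0 y ≠ 0) {Bd : Place ℂ L → Prop}
    (hst : ∀ P, ¬ Bd P → Ge P 0 y → P.ord (aeval y B) ≠ 1) : LogGeneralType ℂ L 1 Bd := by
  have hB0 : B ≠ 0 := by rintro rfl; simp at hq
  have ty := trans_of_der hy
  have hy0 : y ≠ 0 := fun h0 => const_of_eq hy 0 (by rw [h0, map_zero])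
  have hBy : aeval y B ≠ 0 := fun h0 => ty ⟨_, hB0, h0⟩
  have key : ∀ (P : Place ℂ L) (D : Derivation ℂ L L), Nice P D → ∀ j : ℕ, j ≤ 1 →
      Ge P (-2) (D y ^ 2 * y ^ j / aeval y B) ∧
      ((Ge P 0 y → P.ord (aeval y B) ≠ 1) → Ge P 0 (D y ^ 2 * y ^ j / aeval y B)) := by
    intro P D hD j hj
    have hyD : D y ≠ 0 := der_ne_zero hD.ne_zero ty
    have hc := const_of_eq hyD
    have hn : D y ^ 2 * y ^ j ≠ 0 := mul_ne_zero (pow_ne_zero _ hyD) (pow_ne_zero _ hy0)
    have ho : P.ord (D y ^ 2 * y ^ j / aeval y B) =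
        2 * P.ord (D y) + j * P.ord y - P.ord (aeval y B) := by
      rw [P.ord_div hn hBy, P.ord_mul (pow_ne_zero _ hyD) (pow_ne_zero _ hy0), P.ord_pow,
        P.ord_pow]
      push_cast
      ring
    have hG : Ge P (P.ord (D y ^ 2 * y ^ j / aeval y B)) (D y ^ 2 * y ^ j / aeval y B) :=
      ge_ord P _
    rw [ho] at hG
    have hj' : (j : ℤ) ≤ 1 := by exact_mod_cast hj
    have hj0 : (0 : ℤ) ≤ j := Int.natCast_nonneg j
    by_cases hfin : Ge P 0 y
    · obtain ⟨c, hc1⟩ := hD.res y hfin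
      have hxc : y - algebraMap ℂ L c ≠ 0 := sub_ne_zero.2 (hc c)
      have hρ := hc1.resolve_left hxc
      have hDx : P.ord (D y) = P.ord (y - algebraMap ℂ L c) - 1 := by
        have h1 := (hD.ord_der hxc (by omega)).2
        rw [map_sub, D.map_algebraMap, sub_zero] at h1
        omega
      have e1 := ord_poly_fin P hc hB0 (c := c) rfl (by omega)
      have hy1 := hfin.resolve_left hy0
      have hmul : B.rootMultiplicity c ≤ 1 := rootMultiplicity_le_one_of_separable hB c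
      have hjy : 0 ≤ (j : ℤ) * P.ord y := mul_nonneg hj0 hy1
      rcases (by omega : B.rootMultiplicity c = 0 ∨ B.rootMultiplicity c = 1) with h2 | h2
      · rw [h2, Nat.cast_zero, zero_mul] at e1
        exact ⟨hG.mono (by omega), fun _ => hG.mono (by omega)⟩
      · rw [h2, Nat.cast_one, one_mul] at e1
        refine ⟨hG.mono (by omega), fun h3 => hG.mono ?_⟩
        have := h3 hfin
        omega
    · have hx1 : P.ord y < 0 := by
        by_contra h1
        exact hfin (Or.inr (by omega))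
      obtain ⟨ρ, hρ⟩ : ∃ ρ, P.ord y = -ρ := ⟨-P.ord y, by ring⟩
      have hρ0 : 0 < ρ := by omega
      have hDx : P.ord (D y) = -ρ - 1 := by
        have h1 := (hD.ord_der hy0 (by omega)).2
        omega
      have e1 := ord_poly_inf P hc hB0 hρ hρ0
      have hq' : (6 : ℤ) ≤ B.natDegree := by exact_mod_cast hq
      have h4 : 0 ≤ 2 * P.ord (D y) + j * P.ord y - P.ord (aeval y B) := by
        rw [hDx, e1, hρ]
        nlinarith
      exact ⟨hG.mono (by omega), fun _ => hG.mono h4⟩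
  refine curve_lgt Bd (N := 2) (by norm_num) (fun j D => D y ^ 2 * y ^ (j : ℕ) / aeval y B)
    (fun j c D => ?_) D0 ?_ ty ?_ ?_ ?_
  · simp only [Derivation.smul_apply, smul_eq_mul]
    ring
  · exact div_ne_zero (mul_ne_zero (pow_ne_zero _ hy) (pow_ne_zero _ hy0)) hBy
  · rw [show ((1 : Fin 2) : ℕ) = 1 from rfl, show ((0 : Fin 2) : ℕ) = 0 from rfl]
    field_simp
  · intro P D hD j
    exact (key P D hD j (by have := j.2; omega)).1
  · intro P hP D hD j
    exact (key P D hD j (by have := j.2; omega)).2 (hst P hP)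

/-- a vector with order zero -/
theorem exists_prim (P : Place ℂ L) {x : L} (hx0 : x ≠ 0) : ∃ u : Fin 2 → L, u 0 ≠ 0 ∧
    u 1 = u 0 * x ∧ Ge P 0 (u 0) ∧ Ge P 0 (u 1) ∧ (P.ord (u 0) = 0 ∨ P.ord (u 1) = 0) := by
  by_cases h : Ge P 0 x
  · exact ⟨![1, x], one_ne_zero, by simp, Ge.one, h, Or.inl P.ord_one⟩
  · refine ⟨![x⁻¹, 1], inv_ne_zero hx0, by simp [hx0], ?_, Ge.one, Or.inr P.ord_one⟩
    right
    change 0 ≤ P.ord x⁻¹
    rw [P.ord_inv]
    by_contra h1
    exact h (Or.inr (by omega))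

/-- the case of proportional values -/
theorem cur_dgn [IsFF ℂ L] {A B : ℂ[X]} (hA : A.Separable) (hB : B.Separable)
    (hp : 3 ≤ A.natDegree) (hpq : A.natDegree ≤ B.natDegree)
    {M M' : ℕ} {a : Fin M → ℂ} {b : Fin M' → ℂ} (hE : Enum A a) (hE' : Enum B b)
    {i0 : Fin (M + 1)} (hi0 : 3 ≤ nu A a i0) {c c' : ℂ} (hc : c ≠ 0)
    (hbad : Bad A a B b c c' i0) {x y : L} {D0 : Derivation ℂ L L}
    (hx : D0 x ≠ 0) (hy : D0 y ≠ 0)
    (hrel : aeval x A = aeval y B * (algebraMap ℂ _ c + algebraMap ℂ _ c' * aeval x A))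
    (Bd : Place ℂ L → Prop) : LogGeneralType ℂ L 1 Bd := by
  have hA0 : A ≠ 0 := by rintro rfl; simp at hp
  have hq : 3 ≤ B.natDegree := hp.trans hpq
  have hB0 : B ≠ 0 := by rintro rfl; simp at hq
  have hA1 : A.derivative ≠ 0 := by
    intro h0
    have h1 := derivative_eq_zero.1 h0
    omega
  have hB1 : B.derivative ≠ 0 := by
    intro h0
    have h1 := derivative_eq_zero.1 h0
    omega
  have tx := trans_of_der hx
  have ty := trans_of_der hy
  have hx0 : x ≠ 0 := fun h0 => const_of_eq hx 0 (by rw [h0, map_zero])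
  have hy0 : y ≠ 0 := fun h0 => const_of_eq hy 0 (by rw [h0, map_zero])
  have hAx : aeval x A ≠ 0 := fun h0 => tx ⟨_, hA0, h0⟩
  have hBy : aeval y B ≠ 0 := fun h0 => ty ⟨_, hB0, h0⟩
  set l : L := ell a i0 ![1, x] with hl
  have hl0 : l ≠ 0 := by
    rw [hl]
    refine Fin.cases one_ne_zero (fun k => ?_) i0
    rw [ell_succ]
    simp only [Matrix.cons_val_zero, Matrix.cons_val_one, mul_one]
    exact sub_ne_zero.2 (const_of_eq hx _)
  have hlu : ∀ {u : Fin 2 → L}, u 1 = u 0 * x → ell a i0 u = u 0 * l := by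
    intro u hu
    rw [hl]
    refine Fin.cases (by simp) (fun k => ?_) i0
    rw [ell_succ, ell_succ, hu]
    simp only [Matrix.cons_val_zero, Matrix.cons_val_one]
    ring
  have key : ∀ (P : Place ℂ L) (D : Derivation ℂ L L), Nice P D → ∀ j : ℕ, j ≤ 1 →
      Ge P 0 (D y ^ (2 * B.natDegree) * (aeval x A / aeval y B) ^ 5 / l ^ (6 * B.natDegree) *
        x ^ j) := by
    intro P D hD j hj
    have hxD : D x ≠ 0 := der_ne_zero hD.ne_zero tx
    have hyD : D y ≠ 0 := der_ne_zero hD.ne_zero ty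
    obtain ⟨u, hu0, hux, hu1, hu2, hu3⟩ := exists_prim P hx0
    obtain ⟨v, hv0, hvy, hv1, hv2, hv3⟩ := exists_prim P hy0
    have rel1 : HA A a u * v 0 ^ B.natDegree = HA B b v *
        (algebraMap ℂ _ c * u 0 ^ A.natDegree + algebraMap ℂ _ c' * HA A a u) := by
      rw [HA_eq hE hA0 hux, HA_eq hE' hB0 hvy]
      linear_combination (u 0 ^ A.natDegree * v 0 ^ B.natDegree) * hrel
    have rel2 : HJ B b v * wrA D v * HA A a u ^ 2 =
        algebraMap ℂ _ c * (HJ A a u * wrA D u) * HA B b v ^ 2 := by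
      rw [HA_eq hE hA0 hux, HA_eq hE' hB0 hvy, HJ_eq hE hA1 _ hux, HJ_eq hE' hB1 _ hvy]
      have h1 := der_rel (D := D) hrel
      have e1 : u 0 ^ (2 * A.natDegree) = (u 0 ^ A.natDegree) ^ 2 := by
        rw [← pow_mul, mul_comm]
      have e2 : v 0 ^ (2 * B.natDegree) = (v 0 ^ B.natDegree) ^ 2 := by
        rw [← pow_mul, mul_comm]
      rw [e1, e2]
      linear_combination ((u 0 ^ A.natDegree) ^ 2 * (v 0 ^ B.natDegree) ^ 2) * h1
    obtain ⟨n1, n2, n3, n4, o1, o2⟩ := crv_ord hD hA hB hp hq hE hE' hi0 hc hbad hu0 hv0 hux hvy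
      hu1 hu2 hu3 hv1 hv2 hv3 hxD hyD rel1 rel2
    right
    have e1 : P.ord (ell a i0 u) = P.ord (u 0) + P.ord l := by rw [hlu hux, P.ord_mul hu0 hl0]
    have e2 : P.ord (wrA D v) = 2 * P.ord (v 0) + P.ord (D y) := by
      rw [wrA_eq D hvy, P.ord_mul (pow_ne_zero _ hv0) hyD, P.ord_pow]
      push_cast; ring
    have e3 : P.ord (HA A a u) = A.natDegree * P.ord (u 0) + P.ord (aeval x A) := by
      rw [HA_eq hE hA0 hux, P.ord_mul (pow_ne_zero _ hu0) hAx, P.ord_pow]
    have e4 : P.ord (HA B b v) = B.natDegree * P.ord (v 0) + P.ord (aeval y B) := by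
      rw [HA_eq hE' hB0 hvy, P.ord_mul (pow_ne_zero _ hv0) hBy, P.ord_pow]
    have e5 : P.ord (u 1) = P.ord (u 0) + P.ord x := by rw [hux, P.ord_mul hu0 hx0]
    have hu1' := hu1.resolve_left hu0
    have hu2' := hu2.resolve_left (by rw [hux]; exact mul_ne_zero hu0 hx0)
    have hv1' := hv1.resolve_left hv0
    have m1 : D y ^ (2 * B.natDegree) ≠ 0 := pow_ne_zero _ hyD
    have m2 : (aeval x A / aeval y B) ^ 5 ≠ 0 := pow_ne_zero _ (div_ne_zero hAx hBy)
    have m3 : l ^ (6 * B.natDegree) ≠ 0 := pow_ne_zero _ hl0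
    rw [P.ord_mul (div_ne_zero (mul_ne_zero m1 m2) m3) (pow_ne_zero _ hx0),
      P.ord_div (mul_ne_zero m1 m2) m3, P.ord_mul m1 m2, P.ord_pow, P.ord_pow, P.ord_pow,
      P.ord_pow, P.ord_div hAx hBy]
    have hpq' : (A.natDegree : ℤ) ≤ B.natDegree := by exact_mod_cast hpq
    have hp' : (3 : ℤ) ≤ A.natDegree := by exact_mod_cast hp
    have hj' : (j : ℤ) ≤ 1 := by exact_mod_cast hj
    have hj0 : (0 : ℤ) ≤ j := Int.natCast_nonneg j
    have f1 : P.ord (D y) = P.ord (wrA D v) - 2 * P.ord (v 0) := by linarith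
    have f2 : P.ord (aeval x A) - P.ord (aeval y B) = B.natDegree * P.ord (v 0) -
        A.natDegree * P.ord (u 0) := by linarith
    have f3 : P.ord l = P.ord (ell a i0 u) - P.ord (u 0) := by linarith
    have f4 : P.ord x = P.ord (u 1) - P.ord (u 0) := by linarith
    rw [f1, f2, f3, f4]
    push_cast
    have g1 : 0 ≤ 2 * (B.natDegree : ℤ) * (P.ord (wrA D v) - 3 * P.ord (ell a i0 u)) :=
      mul_nonneg (by linarith) (by linarith)
    have g2 : 0 ≤ (B.natDegree : ℤ) * P.ord (v 0) := mul_nonneg (by linarith) hv1'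
    have g3 : 0 ≤ (6 * (B.natDegree : ℤ) - 5 * A.natDegree - j) * P.ord (u 0) :=
      mul_nonneg (by linarith) hu1'
    have g4 : 0 ≤ (j : ℤ) * P.ord (u 1) := mul_nonneg hj0 hu2'
    have hsplit : 2 * (B.natDegree : ℤ) * (P.ord (wrA D v) - 2 * P.ord (v 0)) +
        5 * (B.natDegree * P.ord (v 0) - A.natDegree * P.ord (u 0)) -
        6 * B.natDegree * (P.ord (ell a i0 u) - P.ord (u 0)) + j * (P.ord (u 1) - P.ord (u 0)) =
        2 * (B.natDegree : ℤ) * (P.ord (wrA D v) - 3 * P.ord (ell a i0 u)) +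
        (B.natDegree : ℤ) * P.ord (v 0) +
        (6 * (B.natDegree : ℤ) - 5 * A.natDegree - j) * P.ord (u 0) + (j : ℤ) * P.ord (u 1) := by
      ring
    rw [hsplit]
    linarith
  refine curve_lgt Bd (N := 2 * B.natDegree) (by omega) (fun j D => D y ^ (2 * B.natDegree) *
    (aeval x A / aeval y B) ^ 5 / l ^ (6 * B.natDegree) * x ^ (j : ℕ))
    (fun j c D => ?_) D0 ?_ tx ?_ ?_ ?_
  · simp only [Derivation.smul_apply, smul_eq_mul]
    ring
  · exact mul_ne_zero (div_ne_zero (mul_ne_zero (pow_ne_zero _ hy)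
      (pow_ne_zero _ (div_ne_zero hAx hBy))) (pow_ne_zero _ hl0)) (pow_ne_zero _ hx0)
  · have h1 : D0 y ^ (2 * B.natDegree) * (aeval x A / aeval y B) ^ 5 / l ^ (6 * B.natDegree) ≠ 0 :=
      div_ne_zero (mul_ne_zero (pow_ne_zero _ hy)
      (pow_ne_zero _ (div_ne_zero hAx hBy))) (pow_ne_zero _ hl0)
    rw [show ((1 : Fin 2) : ℕ) = 1 from rfl, show ((0 : Fin 2) : ℕ) = 0 from rfl, pow_one,
      pow_zero, mul_one, mul_div_cancel_left₀ _ h1]
  · intro P D hD j
    exact (key P D hD j (by have := j.2; omega)).mono (by simp)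
  · intro P hP D hD j
    exact key P D hD j (by have := j.2; omega)

end Pool.Agent.K9h12.SH
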