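import Pool.Agent.K9h12.AX.Two

/-!
The pointwise bounds for a block of linear forms in two functions.
-/

set_option autoImplicit false

open Filter Metric Set Topology Pool.Agent.W602.NC Pool.Agent.TH152.HY Pool.Agent.K9h12.AX

namespace Pool.Agent.K9h12.SH

variable {M : ℕ}

/-- the linear forms `u 0` and `u 1 - a k * u 0` -/
def ell {R : Type*} [CommRing R] [Algebra ℂ R] (a : Fin M → ℂ) (i : Fin (M + 1)) (u : Fin 2 → R) : R :=
  Fin.cases (u 0) (fun k => u 1 - algebraMap ℂ R (a k) * u 0) i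

@[simp] theorem ell_zero {R : Type*} [CommRing R] [Algebra ℂ R] (a : Fin M → ℂ) (u : Fin 2 → R) :
    ell a 0 u = u 0 := rfl

@[simp] theorem ell_succ {R : Type*} [CommRing R] [Algebra ℂ R] (a : Fin M → ℂ) (k : Fin M)
    (u : Fin 2 → R) : ell a k.succ u = u 1 - algebraMap ℂ R (a k) * u 0 := rfl

/-- all forms are combinations of two of them -/
theorem ell_comb {a : Fin M → ℂ} (ha : Function.Injective a) {i j : Fin (M + 1)} (hij : i ≠ j)
    (l : Fin (M + 1)) : ∃ α β : ℂ, ∀ u : Fin 2 → ℂ, ell a l u = α * ell a i u + β * ell a j u := by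
  have key : ∀ {i j : Fin (M + 1)}, i ≠ j → (∃ α β : ℂ, ∀ u : Fin 2 → ℂ,
      u 0 = α * ell a i u + β * ell a j u) ∧ ∃ α β : ℂ, ∀ u : Fin 2 → ℂ,
      u 1 = α * ell a i u + β * ell a j u := by
    intro i j hij
    refine Fin.cases (fun hij => ?_) (fun k => Fin.cases (fun hij => ?_) (fun m hij => ?_) j) i hij
    · obtain ⟨m, rfl⟩ := Fin.exists_succ_eq.2 hij.symm
      exact ⟨⟨1, 0, fun u => by simp⟩, ⟨a m, 1, fun u => by simp⟩⟩
    · exact ⟨⟨0, 1, fun u => by simp⟩, ⟨1, a k, fun u => by simp⟩⟩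
    · have h1 : a k ≠ a m := fun h => hij (by rw [ha h])
      have h2 : a m - a k ≠ 0 := sub_ne_zero.2 h1.symm
      refine ⟨⟨(a m - a k)⁻¹, -(a m - a k)⁻¹, fun u => ?_⟩,
        ⟨1 + a k * (a m - a k)⁻¹, -a k * (a m - a k)⁻¹, fun u => ?_⟩⟩
      · simp only [ell_succ, Algebra.algebraMap_self, RingHom.id_apply]
        field_simp
        ring
      · simp only [ell_succ, Algebra.algebraMap_self, RingHom.id_apply]
        field_simp
        ring
  obtain ⟨⟨α, β, h0⟩, ⟨α', β', h1⟩⟩ := key hij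
  refine Fin.cases ⟨α, β, fun u => h0 u⟩ (fun k => ⟨α' - a k * α, β' - a k * β, fun u => ?_⟩) l
  rw [ell_succ]
  conv_lhs => rw [h1 u, h0 u]
  simp only [Algebra.algebraMap_self, RingHom.id_apply]
  ring

/-- the Wronskian of two forms -/
theorem ell_wr {a : Fin M → ℂ} (ha : Function.Injective a) {i j : Fin (M + 1)} (hij : i ≠ j) :
    ∃ κ : ℂ, κ ≠ 0 ∧ ∀ u u' : Fin 2 → ℂ, ell a i u * ell a j u' - ell a j u * ell a i u' =
      κ * (u 0 * u' 1 - u 1 * u' 0) := by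
  refine Fin.cases (fun hij => ?_) (fun k => Fin.cases (fun hij => ?_) (fun m hij => ?_) j) i hij
  · obtain ⟨m, rfl⟩ := Fin.exists_succ_eq.2 hij.symm
    refine ⟨1, one_ne_zero, fun u u' => ?_⟩
    simp only [ell_succ, ell_zero, Algebra.algebraMap_self, RingHom.id_apply]
    ring
  · refine ⟨-1, by norm_num, fun u u' => ?_⟩
    simp only [ell_succ, ell_zero, Algebra.algebraMap_self, RingHom.id_apply]
    ring
  · have h1 : a k ≠ a m := fun h => hij (by rw [ha h])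
    refine ⟨a m - a k, sub_ne_zero.2 h1.symm, fun u u' => ?_⟩
    simp only [ell_succ, Algebra.algebraMap_self, RingHom.id_apply]
    ring

/-- the forms along a curve -/
def UU (a : Fin M → ℂ) (u : ℂ → Fin 2 → ℂ) (i : Fin (M + 1)) (z : ℂ) : ℂ := ell a i (u z)

/-- the Wronskian -/
noncomputable def wr (u : ℂ → Fin 2 → ℂ) (z : ℂ) : ℂ :=
  u z 0 * deriv (fun w => u w 1) z - u z 1 * deriv (fun w => u w 0) z

theorem UU_an {a : Fin M → ℂ} {u : ℂ → Fin 2 → ℂ} {z : ℂ} (hu : ∀ j, AnalyticAt ℂ (fun w => u w j) z)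
    (i : Fin (M + 1)) : AnalyticAt ℂ (UU a u i) z := by
  unfold UU
  refine Fin.cases ?_ (fun k => ?_) i
  · exact hu 0
  · exact (hu 1).fun_sub (analyticAt_const.fun_mul (hu 0))

theorem UU_deriv {a : Fin M → ℂ} {u : ℂ → Fin 2 → ℂ} {z : ℂ}
    (hu : ∀ j, AnalyticAt ℂ (fun w => u w j) z) (i : Fin (M + 1)) :
    deriv (UU a u i) z = ell a i fun j => deriv (fun w => u w j) z := by
  unfold UU
  refine Fin.cases ?_ (fun k => ?_) i
  · rfl
  · have h0 := (hu 0).differentiableAt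
    have h1 := (hu 1).differentiableAt
    simp only [ell_succ]
    rw [deriv_fun_sub h1 (h0.const_mul _), deriv_const_mul _ h0]

theorem wr_an {u : ℂ → Fin 2 → ℂ} {z : ℂ} (hu : ∀ j, AnalyticAt ℂ (fun w => u w j) z) :
    AnalyticAt ℂ (wr u) z :=
  ((hu 0).fun_mul (hu 1).deriv).fun_sub ((hu 1).fun_mul (hu 0).deriv)

/-- logarithmically bounded derivative -/
def LB (K : ℝ) (f : ℂ → ℂ) (z : ℂ) : Prop := AnalyticAt ℂ f z ∧ ‖deriv f z‖ ≤ K * ‖f z‖

theorem LB.mul {K K' : ℝ} {f g : ℂ → ℂ} {z : ℂ} (hf : LB K f z) (hg : LB K' g z) :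
    LB (K + K') (fun w => f w * g w) z := by
  refine ⟨hf.1.fun_mul hg.1, ?_⟩
  rw [deriv_fun_mul hf.1.differentiableAt hg.1.differentiableAt]
  calc ‖deriv f z * g z + f z * deriv g z‖ ≤ ‖deriv f z‖ * ‖g z‖ + ‖f z‖ * ‖deriv g z‖ := by
        rw [← norm_mul, ← norm_mul]; exact norm_add_le _ _
    _ ≤ (K * ‖f z‖) * ‖g z‖ + ‖f z‖ * (K' * ‖g z‖) :=
        add_le_add (mul_le_mul_of_nonneg_right hf.2 (norm_nonneg _))
          (mul_le_mul_of_nonneg_left hg.2 (norm_nonneg _))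
    _ = (K + K') * ‖f z * g z‖ := by rw [norm_mul]; ring

theorem LB.one (z : ℂ) : LB 0 (fun _ => 1) z := ⟨analyticAt_const, by simp⟩

theorem LB.pow {K : ℝ} {f : ℂ → ℂ} {z : ℂ} (hf : LB K f z) (n : ℕ) :
    LB (n * K) (fun w => f w ^ n) z := by
  induction n with
  | zero => simpa using LB.one z
  | succ n ih =>
    have := ih.mul hf
    simp only [← pow_succ] at this
    refine ⟨this.1, this.2.trans (le_of_eq ?_)⟩
    push_cast
    ring

theorem LB.prod {ι : Type} (s : Finset ι) {K : ℝ} {f : ι → ℂ → ℂ} {z : ℂ}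
    (hf : ∀ i ∈ s, LB K (f i) z) (n : ι → ℕ) :
    LB ((∑ i ∈ s, n i : ℕ) * K) (fun w => ∏ i ∈ s, f i w ^ n i) z := by
  classical
  induction s using Finset.induction_on with
  | empty => simpa using LB.one z
  | insert a s ha ih =>
    have h1 := ((hf a (Finset.mem_insert_self a s)).pow (n a)).mul
      (ih fun i hi => hf i (Finset.mem_insert_of_mem hi))
    simp only [Finset.prod_insert ha, Finset.sum_insert ha]
    refine ⟨h1.1, h1.2.trans (le_of_eq ?_)⟩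
    push_cast
    ring

/-- the data of a block at a point -/
structure Norml (a : Fin M → ℂ) (μ ν c : Fin (M + 1) → ℕ) (C K : ℝ) (u : ℂ → Fin 2 → ℂ) (z : ℂ)
    (lam A w ω : ℂ → ℂ) : Prop where
  lam_an : AnalyticAt ℂ lam z
  A_an : AnalyticAt ℂ A z
  w_an : AnalyticAt ℂ w z
  lam_sup : ‖lam z‖ = sup (UU a u) z
  lam_ne : lam z ≠ 0
  eqA : (fun w => ∏ i, UU a u i w ^ μ i) =ᶠ[𝓝 z] fun t => lam t ^ (∑ i, μ i) * A t
  eqw : (fun w => (∏ i, UU a u i w ^ ν i) * wr u w) =ᶠ[𝓝 z]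
    fun t => lam t ^ (∑ i, ν i + 2) * w t
  eqω : wr u z = lam z ^ 2 * ω z
  bd : ∃ T δ : ℝ, 0 ≤ T ∧ 0 ≤ δ ∧ ‖deriv A z‖ ≤ C * K * ‖A z‖ ∧ ‖w z‖ ≤ C * K * (T * δ) ∧
    ‖deriv w z‖ ≤ C * K ^ 2 * (T * δ) ∧ ‖ω z‖ ≤ C * K * δ ∧
    ‖A z‖ ^ 2 * T ^ 2 * δ ^ 5 * ‖lam z‖ ^ (∑ i, c i) ≤ C * ∏ i, ‖UU a u i z‖ ^ c i

theorem block (hM : 0 < M) {a : Fin M → ℂ} (ha : Function.Injective a)
    (μ ν c : Fin (M + 1) → ℕ) (hc : ∀ i, (μ i = 1 ∧ c i ≤ 3) ∨ (μ i = 0 ∧ c i ≤ 2 * ν i)) :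
    ∃ C : ℝ, 1 ≤ C ∧ ∀ (u : ℂ → Fin 2 → ℂ) (z : ℂ) (ε B : ℝ), 0 < ε → ε ≤ 1 → 1 ≤ B →
      (∀ w ∈ closedBall z ε, ∀ j, AnalyticAt ℂ (fun w => u w j) w) → Calm (UU a u) z ε B →
      ∃ lam A w ω : ℂ → ℂ, Norml a μ ν c C (B / ε) u z lam A w ω := by
  classical
  -- the constants
  choose α β hαβ using fun (i j l : Fin (M + 1)) (hij : i ≠ j) => ell_comb ha hij l
  choose κ hκ0 hκ using fun (i j : Fin (M + 1)) (hij : i ≠ j) => ell_wr ha hij
  obtain ⟨C0, hC0, hsep⟩ : ∃ C0 : ℝ, 1 ≤ C0 ∧ ∀ i j l : Fin (M + 1), i ≠ j → ∀ u : Fin 2 → ℂ,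
      ‖ell a l u‖ ≤ C0 * (‖ell a i u‖ + ‖ell a j u‖) := by
    refine ⟨1 + ∑ i, ∑ j, ∑ l, (if h : i ≠ j then ‖α i j l h‖ + ‖β i j l h‖ else 0), ?_, ?_⟩
    · refine le_add_of_nonneg_right (Finset.sum_nonneg fun i _ => Finset.sum_nonneg fun j _ =>
        Finset.sum_nonneg fun l _ => ?_)
      split_ifs <;> positivity
    · intro i j l hij u
      have h1 : ‖α i j l hij‖ + ‖β i j l hij‖ ≤ 1 + ∑ i, ∑ j, ∑ l,
          (if h : i ≠ j then ‖α i j l h‖ + ‖β i j l h‖ else 0) := by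
        have hnn : ∀ i j l, 0 ≤ (if h : i ≠ j then ‖α i j l h‖ + ‖β i j l h‖ else 0) := by
          intro i j l
          split_ifs <;> positivity
        have h2 : (if h : i ≠ j then ‖α i j l h‖ + ‖β i j l h‖ else 0) ≤ ∑ i, ∑ j, ∑ l,
            (if h : i ≠ j then ‖α i j l h‖ + ‖β i j l h‖ else 0) := by
          refine le_trans ?_ (Finset.single_le_sum (f := fun i => ∑ j, ∑ l,
            (if h : i ≠ j then ‖α i j l h‖ + ‖β i j l h‖ else 0))
            (fun i _ => Finset.sum_nonneg fun j _ => Finset.sum_nonneg fun l _ => hnn i j l)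
            (Finset.mem_univ i))
          refine le_trans ?_ (Finset.single_le_sum (f := fun j => ∑ l,
            (if h : i ≠ j then ‖α i j l h‖ + ‖β i j l h‖ else 0))
            (fun j _ => Finset.sum_nonneg fun l _ => hnn i j l) (Finset.mem_univ j))
          exact Finset.single_le_sum (f := fun l =>
            (if h : i ≠ j then ‖α i j l h‖ + ‖β i j l h‖ else 0))
            (fun l _ => hnn i j l) (Finset.mem_univ l)
        rw [dif_pos hij] at h2
        linarith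
      rw [hαβ i j l hij u]
      calc ‖α i j l hij * ell a i u + β i j l hij * ell a j u‖
          ≤ ‖α i j l hij‖ * ‖ell a i u‖ + ‖β i j l hij‖ * ‖ell a j u‖ := by
            rw [← norm_mul, ← norm_mul]; exact norm_add_le _ _
        _ ≤ (‖α i j l hij‖ + ‖β i j l hij‖) * ‖ell a i u‖ +
            (‖α i j l hij‖ + ‖β i j l hij‖) * ‖ell a j u‖ :=
            add_le_add (mul_le_mul_of_nonneg_right (le_add_of_nonneg_right (norm_nonneg _))
              (norm_nonneg _)) (mul_le_mul_of_nonneg_right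
              (le_add_of_nonneg_left (norm_nonneg _)) (norm_nonneg _))
        _ = (‖α i j l hij‖ + ‖β i j l hij‖) * (‖ell a i u‖ + ‖ell a j u‖) := by ring
        _ ≤ _ := mul_le_mul_of_nonneg_right h1 (by positivity)
  obtain ⟨C1, hC1, hk⟩ : ∃ C1 : ℝ, 1 ≤ C1 ∧ ∀ i j (hij : i ≠ j), ‖(κ i j hij)⁻¹‖ ≤ C1 := by
    refine ⟨1 + ∑ i, ∑ j, (if h : i ≠ j then ‖(κ i j h)⁻¹‖ else 0), ?_, ?_⟩
    · refine le_add_of_nonneg_right (Finset.sum_nonneg fun i _ => Finset.sum_nonneg fun j _ => ?_)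
      split_ifs <;> positivity
    · intro i j hij
      have hnn : ∀ i j, 0 ≤ (if h : i ≠ j then ‖(κ i j h)⁻¹‖ else 0) := by
        intro i j
        split_ifs <;> positivity
      have h2 : (if h : i ≠ j then ‖(κ i j h)⁻¹‖ else 0) ≤ ∑ i, ∑ j,
          (if h : i ≠ j then ‖(κ i j h)⁻¹‖ else 0) := by
        refine le_trans ?_ (Finset.single_le_sum (f := fun i => ∑ j,
          (if h : i ≠ j then ‖(κ i j h)⁻¹‖ else 0))
          (fun i _ => Finset.sum_nonneg fun j _ => hnn i j) (Finset.mem_univ i))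
        exact Finset.single_le_sum (f := fun j =>
          (if h : i ≠ j then ‖(κ i j h)⁻¹‖ else 0)) (fun j _ => hnn i j) (Finset.mem_univ j)
      rw [dif_pos hij] at h2
      linarith
  refine ⟨max ((∑ i, μ i : ℕ) : ℝ) (((∑ i, ν i : ℕ) : ℝ) * C1 + 2 * C1) ⊔ ((2 * C0) ^ (M + 1)),
    ?_, ?_⟩
  · refine le_max_of_le_right ?_
    exact one_le_pow₀ (by linarith)
  set C : ℝ := max ((∑ i, μ i : ℕ) : ℝ) (((∑ i, ν i : ℕ) : ℝ) * C1 + 2 * C1) ⊔
    ((2 * C0) ^ (M + 1)) with hC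
  have hCa : ((∑ i, μ i : ℕ) : ℝ) ≤ C := (le_max_left _ _).trans (le_max_left _ _)
  have hCb : ((∑ i, ν i : ℕ) : ℝ) * C1 + 2 * C1 ≤ C := (le_max_right _ _).trans (le_max_left _ _)
  have hCc : (2 * C0) ^ (M + 1) ≤ C := le_max_right _ _
  have hC1C : C1 ≤ C := by
    refine le_trans ?_ hCb
    have : 0 ≤ ((∑ i, ν i : ℕ) : ℝ) * C1 := by positivity
    linarith
  intro u z ε B hε hε1 hB hu hcalm
  have hzb : z ∈ closedBall z ε := mem_closedBall_self hε.le
  have hBε : 1 ≤ B / ε := by rw [le_div_iff₀ hε]; linarith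
  obtain ⟨i0, hi0⟩ := sup_attained (UU a u) z
  -- the normalised forms
  let V : Fin (M + 1) → ℂ → ℂ := fun i w => UU a u i w / UU a u i0 w
  have hne : ∀ i, ∀ w ∈ closedBall z ε, UU a u i w ≠ 0 := hcalm.1
  have hVan : ∀ i, ∀ w ∈ closedBall z ε, AnalyticAt ℂ (V i) w := fun i w hw =>
    (UU_an (hu w hw) i).fun_div (UU_an (hu w hw) i0) (hne i0 w hw)
  have hVle : ∀ i, ‖V i z‖ ≤ 1 := by
    intro i
    simp only [V, norm_div]
    rw [div_le_one (norm_pos_iff.2 (hne i0 z hzb)), ← hi0]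
    exact le_sup _ _ _
  have hVdc : ∀ i, DiffContOnCl ℂ (V i) (ball z ε) := by
    intro i
    refine DifferentiableOn.diffContOnCl fun w hw => ?_
    rw [closure_ball z hε.ne'] at hw
    exact (hVan i w hw).differentiableAt.differentiableWithinAt
  have hVb : ∀ i, ∀ w ∈ sphere z ε, ‖V i w‖ ≤ B * ‖V i z‖ := fun i w hw =>
    hcalm.2 i0 i w (sphere_subset_closedBall hw)
  have hd1 : ∀ i, ‖deriv (V i) z‖ ≤ B / ε * ‖V i z‖ := by
    intro i
    have := Complex.norm_deriv_le_of_forall_mem_sphere_norm_le hε (hVdc i) (hVb i)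
    refine this.trans (le_of_eq ?_)
    ring
  have hd2 : ∀ i, ‖deriv (deriv (V i)) z‖ ≤ 2 * (B / ε) ^ 2 * ‖V i z‖ := by
    intro i
    have := Complex.norm_iteratedDeriv_le_of_forall_mem_sphere_norm_le 2 hε (hVdc i) (hVb i)
    rw [iteratedDeriv_succ, iteratedDeriv_one] at this
    refine this.trans ?_
    have h1 : ((2 : ℕ).factorial : ℝ) = 2 := by norm_num [Nat.factorial]
    rw [h1]
    have h2 : 2 * (B * ‖V i z‖) / ε ^ 2 = 2 * (B / ε ^ 2) * ‖V i z‖ := by ring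
    rw [h2]
    refine mul_le_mul_of_nonneg_right ?_ (norm_nonneg _)
    refine mul_le_mul_of_nonneg_left ?_ (by norm_num)
    rw [div_pow]
    refine div_le_div_of_nonneg_right ?_ (by positivity)
    nlinarith
  have hLB : ∀ i, LB (B / ε) (V i) z := fun i => ⟨hVan i z hzb, hd1 i⟩
  -- the smallest form
  obtain ⟨j0, hj0, hmin⟩ := Finset.exists_min_image (Finset.univ.filter fun j => j ≠ i0)
    (fun j => ‖V j z‖) (by
      obtain ⟨j, hj⟩ : ∃ j : Fin (M + 1), j ≠ i0 := by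
        by_cases h : i0 = 0
        · refine ⟨Fin.last M, ?_⟩
          rw [h]
          intro h'
          have h'' := congrArg Fin.val h'
          simp at h''
          omega
        · exact ⟨0, fun h' => h h'.symm⟩
      exact ⟨j, Finset.mem_filter.2 ⟨Finset.mem_univ _, hj⟩⟩)
  have hj0' : j0 ≠ i0 := (Finset.mem_filter.1 hj0).2
  set δ : ℝ := ‖V j0 z‖ with hδ
  have hδ0 : 0 ≤ δ := norm_nonneg _
  have hδ1 : δ ≤ 1 := hVle j0
  let ω : ℂ → ℂ := fun w => (κ i0 j0 hj0'.symm)⁻¹ * deriv (V j0) w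
  -- the Wronskian
  have hwr : ∀ w ∈ closedBall z ε, wr u w = UU a u i0 w ^ 2 * ω w := by
    intro w hw
    have h0 := hne i0 w hw
    have h1 : deriv (V j0) w = (deriv (UU a u j0) w * UU a u i0 w -
        UU a u j0 w * deriv (UU a u i0) w) / UU a u i0 w ^ 2 :=
      deriv_fun_div (UU_an (hu w hw) j0).differentiableAt (UU_an (hu w hw) i0).differentiableAt h0
    rw [UU_deriv (hu w hw), UU_deriv (hu w hw)] at h1
    have h2 := hκ i0 j0 hj0'.symm (u w) fun j => deriv (fun w => u w j) w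
    have h3 : ell a j0 (fun j => deriv (fun w => u w j) w) * UU a u i0 w -
        UU a u j0 w * ell a i0 (fun j => deriv (fun w => u w j) w) =
        κ i0 j0 hj0'.symm * wr u w := by
      unfold wr UU
      rw [← h2]
      ring
    rw [h3] at h1
    simp only [ω]
    rw [h1]
    have h4 := hκ0 i0 j0 hj0'.symm
    field_simp
  have hωan : AnalyticAt ℂ ω z := analyticAt_const.fun_mul (hVan j0 z hzb).deriv
  have hω1 : ‖ω z‖ ≤ C1 * (B / ε) * δ := by
    simp only [ω, norm_mul]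
    calc ‖(κ i0 j0 hj0'.symm)⁻¹‖ * ‖deriv (V j0) z‖ ≤ C1 * (B / ε * δ) :=
          mul_le_mul (hk _ _ _) (hd1 j0) (norm_nonneg _) (by linarith)
      _ = _ := by ring
  have hω2 : ‖deriv ω z‖ ≤ 2 * C1 * (B / ε) ^ 2 * δ := by
    have h1 : deriv ω z = (κ i0 j0 hj0'.symm)⁻¹ * deriv (deriv (V j0)) z :=
      deriv_const_mul _ (hVan j0 z hzb).deriv.differentiableAt
    rw [h1, norm_mul]
    calc ‖(κ i0 j0 hj0'.symm)⁻¹‖ * ‖deriv (deriv (V j0)) z‖ ≤ C1 * (2 * (B / ε) ^ 2 * δ) :=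
          mul_le_mul (hk _ _ _) (hd2 j0) (norm_nonneg _) (by linarith)
      _ = _ := by ring
  let A : ℂ → ℂ := fun w => ∏ i, V i w ^ μ i
  let T : ℂ → ℂ := fun w => ∏ i, V i w ^ ν i
  have hA : LB ((∑ i, μ i : ℕ) * (B / ε)) A z := LB.prod Finset.univ (fun i _ => hLB i) μ
  have hT : LB ((∑ i, ν i : ℕ) * (B / ε)) T z := LB.prod Finset.univ (fun i _ => hLB i) ν
  have hpr : ∀ (n : Fin (M + 1) → ℕ) (w : ℂ), w ∈ closedBall z ε →
      ∏ i, UU a u i w ^ n i = UU a u i0 w ^ (∑ i, n i) * ∏ i, V i w ^ n i := by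
    intro n w hw
    have h0 := hne i0 w hw
    rw [← Finset.prod_pow_eq_pow_sum, ← Finset.prod_mul_distrib]
    refine Finset.prod_congr rfl fun i _ => ?_
    rw [← mul_pow]
    congr 1
    simp only [V]
    field_simp
  have hnear : ∀ᶠ w in 𝓝 z, w ∈ closedBall z ε := closedBall_mem_nhds z hε
  refine ⟨UU a u i0, A, fun w => T w * ω w, ω, ⟨UU_an (hu z hzb) i0, hA.1, hT.1.fun_mul hωan,
    hi0.symm, hne i0 z hzb, ?_, ?_, hwr z hzb, ‖T z‖, δ, norm_nonneg _, hδ0, ?_, ?_, ?_, ?_, ?_⟩⟩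
  · filter_upwards [hnear] with w hw using hpr μ w hw
  · filter_upwards [hnear] with w hw
    rw [hpr ν w hw, hwr w hw]
    simp only [T]
    ring
  · refine hA.2.trans (mul_le_mul_of_nonneg_right (mul_le_mul_of_nonneg_right hCa
      (by positivity)) (norm_nonneg _))
  · simp only [norm_mul]
    calc ‖T z‖ * ‖ω z‖ ≤ ‖T z‖ * (C1 * (B / ε) * δ) :=
          mul_le_mul_of_nonneg_left hω1 (norm_nonneg _)
      _ = C1 * ((B / ε) * (‖T z‖ * δ)) := by ring
      _ ≤ C * ((B / ε) * (‖T z‖ * δ)) := mul_le_mul_of_nonneg_right hC1C (by positivity)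
      _ = _ := by ring
  · rw [deriv_fun_mul hT.1.differentiableAt hωan.differentiableAt]
    calc ‖deriv T z * ω z + T z * deriv ω z‖ ≤ ‖deriv T z‖ * ‖ω z‖ + ‖T z‖ * ‖deriv ω z‖ := by
          rw [← norm_mul, ← norm_mul]; exact norm_add_le _ _
      _ ≤ ((∑ i, ν i : ℕ) * (B / ε) * ‖T z‖) * (C1 * (B / ε) * δ) +
          ‖T z‖ * (2 * C1 * (B / ε) ^ 2 * δ) :=
          add_le_add (mul_le_mul hT.2 hω1 (norm_nonneg _) (by positivity))
            (mul_le_mul_of_nonneg_left hω2 (norm_nonneg _))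
      _ = (((∑ i, ν i : ℕ) : ℝ) * C1 + 2 * C1) * ((B / ε) ^ 2 * (‖T z‖ * δ)) := by ring
      _ ≤ C * ((B / ε) ^ 2 * (‖T z‖ * δ)) := mul_le_mul_of_nonneg_right hCb (by positivity)
      _ = _ := by ring
  · exact hω1.trans (mul_le_mul_of_nonneg_right (mul_le_mul_of_nonneg_right hC1C
      (by positivity)) hδ0)
  · -- the weights
    have hc' : ∏ i, ‖UU a u i z‖ ^ c i = ‖UU a u i0 z‖ ^ (∑ i, c i) * ∏ i, ‖V i z‖ ^ c i := by
      have := congrArg norm (hpr c z hzb)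
      simpa only [norm_prod, norm_pow, norm_mul] using this
    rw [hc']
    have hlow : ∀ i, i ≠ j0 → (2 * C0)⁻¹ ≤ ‖V i z‖ := by
      intro i hij
      have h1 := hsep i j0 i0 hij (u z)
      have h0 := hne i0 z hzb
      have h2 : 1 ≤ C0 * (‖V i z‖ + δ) := by
        have h3 : 0 < ‖UU a u i0 z‖ := norm_pos_iff.2 h0
        have h4 : C0 * (‖V i z‖ + δ) = C0 * (‖UU a u i z‖ + ‖UU a u j0 z‖) / ‖UU a u i0 z‖ := by
          simp only [hδ, V, norm_div]
          field_simp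
        rw [h4, le_div_iff₀ h3, one_mul]
        exact h1
      have h3 : δ ≤ ‖V i z‖ := by
        by_cases hi : i = i0
        · rw [hi]
          have h4 : ‖V i0 z‖ = 1 := by
            simp only [V]
            rw [div_self h0, norm_one]
          rw [h4]
          exact hδ1
        · exact hmin i (Finset.mem_filter.2 ⟨Finset.mem_univ _, hi⟩)
      rw [inv_le_iff_one_le_mul₀ (by positivity)]
      nlinarith
    have hk1 : δ * ((2 * C0)⁻¹) ^ (M + 1) ≤ ∏ i, ‖V i z‖ ^ μ i := by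
      have hinv : (2 * C0)⁻¹ ≤ 1 := inv_le_one_of_one_le₀ (by linarith)
      have hinv0 : 0 ≤ (2 * C0)⁻¹ := by positivity
      have h1 : ∏ i : Fin (M + 1), (if i = j0 then δ * (2 * C0)⁻¹ else (2 * C0)⁻¹) ≤
          ∏ i, ‖V i z‖ ^ μ i := by
        refine Finset.prod_le_prod (fun i _ => ?_) fun i _ => ?_
        · split_ifs <;> positivity
        · split_ifs with h
          · rw [h]
            have h2 : δ * (2 * C0)⁻¹ ≤ δ := mul_le_of_le_one_right hδ0 hinv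
            rcases hc j0 with ⟨h3, -⟩ | ⟨h3, -⟩
            · rw [h3, pow_one]; exact h2
            · rw [h3, pow_zero]; exact h2.trans hδ1
          · rcases hc i with ⟨h3, -⟩ | ⟨h3, -⟩
            · rw [h3, pow_one]; exact hlow i h
            · rw [h3, pow_zero]; exact hinv
      refine le_trans (le_of_eq ?_) h1
      have h2 : ∀ i : Fin (M + 1), (if i = j0 then δ * (2 * C0)⁻¹ else (2 * C0)⁻¹) =
          (if i = j0 then δ else 1) * (2 * C0)⁻¹ := by
        intro i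
        split_ifs <;> ring
      simp only [h2]
      rw [Finset.prod_mul_distrib, Finset.prod_ite_eq' Finset.univ j0 (fun _ => δ),
        if_pos (Finset.mem_univ _), Finset.prod_const, Finset.card_univ, Fintype.card_fin]
    have hk2 : δ ≤ C * ∏ i, ‖V i z‖ ^ μ i := by
      have h1 : δ = (2 * C0) ^ (M + 1) * (δ * ((2 * C0)⁻¹) ^ (M + 1)) := by
        rw [inv_pow]
        field_simp
      rw [h1]
      exact mul_le_mul hCc hk1 (by positivity) (by positivity)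
    have hk3 : (∏ i, ‖V i z‖ ^ μ i) ^ 3 * (∏ i, ‖V i z‖ ^ ν i) ^ 2 ≤ ∏ i, ‖V i z‖ ^ c i := by
      rw [← Finset.prod_pow, ← Finset.prod_pow, ← Finset.prod_mul_distrib]
      refine Finset.prod_le_prod (fun i _ => by positivity) fun i _ => ?_
      rw [← pow_mul, ← pow_mul, ← pow_add]
      refine pow_le_pow_of_le_one (norm_nonneg _) (hVle i) ?_
      rcases hc i with ⟨h3, h4⟩ | ⟨h3, h4⟩
      · rw [h3]; omega
      · rw [h3]; omega
    have eA : ‖A z‖ = ∏ i, ‖V i z‖ ^ μ i := by simp only [A, norm_prod, norm_pow]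
    have eT : ‖T z‖ = ∏ i, ‖V i z‖ ^ ν i := by simp only [T, norm_prod, norm_pow]
    rw [eA, eT]
    set pa := ∏ i, ‖V i z‖ ^ μ i with hpa
    set pt := ∏ i, ‖V i z‖ ^ ν i with hpt
    have hpa0 : 0 ≤ pa := Finset.prod_nonneg fun i _ => by positivity
    have hpt0 : 0 ≤ pt := Finset.prod_nonneg fun i _ => by positivity
    have h5 : δ ^ 5 ≤ C * pa := by
      refine le_trans ?_ hk2
      calc δ ^ 5 ≤ δ ^ 1 := pow_le_pow_of_le_one hδ0 hδ1 (by norm_num)
        _ = δ := pow_one δ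
    calc pa ^ 2 * pt ^ 2 * δ ^ 5 * ‖UU a u i0 z‖ ^ (∑ i, c i)
        ≤ pa ^ 2 * pt ^ 2 * (C * pa) * ‖UU a u i0 z‖ ^ (∑ i, c i) := by gcongr
      _ = C * (‖UU a u i0 z‖ ^ (∑ i, c i) * (pa ^ 3 * pt ^ 2)) := by ring
      _ ≤ C * (‖UU a u i0 z‖ ^ (∑ i, c i) * ∏ i, ‖V i z‖ ^ c i) := by gcongr

end Pool.Agent.K9h12.SH
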