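import Pool.Agent.K9h12.SH.Loc2
import Pool.Agent.K9h12.SH.Blk

/-!
The jet differential in homogeneous coordinates: algebraic identities.
-/

set_option autoImplicit false

open FF Polynomial Pool.Agent.W603.LV Pool.Agent.W602.GT

namespace Pool.Agent.K9h12.SH

/-- enumeration of a finite set of points -/
theorem exists_enum (S : Finset ℂ) (hS : S.Nonempty) : ∃ (M : ℕ) (a : Fin M → ℂ), 0 < M ∧
    Function.Injective a ∧ (∀ {R : Type} [CommMonoid R] (f : ℂ → R), ∏ i, f (a i) = ∏ e ∈ S, f e) ∧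
    ∀ (f : ℂ → ℕ), ∑ i, f (a i) = ∑ e ∈ S, f e := by
  refine ⟨S.card, fun i => (S.equivFin.symm i : ℂ), Finset.card_pos.2 hS,
    fun i j h => S.equivFin.symm.injective (Subtype.ext h), fun f => ?_, fun f => ?_⟩
  · rw [← Finset.prod_coe_sort S f]
    exact Equiv.prod_comp S.equivFin.symm fun e : S => f e
  · rw [← Finset.sum_coe_sort S f]
    exact Equiv.sum_comp S.equivFin.symm fun e : S => f e

variable {L : Type} [Field L] [Algebra ℂ L]

/-- factorisation -/
theorem factor {S : Finset ℂ} {Q : ℂ[X]} (hQ : Q ≠ 0) (hS : ∀ c, Q.IsRoot c → c ∈ S) (x : L) :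
    aeval x Q = algebraMap ℂ L Q.leadingCoeff *
      ∏ e ∈ S, (x - algebraMap ℂ L e) ^ Q.rootMultiplicity e := by
  classical
  have hcard : Q.roots.card = Q.natDegree := (IsAlgClosed.splits Q).natDegree_eq_card_roots.symm
  have h1 := C_leadingCoeff_mul_prod_multiset_X_sub_C hcard
  rw [prod_multiset_root_eq_finset_root] at h1
  have h2 : ∏ e ∈ Q.roots.toFinset, (X - C e) ^ Q.rootMultiplicity e =
      ∏ e ∈ S, (X - C e) ^ Q.rootMultiplicity e := by
    refine Finset.prod_subset (fun e he => hS e ?_) fun e _ he => ?_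
    · exact isRoot_of_mem_roots (Multiset.mem_toFinset.1 he)
    · have h3 : Q.rootMultiplicity e = 0 := by
        by_contra h3
        apply he
        rw [Multiset.mem_toFinset, mem_roots hQ]
        exact (rootMultiplicity_pos hQ).1 (Nat.pos_of_ne_zero h3)
      rw [h3, pow_zero]
  rw [h2] at h1
  conv_lhs => rw [← h1]
  rw [map_mul, aeval_C, map_prod]
  congr 1
  refine Finset.prod_congr rfl fun e _ => ?_
  rw [map_pow, map_sub, aeval_X, aeval_C]

theorem degree_sum {S : Finset ℂ} {Q : ℂ[X]} (hQ : Q ≠ 0) (hS : ∀ c, Q.IsRoot c → c ∈ S) :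
    ∑ e ∈ S, Q.rootMultiplicity e = Q.natDegree := by
  classical
  rw [(IsAlgClosed.splits Q).natDegree_eq_card_roots, ← Multiset.toFinset_sum_count_eq]
  symm
  simp only [count_roots]
  refine Finset.sum_subset (fun e he => hS e ?_) fun e _ he => ?_
  · exact isRoot_of_mem_roots (Multiset.mem_toFinset.1 he)
  · by_contra h3
    apply he
    rw [Multiset.mem_toFinset, mem_roots hQ]
    exact (rootMultiplicity_pos hQ).1 (Nat.pos_of_ne_zero h3)

/-- the Wronskian expression -/
def Va (D : Derivation ℂ L L) (A w B v : L) : L :=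
  A * B * (w * D v - D w * v) + 2 * (w * v) * (B * D A - A * D B)

theorem der_pow_mul (D : Derivation ℂ L L) {l : L} (hl : l ≠ 0) (n : ℕ) (f : L) :
    D (l ^ n * f) = l ^ n * (D f + n * (D l / l) * f) := by
  rw [D.leibniz, D.leibniz_pow]
  cases n with
  | zero => simp
  | succ n =>
    simp only [Nat.add_sub_cancel, smul_eq_mul, nsmul_eq_mul]
    field_simp
    ring

theorem Va_scale (D : Derivation ℂ L L) {l m : L} (hl : l ≠ 0) (hm : m ≠ 0) (p q : ℕ)
    (A w B v : L) : Va D (l ^ p * A) (l ^ (2 * p) * w) (m ^ q * B) (m ^ (2 * q) * v) =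
      l ^ (3 * p) * m ^ (3 * q) * Va D A w B v := by
  unfold Va
  rw [der_pow_mul D hl, der_pow_mul D hl, der_pow_mul D hm, der_pow_mul D hm]
  have e1 : l ^ (2 * p) = (l ^ p) ^ 2 := by rw [← pow_mul, mul_comm]
  have e2 : l ^ (3 * p) = (l ^ p) ^ 3 := by rw [← pow_mul, mul_comm]
  have e3 : m ^ (2 * q) = (m ^ q) ^ 2 := by rw [← pow_mul, mul_comm]
  have e4 : m ^ (3 * q) = (m ^ q) ^ 3 := by rw [← pow_mul, mul_comm]
  rw [e1, e2, e3, e4]
  push_cast
  ring

theorem Va_const (D : Derivation ℂ L L) (c1 c2 c3 c4 : ℂ) (A w B v : L) :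
    Va D (algebraMap ℂ L c1 * A) (algebraMap ℂ L c2 * w) (algebraMap ℂ L c3 * B)
      (algebraMap ℂ L c4 * v) = algebraMap ℂ L (c1 * c2 * c3 * c4) * Va D A w B v := by
  unfold Va
  simp only [D.leibniz, D.map_algebraMap, add_zero, smul_eq_mul, map_mul, mul_zero]
  ring

theorem Va_W (D : Derivation ℂ L L) {a b : L} (ha : a ≠ 0) (hb : b ≠ 0) :
    Va D a (D a) b (D b) = (a * b) ^ 3 * W D a⁻¹ b⁻¹ := by
  have h1 : ∀ {c : L}, c ≠ 0 → D c⁻¹ = -(D c / c ^ 2) := by
    intro c hc
    rw [D.leibniz_inv]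
    simp only [smul_eq_mul]
    field_simp
  have h2 : ∀ {c : L}, c ≠ 0 → D (D c⁻¹) = -(D (D c) / c ^ 2) + 2 * D c ^ 2 / c ^ 3 := by
    intro c hc
    rw [h1 hc, map_neg, div_eq_mul_inv, D.leibniz, D.leibniz_inv, D.leibniz_pow]
    simp only [smul_eq_mul, nsmul_eq_mul, Nat.add_one_sub_one, pow_one]
    push_cast
    field_simp
    ring
  unfold Va W
  rw [h2 ha, h2 hb, h1 ha, h1 hb]
  field_simp
  ring

/-- the exponents of the polynomial -/
noncomputable def mu {M : ℕ} (A : ℂ[X]) (a : Fin M → ℂ) : Fin (M + 1) → ℕ :=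
  Fin.cons 0 fun i => A.rootMultiplicity (a i)

/-- the exponents of the derivative -/
noncomputable def nu {M : ℕ} (A : ℂ[X]) (a : Fin M → ℂ) : Fin (M + 1) → ℕ :=
  Fin.cons (A.natDegree - 1) fun i => A.derivative.rootMultiplicity (a i)

/-- the weights -/
noncomputable def cw {M : ℕ} (A : ℂ[X]) (a : Fin M → ℂ) : Fin (M + 1) → ℕ :=
  Fin.cons (2 * A.natDegree - 5) fun i => 3 * A.rootMultiplicity (a i) +
    2 * (A.derivative.rootMultiplicity (a i) - 1)

/-- a good enumeration of the roots of `A` and of its derivative -/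
structure Enum {M : ℕ} (A : ℂ[X]) (a : Fin M → ℂ) : Prop where
  pos : 0 < M
  inj : Function.Injective a
  hmu : ∑ i, mu A a i = A.natDegree
  hnu : ∑ i, nu A a i + 2 = 2 * A.natDegree
  hcw : ∑ i, cw A a i + 2 * kk A + 7 = 7 * A.natDegree
  hc : ∀ i, (mu A a i = 1 ∧ cw A a i ≤ 3) ∨ (mu A a i = 0 ∧ cw A a i ≤ 2 * nu A a i)
  prA : ∀ {L : Type} [Field L] [Algebra ℂ L] (x : L), aeval x A =
    algebraMap ℂ L A.leadingCoeff * ∏ i, (x - algebraMap ℂ L (a i)) ^ A.rootMultiplicity (a i)
  prA' : ∀ {L : Type} [Field L] [Algebra ℂ L] (x : L), aeval x A.derivative =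
    algebraMap ℂ L A.derivative.leadingCoeff *
      ∏ i, (x - algebraMap ℂ L (a i)) ^ A.derivative.rootMultiplicity (a i)
  prR : ∀ {L : Type} [Field L] [Algebra ℂ L] (x : L), aeval x (RR A) =
    algebraMap ℂ L (RR A).leadingCoeff *
      ∏ i, (x - algebraMap ℂ L (a i)) ^ (2 * (A.derivative.rootMultiplicity (a i) - 1))

theorem sep_der {A : ℂ[X]} (hA : A.Separable) {c : ℂ} (h : A.IsRoot c) :
    A.derivative.rootMultiplicity c = 0 := by
  rw [rootMultiplicity_eq_zero_iff]
  intro h1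
  exact absurd h1 (hA.eval₂_derivative_ne_zero (RingHom.id ℂ) (by
    rw [eval₂_id]; exact h) ∘ fun h => by rw [eval₂_id]; exact h)

theorem exists_Enum {A : ℂ[X]} (hA : A.Separable) (hp : 3 ≤ A.natDegree) :
    ∃ (M : ℕ) (a : Fin M → ℂ), Enum A a := by
  classical
  have hA0 : A ≠ 0 := by
    rintro rfl
    simp at hp
  have hA1 : A.derivative ≠ 0 := by
    intro h0
    have h1 := derivative_eq_zero.1 h0
    omega
  have hAA : A * A.derivative ≠ 0 := mul_ne_zero hA0 hA1
  obtain ⟨M, a, hM, ha, hpr, hsm⟩ := exists_enum (A * A.derivative).roots.toFinset (by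
    obtain ⟨c, hc⟩ := IsAlgClosed.exists_root A (by
      rw [degree_eq_natDegree hA0]
      exact_mod_cast (by omega : A.natDegree ≠ 0))
    refine ⟨c, ?_⟩
    rw [Multiset.mem_toFinset, mem_roots hAA]
    exact root_mul_right_of_isRoot _ hc)
  have hS : ∀ c, A.IsRoot c → c ∈ (A * A.derivative).roots.toFinset := fun c hc => by
    rw [Multiset.mem_toFinset, mem_roots hAA]
    exact root_mul_right_of_isRoot _ hc
  have hS' : ∀ c, A.derivative.IsRoot c → c ∈ (A * A.derivative).roots.toFinset := fun c hc => by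
    rw [Multiset.mem_toFinset, mem_roots hAA]
    exact root_mul_left_of_isRoot _ hc
  have hSR : ∀ c, (RR A).IsRoot c → c ∈ (A * A.derivative).roots.toFinset := fun c hc => by
    apply hS'
    have h1 := (rootMultiplicity_pos (RR_ne A)).2 hc
    rw [RR_mult hA1] at h1
    exact (rootMultiplicity_pos hA1).1 (by omega)
  have s1 : ∑ i, A.rootMultiplicity (a i) = A.natDegree := by
    rw [hsm fun e => A.rootMultiplicity e, degree_sum hA0 hS]
  have s2 : ∑ i, A.derivative.rootMultiplicity (a i) = A.derivative.natDegree := by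
    rw [hsm fun e => A.derivative.rootMultiplicity e, degree_sum hA1 hS']
  have s3 : ∑ i, 2 * (A.derivative.rootMultiplicity (a i) - 1) = (RR A).natDegree := by
    rw [hsm fun e => 2 * (A.derivative.rootMultiplicity e - 1), ← degree_sum (RR_ne A) hSR]
    exact Finset.sum_congr rfl fun e _ => (RR_mult hA1 e).symm
  have d1 := natDegree_der hA1
  have d2 := RR_deg hA1
  refine ⟨M, a, hM, ha, ?_, ?_, ?_, ?_, ?_, ?_, ?_⟩
  · simp only [mu, Fin.sum_univ_succ, Fin.cons_zero, Fin.cons_succ, s1, zero_add]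
  · simp only [nu, Fin.sum_univ_succ, Fin.cons_zero, Fin.cons_succ, s2]
    omega
  · simp only [cw, Fin.sum_univ_succ, Fin.cons_zero, Fin.cons_succ, Finset.sum_add_distrib, s3]
    rw [← Finset.mul_sum, s1]
    clear hpr hsm
    omega
  · intro i
    refine Fin.cases ?_ (fun k => ?_) i
    · right
      refine ⟨rfl, ?_⟩
      change 2 * A.natDegree - 5 ≤ 2 * (A.natDegree - 1)
      omega
    · simp only [mu, cw, nu, Fin.cons_succ]
      by_cases h : A.IsRoot (a k)
      · left
        have h1 := sep_der hA h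
        have h2 : A.rootMultiplicity (a k) ≤ 1 := rootMultiplicity_le_one_of_separable hA _
        have h3 := (rootMultiplicity_pos hA0).2 h
        omega
      · right
        have h1 : A.rootMultiplicity (a k) = 0 := rootMultiplicity_eq_zero h
        omega
  · intro L _ _ x
    rw [factor hA0 hS x, hpr fun e => (x - algebraMap ℂ L e) ^ A.rootMultiplicity e]
  · intro L _ _ x
    rw [factor hA1 hS' x, hpr fun e => (x - algebraMap ℂ L e) ^ A.derivative.rootMultiplicity e]
  · intro L _ _ x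
    rw [factor (RR_ne A) hSR x,
      hpr fun e => (x - algebraMap ℂ L e) ^ (2 * (A.derivative.rootMultiplicity e - 1))]
    congr 1
    exact Finset.prod_congr rfl fun e _ => by rw [RR_mult hA1 e]

/-- the forms at a vector with ratio `x` -/
theorem ell_ratio {M : ℕ} {a : Fin M → ℂ} {u : Fin 2 → L} {x : L} (hx : u 1 = u 0 * x)
    (i : Fin M) : ell a i.succ u = u 0 * (x - algebraMap ℂ L (a i)) := by
  rw [ell_succ, hx]
  ring

/-- the product of powers of forms -/
theorem prod_ell {M : ℕ} {a : Fin M → ℂ} {u : Fin 2 → L} {x : L} (hx : u 1 = u 0 * x)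
    (n : Fin (M + 1) → ℕ) : ∏ i, ell a i u ^ n i =
      u 0 ^ (∑ i, n i) * ∏ i : Fin M, (x - algebraMap ℂ L (a i)) ^ n i.succ := by
  rw [Fin.prod_univ_succ, Fin.sum_univ_succ, pow_add]
  simp only [ell_ratio hx, mul_pow, Finset.prod_mul_distrib, Finset.prod_pow_eq_pow_sum, ell_zero]
  ring

end Pool.Agent.K9h12.SH
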