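import Pool.Agent.K9h12.SH.Exc
import Pool.Agent.K9h12.SH.Psi

/-!
The pointwise bound on the curves on which the values are proportional.
-/

set_option autoImplicit false

open FF Polynomial Filter Metric Set Topology

namespace Pool.Agent.K9h12.SH

open Pool.Agent.W603.LV Pool.Agent.W602.GT Pool.Agent.W602.NC Pool.Agent.TH152.HY
  Pool.Agent.K9h12.AX

variable {M M' : ℕ}

theorem ell_smul (a : Fin M → ℂ) (i : Fin (M + 1)) (t : ℂ) (u : Fin 2 → ℂ) :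
    ell a i (t • u) = t * ell a i u := by
  refine Fin.cases rfl (fun k => ?_) i
  simp only [ell_succ, Pi.smul_apply, smul_eq_mul, Algebra.algebraMap_self, RingHom.id_apply]
  ring

theorem prod_smul (a : Fin M → ℂ) (n : Fin (M + 1) → ℕ) (t : ℂ) (u : Fin 2 → ℂ) :
    ∏ i, ell a i (t • u) ^ n i = t ^ (∑ i, n i) * ∏ i, ell a i u ^ n i := by
  simp only [ell_smul, mul_pow, Finset.prod_mul_distrib, Finset.prod_pow_eq_pow_sum]

theorem HA_smul {A : ℂ[X]} {a : Fin M → ℂ} (hE : Enum A a) (t : ℂ) (u : Fin 2 → ℂ) :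
    HA A a (t • u) = t ^ A.natDegree * HA A a u := by
  unfold HA
  rw [prod_smul, hE.hmu]
  ring

theorem HJ_smul {A : ℂ[X]} {a : Fin M → ℂ} (hE : Enum A a) (t : ℂ) (u : Fin 2 → ℂ) :
    HJ A a (t • u) = t ^ (2 * A.natDegree - 2) * HJ A a u := by
  unfold HJ
  rw [prod_smul, show ∑ i, nu A a i = 2 * A.natDegree - 2 by have := hE.hnu; omega]
  ring

theorem ell_le (a : Fin M → ℂ) : ∃ C : ℝ, 1 ≤ C ∧ ∀ i (u : Fin 2 → ℂ), ‖ell a i u‖ ≤ C * ‖u‖ := by
  refine ⟨1 + ∑ k, ‖a k‖, ?_, fun i u => ?_⟩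
  · exact le_add_of_nonneg_right (Finset.sum_nonneg fun k _ => norm_nonneg _)
  have h0 := norm_le_pi_norm u 0
  have h1 := norm_le_pi_norm u 1
  have hs : 0 ≤ ∑ k, ‖a k‖ := Finset.sum_nonneg fun k _ => norm_nonneg _
  refine Fin.cases ?_ (fun k => ?_) i
  · rw [ell_zero]
    nlinarith [norm_nonneg u]
  · rw [ell_succ]
    have h2 : ‖a k‖ ≤ ∑ k, ‖a k‖ := Finset.single_le_sum (f := fun k => ‖a k‖)
      (fun k _ => norm_nonneg _) (Finset.mem_univ k)
    simp only [Algebra.algebraMap_self, RingHom.id_apply]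
    calc ‖u 1 - a k * u 0‖ ≤ ‖u 1‖ + ‖a k‖ * ‖u 0‖ := by
          rw [← norm_mul]; exact norm_sub_le _ _
      _ ≤ ‖u‖ + (∑ k, ‖a k‖) * ‖u‖ := add_le_add h1 (mul_le_mul h2 h0 (norm_nonneg _) hs)
      _ = _ := by ring

theorem norm_le_sup (hM : 0 < M) (a : Fin M → ℂ) : ∃ C : ℝ, 1 ≤ C ∧ ∀ (u : ℂ → Fin 2 → ℂ) (z : ℂ),
    ‖u z‖ ≤ C * sup (UU a u) z := by
  refine ⟨1 + ‖a ⟨0, hM⟩‖, le_add_of_nonneg_right (norm_nonneg _), fun u z => ?_⟩
  have h0 := le_sup (UU a u) z 0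
  have h1 := le_sup (UU a u) z (⟨0, hM⟩ : Fin M).succ
  have hs := sup_nonneg (UU a u) z
  simp only [UU, ell_zero, ell_succ, Algebra.algebraMap_self, RingHom.id_apply] at h0 h1
  change ‖u z 0‖ ≤ sup (UU a u) z at h0
  change ‖u z 1 - a ⟨0, hM⟩ * u z 0‖ ≤ sup (UU a u) z at h1
  rw [pi_norm_le_iff_of_nonneg (by positivity)]
  intro j
  fin_cases j
  · simp only [Fin.zero_eta]
    nlinarith [norm_nonneg (a ⟨0, hM⟩)]
  · simp only [Fin.mk_one]
    calc ‖u z 1‖ = ‖(u z 1 - a ⟨0, hM⟩ * u z 0) + a ⟨0, hM⟩ * u z 0‖ := by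
          congr 1; ring
      _ ≤ ‖u z 1 - a ⟨0, hM⟩ * u z 0‖ + ‖a ⟨0, hM⟩‖ * ‖u z 0‖ := by
          rw [← norm_mul]; exact norm_add_le _ _
      _ ≤ sup (UU a u) z + ‖a ⟨0, hM⟩‖ * sup (UU a u) z :=
          add_le_add h1 (mul_le_mul_of_nonneg_left h0 (norm_nonneg _))
      _ = _ := by ring

theorem prod_le (a : Fin M → ℂ) (n : Fin (M + 1) → ℕ) : ∃ C : ℝ, 1 ≤ C ∧ ∀ u : Fin 2 → ℂ,
    ‖∏ i, ell a i u ^ n i‖ ≤ C * ‖u‖ ^ (∑ i, n i) := by
  obtain ⟨C, hC, h⟩ := ell_le a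
  refine ⟨C ^ (∑ i, n i), one_le_pow₀ hC, fun u => ?_⟩
  rw [norm_prod, ← mul_pow, ← Finset.prod_pow_eq_pow_sum]
  refine Finset.prod_le_prod (fun i _ => norm_nonneg _) fun i _ => ?_
  rw [norm_pow]
  exact pow_le_pow_left₀ (norm_nonneg _) (h i u) _

/-- the bound of the Wronskian -/
theorem wr_bound (hM : 0 < M) {a : Fin M → ℂ} (ha : Function.Injective a) :
    ∃ C : ℝ, 1 ≤ C ∧ ∀ (u : ℂ → Fin 2 → ℂ) (z : ℂ) (ε B : ℝ), 0 < ε → ε ≤ 1 → 1 ≤ B →
      (∀ w ∈ closedBall z ε, ∀ j, AnalyticAt ℂ (fun w => u w j) w) → Calm (UU a u) z ε B →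
      ‖wr u z‖ ≤ C * (B / ε) * sup (UU a u) z ^ 2 := by
  classical
  choose κ hκ0 hκ using fun (i j : Fin (M + 1)) (hij : i ≠ j) => ell_wr ha hij
  obtain ⟨C1, hC1, hk⟩ : ∃ C1 : ℝ, 1 ≤ C1 ∧ ∀ i j (hij : i ≠ j), ‖(κ i j hij)⁻¹‖ ≤ C1 := by
    refine ⟨1 + ∑ i, ∑ j, (if h : i ≠ j then ‖(κ i j h)⁻¹‖ else 0), ?_, ?_⟩
    · refine le_add_of_nonneg_right (Finset.sum_nonneg fun i _ => Finset.sum_nonneg fun j _ => ?_)
      split_ifs <;> positivity
    · intro i j hij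
      have hnn : ∀ i j, 0 ≤ (if h : i ≠ j then ‖(κ i j h)⁻¹‖ else 0) := by
        intro i j
        split_ifs <;> positivity
      have h2 : (if h : i ≠ j then ‖(κ i j h)⁻¹‖ else 0) ≤ ∑ i, ∑ j,
          (if h : i ≠ j then ‖(κ i j h)⁻¹‖ else 0) := by
        refine le_trans ?_ (Finset.single_le_sum (f := fun i => ∑ j,
          (if h : i ≠ j then ‖(κ i j h)⁻¹‖ else 0))
          (fun i _ => Finset.sum_nonneg fun j _ => hnn i j) (Finset.mem_univ i))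
        exact Finset.single_le_sum (f := fun j =>
          (if h : i ≠ j then ‖(κ i j h)⁻¹‖ else 0)) (fun j _ => hnn i j) (Finset.mem_univ j)
      rw [dif_pos hij] at h2
      linarith
  refine ⟨C1, hC1, fun u z ε B hε hε1 hB hu hcalm => ?_⟩
  have hzb : z ∈ closedBall z ε := mem_closedBall_self hε.le
  obtain ⟨i0, hi0⟩ := sup_attained (UU a u) z
  obtain ⟨j0, hj0⟩ : ∃ j : Fin (M + 1), j ≠ i0 := by
    by_cases h : i0 = 0
    · refine ⟨Fin.last M, ?_⟩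
      rw [h]
      intro h'
      have h'' := congrArg Fin.val h'
      simp at h''
      omega
    · exact ⟨0, fun h' => h h'.symm⟩
  have hne := hcalm.1
  let V : ℂ → ℂ := fun w => UU a u j0 w / UU a u i0 w
  have hVdc : DiffContOnCl ℂ V (ball z ε) := by
    refine DifferentiableOn.diffContOnCl fun w hw => ?_
    rw [closure_ball z hε.ne'] at hw
    exact ((UU_an (hu w hw) j0).fun_div (UU_an (hu w hw) i0)
      (hne i0 w hw)).differentiableAt.differentiableWithinAt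
  have hV1 : ‖V z‖ ≤ 1 := by
    simp only [V, norm_div]
    rw [div_le_one (norm_pos_iff.2 (hne i0 z hzb)), ← hi0]
    exact le_sup _ _ _
  have hVb : ∀ w ∈ sphere z ε, ‖V w‖ ≤ B := fun w hw => by
    refine (hcalm.2 i0 j0 w (sphere_subset_closedBall hw)).trans ?_
    have : B * ‖V z‖ ≤ B * 1 := mul_le_mul_of_nonneg_left hV1 (by linarith)
    linarith
  have hd1 : ‖deriv V z‖ ≤ B / ε :=
    Complex.norm_deriv_le_of_forall_mem_sphere_norm_le hε hVdc hVb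
  have h0 := hne i0 z hzb
  have h1 : deriv V z = (deriv (UU a u j0) z * UU a u i0 z -
      UU a u j0 z * deriv (UU a u i0) z) / UU a u i0 z ^ 2 :=
    deriv_fun_div (UU_an (hu z hzb) j0).differentiableAt (UU_an (hu z hzb) i0).differentiableAt h0
  rw [UU_deriv (hu z hzb), UU_deriv (hu z hzb)] at h1
  have h2 := hκ i0 j0 hj0.symm (u z) fun j => deriv (fun w => u w j) z
  have h3 : ell a j0 (fun j => deriv (fun w => u w j) z) * UU a u i0 z -
      UU a u j0 z * ell a i0 (fun j => deriv (fun w => u w j) z) =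
      κ i0 j0 hj0.symm * wr u z := by
    unfold wr UU
    rw [← h2]
    ring
  rw [h3] at h1
  have h4 : wr u z = UU a u i0 z ^ 2 * ((κ i0 j0 hj0.symm)⁻¹ * deriv V z) := by
    rw [h1]
    have h4 := hκ0 i0 j0 hj0.symm
    field_simp
  rw [h4, norm_mul, norm_mul, norm_pow, ← hi0]
  calc sup (UU a u) z ^ 2 * (‖(κ i0 j0 hj0.symm)⁻¹‖ * ‖deriv V z‖)
      ≤ sup (UU a u) z ^ 2 * (C1 * (B / ε)) := by
        refine mul_le_mul_of_nonneg_left ?_ (by positivity)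
        exact mul_le_mul (hk _ _ _) hd1 (norm_nonneg _) (by linarith)
    _ = _ := by ring

/-- compactness -/
theorem cpt {S : Set ((Fin 2 → ℂ) × (Fin 2 → ℂ))} (hS : IsClosed S)
    {f : (Fin 2 → ℂ) × (Fin 2 → ℂ) → ℝ} (hf : Continuous f)
    (hpos : ∀ p ∈ S, ‖p.1‖ = 1 → ‖p.2‖ = 1 → 0 < f p) :
    ∃ δ : ℝ, 0 < δ ∧ δ ≤ 1 ∧ ∀ p ∈ S, ‖p.1‖ = 1 → ‖p.2‖ = 1 → δ ≤ f p := by
  have hK : IsCompact ((sphere (0 : Fin 2 → ℂ) 1 ×ˢ sphere (0 : Fin 2 → ℂ) 1) ∩ S) :=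
    ((isCompact_sphere _ _).prod (isCompact_sphere _ _)).inter_right hS
  rcases (((sphere (0 : Fin 2 → ℂ) 1 ×ˢ sphere (0 : Fin 2 → ℂ) 1) ∩ S)).eq_empty_or_nonempty
    with h | h
  · refine ⟨1, one_pos, le_rfl, fun p hp h1 h2 => ?_⟩
    have h3 : p ∈ (sphere (0 : Fin 2 → ℂ) 1 ×ˢ sphere (0 : Fin 2 → ℂ) 1) ∩ S :=
      ⟨⟨by simpa using h1, by simpa using h2⟩, hp⟩
    rw [h] at h3
    exact absurd h3 (Set.notMem_empty p)
  · obtain ⟨p0, hp0, hmin⟩ := hK.exists_isMinOn h hf.continuousOn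
    have h0 : 0 < f p0 := hpos p0 hp0.2 (by simpa using hp0.1.1) (by simpa using hp0.1.2)
    refine ⟨min 1 (f p0), lt_min one_pos h0, min_le_left _ _, fun p hp h1 h2 => ?_⟩
    exact (min_le_right _ _).trans (hmin ⟨⟨by simpa using h1, by simpa using h2⟩, hp⟩)

theorem cont_ell (a : Fin M → ℂ) (i : Fin (M + 1)) : Continuous fun u : Fin 2 → ℂ => ell a i u := by
  refine Fin.cases ?_ (fun k => ?_) i
  · exact continuous_apply 0
  · exact (continuous_apply 1).sub (continuous_const.mul (continuous_apply 0))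

theorem cont_HA (A : ℂ[X]) (a : Fin M → ℂ) : Continuous fun u : Fin 2 → ℂ => HA A a u :=
  continuous_const.mul (continuous_finsetProd _ fun i _ => (cont_ell a i).pow _)

theorem cont_HJ (A : ℂ[X]) (a : Fin M → ℂ) : Continuous fun u : Fin 2 → ℂ => HJ A a u :=
  continuous_const.mul (continuous_finsetProd _ fun i _ => (cont_ell a i).pow _)

theorem normalise {u : Fin 2 → ℂ} (hu : u ≠ 0) :
    ∃ t : ℂ, t ≠ 0 ∧ ‖t‖ = ‖u‖⁻¹ ∧ ‖t • u‖ = 1 := by
  have h0 : 0 < ‖u‖ := norm_pos_iff.2 hu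
  refine ⟨((‖u‖⁻¹ : ℝ) : ℂ), ?_, ?_, ?_⟩
  · exact_mod_cast (inv_pos.2 h0).ne'
  · rw [Complex.norm_real, norm_inv, norm_norm]
  · rw [norm_smul, Complex.norm_real, norm_inv, norm_norm, inv_mul_cancel₀ h0.ne']

/-- the size of the values -/
theorem HA_max {A : ℂ[X]} {a : Fin M → ℂ} (hE : Enum A a) (hA : A ≠ 0) :
    ∃ C : ℝ, 1 ≤ C ∧ ∀ u : Fin 2 → ℂ, ‖u‖ ^ A.natDegree ≤
      C * max ‖HA A a u‖ (‖u 0‖ ^ A.natDegree) := by
  obtain ⟨δ, hδ, hδ1, h⟩ := cpt (S := Set.univ) isClosed_univ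
    (f := fun p => max ‖HA A a p.1‖ (‖p.1 0‖ ^ A.natDegree))
    ((((cont_HA A a).comp continuous_fst).norm).max
      ((((continuous_apply 0).comp continuous_fst).norm).pow _)) (by
    intro p _ h1 _
    by_cases h2 : HA A a p.1 = 0
    · have h3 : p.1 0 ≠ 0 := by
        intro h3
        rw [HA_prim hE hA h2 h3, norm_zero] at h1
        exact zero_ne_one h1
      exact lt_max_of_lt_right (pow_pos (norm_pos_iff.2 h3) _)
    · exact lt_max_of_lt_left (norm_pos_iff.2 h2))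
  refine ⟨δ⁻¹, (one_le_inv₀ hδ).2 hδ1, fun u => ?_⟩
  by_cases hu : u = 0
  · rw [hu, norm_zero]
    by_cases hp : A.natDegree = 0
    · rw [hp, pow_zero, pow_zero]
      have h1 := (one_le_inv₀ hδ).2 hδ1
      have h2 := le_max_right ‖HA A a (0 : Fin 2 → ℂ)‖ 1
      nlinarith
    · rw [zero_pow hp]
      positivity
  obtain ⟨t, ht, ht1, ht2⟩ := normalise hu
  have h0 : 0 < ‖u‖ := norm_pos_iff.2 hu
  have h1 := h (t • u, t • u) (Set.mem_univ _) ht2 ht2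
  simp only [HA_smul hE, Pi.smul_apply, smul_eq_mul, norm_mul, norm_pow, ht1, mul_pow] at h1
  rw [← mul_max_of_nonneg _ _ (by positivity), inv_pow, ← div_eq_inv_mul,
    le_div_iff₀ (by positivity)] at h1
  rw [← div_eq_inv_mul, le_div_iff₀ hδ, mul_comm]
  exact h1

/-- the relation -/
def RelV (A : ℂ[X]) (a : Fin M → ℂ) (B : ℂ[X]) (b : Fin M' → ℂ) (c c' : ℂ)
    (u v : Fin 2 → ℂ) : Prop :=
  HA A a u * v 0 ^ B.natDegree = HA B b v * (c * u 0 ^ A.natDegree + c' * HA A a u)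

theorem RelV_smul {A B : ℂ[X]} {a : Fin M → ℂ} {b : Fin M' → ℂ} (hE : Enum A a) (hE' : Enum B b)
    {c c' : ℂ} {u v : Fin 2 → ℂ} (h : RelV A a B b c c' u v) (s t : ℂ) :
    RelV A a B b c c' (s • u) (t • v) := by
  unfold RelV at *
  rw [HA_smul hE, HA_smul hE']
  simp only [Pi.smul_apply, smul_eq_mul]
  linear_combination (s ^ A.natDegree * t ^ B.natDegree) * h

/-- the critical points are far from the zeros of the form -/
theorem far {A B : ℂ[X]} {a : Fin M → ℂ} {b : Fin M' → ℂ} (hE : Enum A a) (hE' : Enum B b)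
    {c c' : ℂ} {i0 : Fin (M + 1)} (hbad : Bad A a B b c c' i0) :
    ∃ C : ℝ, 1 ≤ C ∧ ∀ u v : Fin 2 → ℂ, u ≠ 0 → v ≠ 0 → RelV A a B b c c' u v →
      ‖v‖ ^ (2 * B.natDegree - 2) ≤ C * ‖HJ B b v‖ ∨ ‖u‖ ≤ C * ‖ell a i0 u‖ := by
  obtain ⟨δ, hδ, hδ1, h⟩ := cpt (S := {p | RelV A a B b c c' p.1 p.2}) (by
      unfold RelV
      refine isClosed_eq ?_ ?_
      · exact ((cont_HA A a).comp continuous_fst).mul
          (((continuous_apply 0).comp continuous_snd).pow _)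
      · exact ((cont_HA B b).comp continuous_snd).mul
          ((continuous_const.mul (((continuous_apply 0).comp continuous_fst).pow _)).add
            (continuous_const.mul ((cont_HA A a).comp continuous_fst))))
    (f := fun p => max ‖HJ B b p.2‖ ‖ell a i0 p.1‖)
    ((((cont_HJ B b).comp continuous_snd).norm).max (((cont_ell a i0).comp continuous_fst).norm))
    (by
      intro p hp h1 h2
      by_contra hcon
      push Not at hcon
      have h3 : HJ B b p.2 = 0 := norm_le_zero_iff.1 ((le_max_left _ _).trans hcon)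
      have h4 : ell a i0 p.1 = 0 := norm_le_zero_iff.1 ((le_max_right _ _).trans hcon)
      refine hbad p.1 p.2 ?_ ?_ h4 h3 hp
      · rintro h5
        rw [h5, norm_zero] at h1
        exact zero_ne_one h1
      · rintro h5
        rw [h5, norm_zero] at h2
        exact zero_ne_one h2)
  refine ⟨δ⁻¹, (one_le_inv₀ hδ).2 hδ1, fun u v hu hv hrel => ?_⟩
  obtain ⟨t, ht, ht1, ht2⟩ := normalise hu
  obtain ⟨s, hs, hs1, hs2⟩ := normalise hv
  have h0 : 0 < ‖u‖ := norm_pos_iff.2 hu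
  have h0' : 0 < ‖v‖ := norm_pos_iff.2 hv
  have h1 := h (t • u, s • v) (RelV_smul hE hE' hrel t s) ht2 hs2
  simp only [HJ_smul hE', ell_smul, norm_mul, norm_pow, ht1, hs1] at h1
  rcases le_max_iff.1 h1 with h2 | h2
  · left
    rw [inv_pow, ← div_eq_inv_mul, le_div_iff₀ (by positivity)] at h2
    rw [← div_eq_inv_mul, le_div_iff₀ hδ, mul_comm]
    exact h2
  · right
    rw [← div_eq_inv_mul, le_div_iff₀ (by positivity)] at h2
    rw [← div_eq_inv_mul, le_div_iff₀ hδ, mul_comm]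
    exact h2

end Pool.Agent.K9h12.SH
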