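import Pool.Agent.K9h12.SH.Ord

/-!
Curves on which the values are proportional: local estimates.
-/

set_option autoImplicit false

open FF Polynomial Pool.Agent.W603.LV Pool.Agent.W602.GT

namespace Pool.Agent.K9h12.SH

variable {L : Type} [Field L] [Algebra ℂ L]

/-- `f` has the value `c` at `P` -/
def Red (P : Place ℂ L) (f : L) (c : ℂ) : Prop := Ge P 1 (f - algebraMap ℂ L c)

namespace Red

variable {P : Place ℂ L} {f g : L} {c d : ℂ}

theorem ge (h : Red P f c) : Ge P 0 f := by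
  have h1 := (Ge.mono (by norm_num : (0 : ℤ) ≤ 1) h).add (Ge.const (P := P) c)
  simpa using h1

theorem const (c : ℂ) : Red P (algebraMap ℂ L c) c := by
  unfold Red
  rw [sub_self]
  exact Ge.zero

theorem add (h1 : Red P f c) (h2 : Red P g d) : Red P (f + g) (c + d) := by
  unfold Red at *
  have h3 := Ge.add h1 h2
  convert h3 using 1
  rw [map_add]; ring

theorem sub (h1 : Red P f c) (h2 : Red P g d) : Red P (f - g) (c - d) := by
  unfold Red at *
  have h3 := Ge.sub h1 h2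
  convert h3 using 1
  rw [map_sub]; ring

theorem mul (h1 : Red P f c) (h2 : Red P g d) : Red P (f * g) (c * d) := by
  have h3 : Ge P 1 _ := ((Ge.mul h1 h2.ge).mono (by norm_num)).add
    (((Ge.const (P := P) c).mul h2).mono (by norm_num))
  unfold Red
  convert h3 using 1
  rw [map_mul]; ring

theorem pow (h1 : Red P f c) (n : ℕ) : Red P (f ^ n) (c ^ n) := by
  induction n with
  | zero =>
    have := const (P := P) (1 : ℂ)
    simpa using this
  | succ n ih => simpa only [pow_succ] using ih.mul h1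

theorem prod {ι : Type} (s : Finset ι) {f : ι → L} {c : ι → ℂ} (h : ∀ i ∈ s, Red P (f i) (c i)) :
    Red P (∏ i ∈ s, f i) (∏ i ∈ s, c i) := by
  classical
  induction s using Finset.induction_on with
  | empty =>
    have := const (P := P) (1 : ℂ)
    simpa using this
  | insert a s ha ih =>
    rw [Finset.prod_insert ha, Finset.prod_insert ha]
    exact (h a (Finset.mem_insert_self a s)).mul (ih fun i hi => h i (Finset.mem_insert_of_mem hi))

theorem eq_zero_of_ge (h : Ge P 1 (algebraMap ℂ L c)) : c = 0 := by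
  by_contra hc
  have h1 := h.resolve_left ((_root_.map_ne_zero _).2 hc)
  rw [P.ord_const hc] at h1
  omega

theorem uniq (h1 : Red P f c) (h2 : Red P f d) : c = d := by
  have h3 := Ge.sub h2 h1
  have h4 : f - algebraMap ℂ L d - (f - algebraMap ℂ L c) = algebraMap ℂ L (c - d) := by
    rw [map_sub]; ring
  rw [h4] at h3
  exact sub_eq_zero.1 (eq_zero_of_ge h3)

theorem unit (h1 : Red P f c) (hc : c ≠ 0) : f ≠ 0 ∧ P.ord f = 0 := by
  have hc' : algebraMap ℂ L c ≠ 0 := (_root_.map_ne_zero _).2 hc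
  have h2 : f = algebraMap ℂ L c + (f - algebraMap ℂ L c) := by ring
  rcases h1 with h1 | h1
  · rw [h2, h1, add_zero]
    exact ⟨hc', P.ord_const hc⟩
  · by_cases h3 : f - algebraMap ℂ L c = 0
    · rw [h2, h3, add_zero]
      exact ⟨hc', P.ord_const hc⟩
    · have h4 := P.ord_add_eq hc' h3 (by rw [P.ord_const hc]; omega)
      rw [h2]
      exact ⟨h4.1, h4.2.trans (P.ord_const hc)⟩

end Red

variable {M M' : ℕ}

/-- the homogeneous polynomial -/
noncomputable def HA (A : ℂ[X]) (a : Fin M → ℂ) (u : Fin 2 → L) : L :=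
  algebraMap ℂ L A.leadingCoeff * ∏ i, ell a i u ^ mu A a i

/-- the homogeneous derivative -/
noncomputable def HJ (A : ℂ[X]) (a : Fin M → ℂ) (u : Fin 2 → L) : L :=
  algebraMap ℂ L A.derivative.leadingCoeff * ∏ i, ell a i u ^ nu A a i

theorem HA_eq {A : ℂ[X]} {a : Fin M → ℂ} (hE : Enum A a) (hA : A ≠ 0) {u : Fin 2 → L} {x : L}
    (hx : u 1 = u 0 * x) : HA A a u = u 0 ^ A.natDegree * aeval x A := by
  unfold HA
  rw [prod_mu hE hA hx]
  have h1 : algebraMap ℂ L A.leadingCoeff * algebraMap ℂ L A.leadingCoeff⁻¹ = 1 := by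
    rw [← map_mul, mul_inv_cancel₀ (leadingCoeff_ne_zero.2 hA), map_one]
  linear_combination (u 0 ^ A.natDegree * aeval x A) * h1

theorem HJ_eq {A : ℂ[X]} {a : Fin M → ℂ} (hE : Enum A a) (hA : A.derivative ≠ 0)
    (D : Derivation ℂ L L) {u : Fin 2 → L} {x : L} (hx : u 1 = u 0 * x) :
    HJ A a u * wrA D u = u 0 ^ (2 * A.natDegree) * D (aeval x A) := by
  unfold HJ
  have h0 := prod_nu hE hA D hx
  have h1 : algebraMap ℂ L A.derivative.leadingCoeff *
      algebraMap ℂ L A.derivative.leadingCoeff⁻¹ = 1 := by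
    rw [← map_mul, mul_inv_cancel₀ (leadingCoeff_ne_zero.2 hA), map_one]
  linear_combination algebraMap ℂ L A.derivative.leadingCoeff * h0 +
    (u 0 ^ (2 * A.natDegree) * D (aeval x A)) * h1

/-- the values at a place -/
theorem red_ell {P : Place ℂ L} (a : Fin M → ℂ) {u : Fin 2 → L} {w : Fin 2 → ℂ}
    (h : ∀ j, Red P (u j) (w j)) (i : Fin (M + 1)) : Red P (ell a i u) (ell a i w) := by
  refine Fin.cases (h 0) (fun k => ?_) i
  rw [ell_succ, ell_succ]
  exact (h 1).sub ((Red.const _).mul (h 0))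

theorem red_HA {P : Place ℂ L} (A : ℂ[X]) (a : Fin M → ℂ) {u : Fin 2 → L} {w : Fin 2 → ℂ}
    (h : ∀ j, Red P (u j) (w j)) : Red P (HA A a u) (HA A a w) :=
  (Red.const _).mul (Red.prod _ fun i _ => (red_ell a h i).pow _)

theorem red_HJ {P : Place ℂ L} (A : ℂ[X]) (a : Fin M → ℂ) {u : Fin 2 → L} {w : Fin 2 → ℂ}
    (h : ∀ j, Red P (u j) (w j)) : Red P (HJ A a u) (HJ A a w) :=
  (Red.const _).mul (Red.prod _ fun i _ => (red_ell a h i).pow _)

/-- two forms have no common zero -/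
theorem ell_zero_two {a : Fin M → ℂ} (ha : Function.Injective a) {i j : Fin (M + 1)} (hij : i ≠ j)
    {w : Fin 2 → ℂ} (h1 : ell a i w = 0) (h2 : ell a j w = 0) (hM : 0 < M) : w = 0 := by
  have key : ∀ l, ell a l w = 0 := by
    intro l
    obtain ⟨α, β, h⟩ := ell_comb ha hij l
    rw [h, h1, h2, mul_zero, mul_zero, add_zero]
  have h0 := key 0
  have h3 := key (⟨0, hM⟩ : Fin M).succ
  rw [ell_zero] at h0
  rw [ell_succ, h0, mul_zero, sub_zero] at h3
  funext k
  fin_cases k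
  · exact h0
  · exact h3

theorem HA_zero {A : ℂ[X]} {a : Fin M → ℂ} (hE : Enum A a) (hA : A ≠ 0) {w : Fin 2 → ℂ}
    (h : HA A a w = 0) : ∃ i, mu A a i = 1 ∧ ell a i w = 0 := by
  unfold HA at h
  have h1 := (mul_eq_zero.1 h).resolve_left (by
    simpa using leadingCoeff_ne_zero.2 hA)
  obtain ⟨i, -, hi⟩ := Finset.prod_eq_zero_iff.1 h1
  refine ⟨i, ?_, (pow_eq_zero_iff fun h0 => ?_).1 hi⟩
  · rcases hE.hc i with h2 | h2
    · exact h2.1
    · rw [h2.1, pow_zero] at hi
      exact absurd hi one_ne_zero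
  · rw [h0, pow_zero] at hi
    exact one_ne_zero hi

theorem mu_zero (A : ℂ[X]) (a : Fin M → ℂ) : mu A a 0 = 0 := rfl

/-- no common zeros of the polynomial and of the first coordinate -/
theorem HA_prim {A : ℂ[X]} {a : Fin M → ℂ} (hE : Enum A a) (hA : A ≠ 0) {w : Fin 2 → ℂ}
    (h : HA A a w = 0) (h0 : w 0 = 0) : w = 0 := by
  obtain ⟨i, h1, h2⟩ := HA_zero hE hA h
  refine ell_zero_two hE.inj (i := i) (j := 0) ?_ h2 h0 hE.pos
  rintro rfl
  rw [mu_zero] at h1
  omega

/-- the condition on a critical point: its value is not a critical value of the other polynomial -/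
def Bad (A : ℂ[X]) (a : Fin M → ℂ) (B : ℂ[X]) (b : Fin M' → ℂ) (c c' : ℂ) (i0 : Fin (M + 1)) :
    Prop :=
  ∀ u v : Fin 2 → ℂ, u ≠ 0 → v ≠ 0 → ell a i0 u = 0 → HJ B b v = 0 →
    HA A a u * v 0 ^ B.natDegree ≠ HA B b v * (c * u 0 ^ A.natDegree + c' * HA A a u)

theorem mu_of_nu {A : ℂ[X]} (hA : A.Separable) (hp : A ≠ 0) {a : Fin M → ℂ}
    {i : Fin (M + 1)} (h : nu A a i ≠ 0) : mu A a i = 0 := by
  rcases Fin.eq_zero_or_eq_succ i with rfl | ⟨k, rfl⟩
  · rfl
  · change A.rootMultiplicity (a k) = 0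
    by_contra h1
    have h2 : A.IsRoot (a k) := (rootMultiplicity_pos hp).1 (Nat.pos_of_ne_zero h1)
    exact h (sep_der hA h2)

theorem HA_ne {A : ℂ[X]} (hA : A.Separable) (hp : A ≠ 0) {a : Fin M → ℂ} (hE : Enum A a)
    {i : Fin (M + 1)} (h : nu A a i ≠ 0) {w : Fin 2 → ℂ} (hw : w ≠ 0) (h0 : ell a i w = 0) :
    HA A a w ≠ 0 := by
  intro h1
  obtain ⟨j, h2, h3⟩ := HA_zero hE hp h1
  refine hw (ell_zero_two hE.inj (i := i) (j := j) ?_ h0 h3 hE.pos)
  rintro rfl
  rw [mu_of_nu hA hp h] at h2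
  omega

/-- **The local estimate on the curves.** -/
theorem crv_ord {P : Place ℂ L} {D : Derivation ℂ L L} (h : Nice P D) {A B : ℂ[X]}
    (hA : A.Separable) (hB : B.Separable) (hp : 3 ≤ A.natDegree) (hq : 3 ≤ B.natDegree)
    {a : Fin M → ℂ} {b : Fin M' → ℂ} (hE : Enum A a) (hE' : Enum B b) {i0 : Fin (M + 1)}
    (hi0 : 3 ≤ nu A a i0) {c c' : ℂ} (hc : c ≠ 0) (hbad : Bad A a B b c c' i0)
    {u v : Fin 2 → L} {x y : L} (hu : u 0 ≠ 0) (hv : v 0 ≠ 0)
    (hux : u 1 = u 0 * x) (hvy : v 1 = v 0 * y) (hu0 : Ge P 0 (u 0)) (hu1 : Ge P 0 (u 1))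
    (hup : P.ord (u 0) = 0 ∨ P.ord (u 1) = 0) (hv0 : Ge P 0 (v 0)) (hv1 : Ge P 0 (v 1))
    (hvp : P.ord (v 0) = 0 ∨ P.ord (v 1) = 0) (hx : D x ≠ 0) (hy : D y ≠ 0)
    (hrel : HA A a u * v 0 ^ B.natDegree = HA B b v *
      (algebraMap ℂ L c * u 0 ^ A.natDegree + algebraMap ℂ L c' * HA A a u))
    (hder : HJ B b v * wrA D v * HA A a u ^ 2 =
      algebraMap ℂ L c * (HJ A a u * wrA D u) * HA B b v ^ 2) :
    ell a i0 u ≠ 0 ∧ wrA D v ≠ 0 ∧ HA A a u ≠ 0 ∧ HA B b v ≠ 0 ∧
    3 * P.ord (ell a i0 u) ≤ P.ord (wrA D v) ∧ P.ord (HA A a u) = P.ord (HA B b v) := by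
  have hA0 : A ≠ 0 := by rintro rfl; simp at hp
  have hB0 : B ≠ 0 := by rintro rfl; simp at hq
  have hA1 : A.derivative ≠ 0 := by
    intro h0
    have h1 := derivative_eq_zero.1 h0
    omega
  have hB1 : B.derivative ≠ 0 := by
    intro h0
    have h1 := derivative_eq_zero.1 h0
    omega
  have hcx := const_of_eq hx
  have hcy := const_of_eq hy
  have hx0 : x ≠ 0 := fun h0 => hcx 0 (by rw [h0, map_zero])
  have hy0 : y ≠ 0 := fun h0 => hcy 0 (by rw [h0, map_zero])
  have hu' : u 1 ≠ 0 := by rw [hux]; exact mul_ne_zero hu hx0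
  have hv' : v 1 ≠ 0 := by rw [hvy]; exact mul_ne_zero hv hy0
  have hlne : ∀ {m : ℕ} (e : Fin m → ℂ) {t : Fin 2 → L} {s : L} (_ : t 0 ≠ 0)
      (_ : t 1 = t 0 * s) (_ : ∀ c : ℂ, s ≠ algebraMap ℂ L c) (i : Fin (m + 1)), ell e i t ≠ 0 := by
    intro m e t s h1 h2 h3 i
    refine Fin.cases h1 (fun k => ?_) i
    rw [ell_ratio h2]
    exact mul_ne_zero h1 (sub_ne_zero.2 (h3 _))
  have hlc : ∀ {Q : ℂ[X]}, Q ≠ 0 → algebraMap ℂ L Q.leadingCoeff ≠ 0 := fun hQ =>
    (_root_.map_ne_zero _).2 (leadingCoeff_ne_zero.2 hQ)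
  have nA : HA A a u ≠ 0 := mul_ne_zero (hlc hA0)
    (Finset.prod_ne_zero_iff.2 fun i _ => pow_ne_zero _ (hlne a hu hux hcx i))
  have nB : HA B b v ≠ 0 := mul_ne_zero (hlc hB0)
    (Finset.prod_ne_zero_iff.2 fun i _ => pow_ne_zero _ (hlne b hv hvy hcy i))
  have nJ : HJ A a u ≠ 0 := mul_ne_zero (hlc hA1)
    (Finset.prod_ne_zero_iff.2 fun i _ => pow_ne_zero _ (hlne a hu hux hcx i))
  have nw : wrA D v ≠ 0 := by
    rw [wrA_eq D hvy]
    exact mul_ne_zero (pow_ne_zero _ hv) hy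
  have nw' : wrA D u ≠ 0 := by
    rw [wrA_eq D hux]
    exact mul_ne_zero (pow_ne_zero _ hu) hx
  have nl : ell a i0 u ≠ 0 := hlne a hu hux hcx i0
  -- the values
  obtain ⟨w0, hw0⟩ := h.res _ hu0
  obtain ⟨w1, hw1⟩ := h.res _ hu1
  obtain ⟨t0, ht0⟩ := h.res _ hv0
  obtain ⟨t1, ht1⟩ := h.res _ hv1
  obtain ⟨w, hw⟩ : ∃ w : Fin 2 → ℂ, ∀ j, Red P (u j) (w j) := ⟨![w0, w1], fun j => by
    fin_cases j
    · exact hw0
    · exact hw1⟩
  obtain ⟨t, ht⟩ : ∃ t : Fin 2 → ℂ, ∀ j, Red P (v j) (t j) := ⟨![t0, t1], fun j => by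
    fin_cases j
    · exact ht0
    · exact ht1⟩
  have hne : ∀ {s : Fin 2 → L} {r : Fin 2 → ℂ} (_ : ∀ j, Red P (s j) (r j)) (_ : s 0 ≠ 0)
      (_ : s 1 ≠ 0) (_ : P.ord (s 0) = 0 ∨ P.ord (s 1) = 0), r ≠ 0 := by
    intro s r h1 h2 h3 h4 h5
    have h6 : ∀ j, Ge P 1 (s j) := fun j => by
      have := h1 j
      unfold Red at this
      rwa [h5, Pi.zero_apply, map_zero, sub_zero] at this
    rcases h4 with h4 | h4
    · have := (h6 0).resolve_left h2
      omega
    · have := (h6 1).resolve_left h3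
      omega
  have hwn : w ≠ 0 := hne hw hu hu' hup
  have htn : t ≠ 0 := hne ht hv hv' hvp
  have rA := red_HA A a hw
  have rB := red_HA B b ht
  have hred : HA A a w * t 0 ^ B.natDegree = HA B b t *
      (c * w 0 ^ A.natDegree + c' * HA A a w) := by
    have h1 := rA.mul ((ht 0).pow B.natDegree)
    have h2 := rB.mul (((Red.const c).mul ((hw 0).pow A.natDegree)).add ((Red.const c').mul rA))
    rw [hrel] at h1
    exact h1.uniq h2
  refine ⟨nl, nw, nA, nB, ?_, ?_⟩
  · by_cases hl : ell a i0 w = 0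
    · have hAw : HA A a w ≠ 0 := HA_ne hA hA0 hE (by omega) hwn hl
      have hBt : HA B b t ≠ 0 := by
        intro h0
        rw [h0, zero_mul] at hred
        have h1 := (mul_eq_zero.1 hred).resolve_left hAw
        exact htn (HA_prim hE' hB0 h0 ((pow_eq_zero_iff (by omega)).1 h1))
      have hJt : HJ B b t ≠ 0 := fun h0 => hbad w t hwn htn hl h0 hred
      have oA := (rA.unit hAw).2
      have oB := (rB.unit hBt).2
      have oJ := (red_HJ B b ht).unit hJt
      have e1 := congrArg P.ord hder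
      rw [P.ord_mul (mul_ne_zero oJ.1 nw) (pow_ne_zero _ nA), P.ord_mul oJ.1 nw, P.ord_pow,
        P.ord_mul (mul_ne_zero ((_root_.map_ne_zero _).2 hc) (mul_ne_zero nJ nw'))
          (pow_ne_zero _ nB), P.ord_mul ((_root_.map_ne_zero _).2 hc) (mul_ne_zero nJ nw'),
        P.ord_mul nJ nw', P.ord_pow, P.ord_const hc, oA, oB, oJ.2] at e1
      have e2 : 0 ≤ P.ord (wrA D u) := by
        have h1 : Ge P 0 (wrA D u) :=
          ((hu0.mul (h.reg _ hu1)).mono (by norm_num)).sub ((hu1.mul (h.reg _ hu0)).mono (by norm_num))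
        exact h1.resolve_left nw'
      have e3 : 3 * P.ord (ell a i0 u) ≤ P.ord (HJ A a u) := by
        have h1 : ∀ i, Ge P 0 (ell a i u) := fun i => (red_ell a hw i).ge
        have h2 : Ge P (nu A a i0 * P.ord (ell a i0 u)) (HJ A a u) := by
          unfold HJ
          rw [← Finset.mul_prod_erase Finset.univ _ (Finset.mem_univ i0)]
          have h3 : Ge P (∑ i ∈ Finset.univ.erase i0, 0)
              (∏ i ∈ Finset.univ.erase i0, ell a i u ^ nu A a i) :=
            Ge.prod _ _ _ fun i _ => ((h1 i).pow _).mono (by simp)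
          have h4 := (Ge.const (P := P) A.derivative.leadingCoeff).mul
            (((ge_ord P (ell a i0 u)).pow (nu A a i0)).mul h3)
          refine h4.mono (by simp)
        have h3 := h2.resolve_left nJ
        have h4 : 0 ≤ P.ord (ell a i0 u) := (h1 i0).resolve_left nl
        have h5 : (3 : ℤ) ≤ nu A a i0 := by exact_mod_cast hi0
        nlinarith
      push_cast at e1
      linarith
    · have h1 := ((red_ell a hw i0).unit hl).2
      rw [h1, mul_zero]
      have h2 : Ge P 0 (wrA D v) :=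
        ((hv0.mul (h.reg _ hv1)).mono (by norm_num)).sub ((hv1.mul (h.reg _ hv0)).mono (by norm_num))
      exact h2.resolve_left nw
  · by_cases hAw : HA A a w = 0
    · have hw00 : w 0 ≠ 0 := fun h0 => hwn (HA_prim hE hA0 hAw h0)
      have hcw : c * w 0 ^ A.natDegree + c' * HA A a w ≠ 0 := by
        rw [hAw, mul_zero, add_zero]
        exact mul_ne_zero hc (pow_ne_zero _ hw00)
      have hBt : HA B b t = 0 := by
        rw [hAw, zero_mul] at hred
        refine (mul_eq_zero.1 hred.symm).resolve_right ?_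
        rw [mul_zero, add_zero]
        exact mul_ne_zero hc (pow_ne_zero _ hw00)
      have ht00 : t 0 ≠ 0 := fun h0 => htn (HA_prim hE' hB0 hBt h0)
      have h1 := ((ht 0).pow B.natDegree).unit (pow_ne_zero _ ht00)
      have h2 := (((Red.const c).mul ((hw 0).pow A.natDegree)).add
        ((Red.const c').mul rA)).unit hcw
      have e1 := congrArg P.ord hrel
      rw [P.ord_mul nA h1.1, P.ord_mul nB h2.1, h1.2, h2.2] at e1
      linarith
    · have hBt : HA B b t ≠ 0 := by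
        intro h0
        rw [h0, zero_mul] at hred
        have h1 := (mul_eq_zero.1 hred).resolve_left hAw
        exact htn (HA_prim hE' hB0 h0 ((pow_eq_zero_iff (by omega)).1 h1))
      rw [(rA.unit hAw).2, (rB.unit hBt).2]

end Pool.Agent.K9h12.SH
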