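import Pool.Agent.K9h12.SH.Cpt
import Pool.Agent.K9h12.SH.An

/-!
Meromorphic functions near infinity with proportional values.
-/

set_option autoImplicit false

open FF Polynomial Filter Metric Set Topology

namespace Pool.Agent.K9h12.SH

open Pool.Agent.W603.LV Pool.Agent.W602.GT Pool.Agent.W603.BP Pool.Agent.W601.PH
  Pool.Agent.W602.NC Pool.Agent.TH152.HY Pool.Agent.Y190.AN Pool.Agent.K9h12.AX

variable {M M' : ℕ}

/-- the two estimates -/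
theorem two_est {A B : ℂ[X]} {a : Fin M → ℂ} {b : Fin M' → ℂ} (hE : Enum A a) (hE' : Enum B b)
    (hA : A ≠ 0) (hB : B ≠ 0) {c : ℂ} (hc : c ≠ 0) (c' : ℂ) :
    ∃ C : ℝ, 1 ≤ C ∧ ∀ u v : Fin 2 → ℂ, RelV A a B b c c' u v →
      ‖HA A a u‖ * ‖v‖ ^ B.natDegree ≤ C * (‖u‖ ^ A.natDegree * ‖HA B b v‖) ∧
      ‖u‖ ^ A.natDegree * ‖HA B b v‖ ≤ C * (‖HA A a u‖ * ‖v‖ ^ B.natDegree) := by
  obtain ⟨C1, hC1, h1⟩ := HA_max hE hA
  obtain ⟨C2, hC2, h2⟩ := HA_max hE' hB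
  obtain ⟨C3, hC3, h3⟩ := prod_le a (mu A a)
  obtain ⟨C4, hC4, h4⟩ := prod_le b (mu B b)
  rw [hE.hmu] at h3
  rw [hE'.hmu] at h4
  have hAle : ∀ u : Fin 2 → ℂ, ‖HA A a u‖ ≤ (1 + ‖A.leadingCoeff‖) * C3 * ‖u‖ ^ A.natDegree := by
    intro u
    unfold HA
    rw [norm_mul, Algebra.algebraMap_self, RingHom.id_apply]
    have h5 := h3 u
    have h6 : ‖A.leadingCoeff‖ ≤ 1 + ‖A.leadingCoeff‖ := by linarith
    calc ‖A.leadingCoeff‖ * ‖∏ i, ell a i u ^ mu A a i‖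
        ≤ (1 + ‖A.leadingCoeff‖) * (C3 * ‖u‖ ^ A.natDegree) :=
          mul_le_mul h6 h5 (norm_nonneg _) (by positivity)
      _ = _ := by ring
  have hBle : ∀ u : Fin 2 → ℂ, ‖HA B b u‖ ≤ (1 + ‖B.leadingCoeff‖) * C4 * ‖u‖ ^ B.natDegree := by
    intro u
    unfold HA
    rw [norm_mul, Algebra.algebraMap_self, RingHom.id_apply]
    have h5 := h4 u
    have h6 : ‖B.leadingCoeff‖ ≤ 1 + ‖B.leadingCoeff‖ := by linarith
    calc ‖B.leadingCoeff‖ * ‖∏ i, ell b i u ^ mu B b i‖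
        ≤ (1 + ‖B.leadingCoeff‖) * (C4 * ‖u‖ ^ B.natDegree) :=
          mul_le_mul h6 h5 (norm_nonneg _) (by positivity)
      _ = _ := by ring
  set CA := (1 + ‖A.leadingCoeff‖) * C3 with hCA
  set CB := (1 + ‖B.leadingCoeff‖) * C4 with hCB
  have hCA1 : 1 ≤ CA := one_le_mul_of_one_le_of_one_le (by linarith [norm_nonneg A.leadingCoeff]) hC3
  have hCB1 : 1 ≤ CB := one_le_mul_of_one_le_of_one_le (by linarith [norm_nonneg B.leadingCoeff]) hC4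
  have hcp : 0 < ‖c‖ := norm_pos_iff.2 hc
  -- the constants
  set K1 := ‖c‖ + ‖c'‖ * CA + CA with hK1
  set K2 := (1 + ‖c'‖ * CB) / ‖c‖ + CB with hK2
  have hK1n : 0 ≤ K1 := by positivity
  have hK2n : 0 ≤ K2 := by positivity
  refine ⟨1 + C2 * K1 + C1 * K2, ?_, fun u v hrel => ⟨?_, ?_⟩⟩
  · have : 0 ≤ C2 * K1 := by positivity
    have : 0 ≤ C1 * K2 := by positivity
    linarith
  · -- upper bound
    have hu0 : ‖u 0‖ ^ A.natDegree ≤ ‖u‖ ^ A.natDegree :=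
      pow_le_pow_left₀ (norm_nonneg _) (norm_le_pi_norm u 0) _
    have m1 : ‖HA A a u‖ * ‖HA B b v‖ ≤ K1 * (‖u‖ ^ A.natDegree * ‖HA B b v‖) := by
      calc ‖HA A a u‖ * ‖HA B b v‖ ≤ (CA * ‖u‖ ^ A.natDegree) * ‖HA B b v‖ :=
            mul_le_mul_of_nonneg_right (hAle u) (norm_nonneg _)
        _ = CA * (‖u‖ ^ A.natDegree * ‖HA B b v‖) := by ring
        _ ≤ _ := by
            refine mul_le_mul_of_nonneg_right ?_ (by positivity)
            rw [hK1]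
            have : 0 ≤ ‖c'‖ * CA := by positivity
            linarith
    have m2 : ‖HA A a u‖ * ‖v 0‖ ^ B.natDegree ≤ K1 * (‖u‖ ^ A.natDegree * ‖HA B b v‖) := by
      have e1 := congrArg norm hrel
      rw [norm_mul, norm_mul, norm_pow] at e1
      rw [e1]
      have e2 : ‖c * u 0 ^ A.natDegree + c' * HA A a u‖ ≤ K1 * ‖u‖ ^ A.natDegree := by
        calc ‖c * u 0 ^ A.natDegree + c' * HA A a u‖
            ≤ ‖c‖ * ‖u 0‖ ^ A.natDegree + ‖c'‖ * ‖HA A a u‖ := by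
              rw [← norm_pow, ← norm_mul, ← norm_mul]; exact norm_add_le _ _
          _ ≤ ‖c‖ * ‖u‖ ^ A.natDegree + ‖c'‖ * (CA * ‖u‖ ^ A.natDegree) :=
              add_le_add (mul_le_mul_of_nonneg_left hu0 (norm_nonneg _))
                (mul_le_mul_of_nonneg_left (hAle u) (norm_nonneg _))
          _ = (‖c‖ + ‖c'‖ * CA) * ‖u‖ ^ A.natDegree := by ring
          _ ≤ _ := by
              refine mul_le_mul_of_nonneg_right ?_ (by positivity)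
              rw [hK1]
              linarith
      calc ‖HA B b v‖ * ‖c * u 0 ^ A.natDegree + c' * HA A a u‖
          ≤ ‖HA B b v‖ * (K1 * ‖u‖ ^ A.natDegree) :=
            mul_le_mul_of_nonneg_left e2 (norm_nonneg _)
        _ = _ := by ring
    calc ‖HA A a u‖ * ‖v‖ ^ B.natDegree
        ≤ ‖HA A a u‖ * (C2 * max ‖HA B b v‖ (‖v 0‖ ^ B.natDegree)) :=
          mul_le_mul_of_nonneg_left (h2 v) (norm_nonneg _)
      _ = C2 * max (‖HA A a u‖ * ‖HA B b v‖) (‖HA A a u‖ * ‖v 0‖ ^ B.natDegree) := by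
          rw [← mul_max_of_nonneg _ _ (norm_nonneg _)]; ring
      _ ≤ C2 * (K1 * (‖u‖ ^ A.natDegree * ‖HA B b v‖)) :=
          mul_le_mul_of_nonneg_left (max_le m1 m2) (by linarith)
      _ = (C2 * K1) * (‖u‖ ^ A.natDegree * ‖HA B b v‖) := by ring
      _ ≤ _ := by
          refine mul_le_mul_of_nonneg_right ?_ (by positivity)
          have : 0 ≤ C1 * K2 := by positivity
          linarith
  · -- lower bound
    have hv0 : ‖v 0‖ ^ B.natDegree ≤ ‖v‖ ^ B.natDegree :=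
      pow_le_pow_left₀ (norm_nonneg _) (norm_le_pi_norm v 0) _
    have m1 : ‖HA A a u‖ * ‖HA B b v‖ ≤ K2 * (‖HA A a u‖ * ‖v‖ ^ B.natDegree) := by
      calc ‖HA A a u‖ * ‖HA B b v‖ ≤ ‖HA A a u‖ * (CB * ‖v‖ ^ B.natDegree) :=
            mul_le_mul_of_nonneg_left (hBle v) (norm_nonneg _)
        _ = CB * (‖HA A a u‖ * ‖v‖ ^ B.natDegree) := by ring
        _ ≤ _ := by
            refine mul_le_mul_of_nonneg_right ?_ (by positivity)
            rw [hK2]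
            have : 0 ≤ (1 + ‖c'‖ * CB) / ‖c‖ := by positivity
            linarith
    have m2 : ‖u 0‖ ^ A.natDegree * ‖HA B b v‖ ≤ K2 * (‖HA A a u‖ * ‖v‖ ^ B.natDegree) := by
      have e1 : c * (u 0 ^ A.natDegree * HA B b v) =
          HA A a u * (v 0 ^ B.natDegree - c' * HA B b v) := by
        unfold RelV at hrel
        linear_combination -hrel
      have e2 := congrArg norm e1
      rw [norm_mul, norm_mul, norm_mul, norm_pow] at e2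
      have e3 : ‖v 0 ^ B.natDegree - c' * HA B b v‖ ≤ (1 + ‖c'‖ * CB) * ‖v‖ ^ B.natDegree := by
        calc ‖v 0 ^ B.natDegree - c' * HA B b v‖ ≤ ‖v 0‖ ^ B.natDegree + ‖c'‖ * ‖HA B b v‖ := by
              rw [← norm_pow, ← norm_mul]; exact norm_sub_le _ _
          _ ≤ ‖v‖ ^ B.natDegree + ‖c'‖ * (CB * ‖v‖ ^ B.natDegree) :=
              add_le_add hv0 (mul_le_mul_of_nonneg_left (hBle v) (norm_nonneg _))
          _ = _ := by ring
      have e4 : ‖u 0‖ ^ A.natDegree * ‖HA B b v‖ =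
          ‖HA A a u‖ * ‖v 0 ^ B.natDegree - c' * HA B b v‖ / ‖c‖ := by
        rw [eq_div_iff hcp.ne']
        linarith
      rw [e4]
      calc ‖HA A a u‖ * ‖v 0 ^ B.natDegree - c' * HA B b v‖ / ‖c‖
          ≤ ‖HA A a u‖ * ((1 + ‖c'‖ * CB) * ‖v‖ ^ B.natDegree) / ‖c‖ :=
            div_le_div_of_nonneg_right (mul_le_mul_of_nonneg_left e3 (norm_nonneg _)) hcp.le
        _ = ((1 + ‖c'‖ * CB) / ‖c‖) * (‖HA A a u‖ * ‖v‖ ^ B.natDegree) := by ring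
        _ ≤ _ := by
            refine mul_le_mul_of_nonneg_right ?_ (by positivity)
            rw [hK2]
            linarith
    calc ‖u‖ ^ A.natDegree * ‖HA B b v‖
        ≤ (C1 * max ‖HA A a u‖ (‖u 0‖ ^ A.natDegree)) * ‖HA B b v‖ :=
          mul_le_mul_of_nonneg_right (h1 u) (norm_nonneg _)
      _ = C1 * max (‖HA A a u‖ * ‖HA B b v‖) (‖u 0‖ ^ A.natDegree * ‖HA B b v‖) := by
          rw [← max_mul_of_nonneg _ _ (norm_nonneg _)]; ring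
      _ ≤ C1 * (K2 * (‖HA A a u‖ * ‖v‖ ^ B.natDegree)) :=
          mul_le_mul_of_nonneg_left (max_le m1 m2) (by linarith)
      _ = (C1 * K2) * (‖HA A a u‖ * ‖v‖ ^ B.natDegree) := by ring
      _ ≤ _ := by
          refine mul_le_mul_of_nonneg_right ?_ (by positivity)
          have : 0 ≤ C2 * K1 := by positivity
          linarith

/-- the derivative is divisible by the third power of the form -/
theorem HJ_le {A : ℂ[X]} {a : Fin M → ℂ} (hE : Enum A a) {i0 : Fin (M + 1)}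
    (hi0 : 3 ≤ nu A a i0) : ∃ C : ℝ, 1 ≤ C ∧ ∀ u : Fin 2 → ℂ,
      ‖HJ A a u‖ * ‖u‖ ^ 3 ≤ C * (‖ell a i0 u‖ ^ 3 * ‖u‖ ^ (2 * A.natDegree - 2)) := by
  classical
  let n : Fin (M + 1) → ℕ := fun i => if i = i0 then nu A a i0 - 3 else nu A a i
  obtain ⟨C, hC, h⟩ := prod_le a n
  have hsum : ∑ i, n i + 3 = 2 * A.natDegree - 2 := by
    have h1 := hE.hnu
    have h2 : ∑ i, nu A a i = nu A a i0 + ∑ i ∈ Finset.univ.erase i0, nu A a i :=
      (Finset.add_sum_erase Finset.univ _ (Finset.mem_univ i0)).symm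
    have h3 : ∑ i, n i = n i0 + ∑ i ∈ Finset.univ.erase i0, n i :=
      (Finset.add_sum_erase Finset.univ _ (Finset.mem_univ i0)).symm
    have h4 : ∑ i ∈ Finset.univ.erase i0, n i = ∑ i ∈ Finset.univ.erase i0, nu A a i :=
      Finset.sum_congr rfl fun i hi => if_neg (Finset.ne_of_mem_erase hi)
    have h5 : n i0 = nu A a i0 - 3 := if_pos rfl
    omega
  have hprod : ∀ u : Fin 2 → ℂ, ∏ i, ell a i u ^ nu A a i = ell a i0 u ^ 3 * ∏ i, ell a i u ^ n i := by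
    intro u
    rw [← Finset.mul_prod_erase Finset.univ (fun i => ell a i u ^ nu A a i) (Finset.mem_univ i0),
      ← Finset.mul_prod_erase Finset.univ (fun i => ell a i u ^ n i) (Finset.mem_univ i0)]
    have h4 : ∏ i ∈ Finset.univ.erase i0, ell a i u ^ n i =
        ∏ i ∈ Finset.univ.erase i0, ell a i u ^ nu A a i :=
      Finset.prod_congr rfl fun i hi => by
        simp only [n]
        rw [if_neg (Finset.ne_of_mem_erase hi)]
    have h5 : n i0 = nu A a i0 - 3 := if_pos rfl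
    rw [h4, h5, ← mul_assoc, ← pow_add]
    congr 2
    omega
  refine ⟨(1 + ‖A.derivative.leadingCoeff‖) * C,
    one_le_mul_of_one_le_of_one_le (by linarith [norm_nonneg A.derivative.leadingCoeff]) hC,
    fun u => ?_⟩
  unfold HJ
  rw [hprod, norm_mul, norm_mul, norm_pow, Algebra.algebraMap_self, RingHom.id_apply, ← hsum,
    pow_add]
  have h6 : ‖A.derivative.leadingCoeff‖ ≤ 1 + ‖A.derivative.leadingCoeff‖ := by linarith
  calc ‖A.derivative.leadingCoeff‖ * (‖ell a i0 u‖ ^ 3 * ‖∏ i, ell a i u ^ n i‖) * ‖u‖ ^ 3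
      ≤ (1 + ‖A.derivative.leadingCoeff‖) * (‖ell a i0 u‖ ^ 3 * (C * ‖u‖ ^ (∑ i, n i))) *
        ‖u‖ ^ 3 := by
        refine mul_le_mul_of_nonneg_right ?_ (by positivity)
        refine mul_le_mul h6 ?_ (by positivity) (by positivity)
        exact mul_le_mul_of_nonneg_left (h u) (by positivity)
    _ = _ := by ring

/-- **The pointwise bound.** -/
theorem dgn_bound {A B : ℂ[X]} {a : Fin M → ℂ} {b : Fin M' → ℂ} (hE : Enum A a) (hE' : Enum B b)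
    (hA : A ≠ 0) (hB : B ≠ 0) (hp : 1 ≤ A.natDegree) (hq : 1 ≤ B.natDegree) {c c' : ℂ}
    (hc : c ≠ 0) {i0 : Fin (M + 1)}
    (hi0 : 3 ≤ nu A a i0) (hbad : Bad A a B b c c' i0) {κ : ℕ}
    (hκ : 6 * B.natDegree = κ + 5 * A.natDegree) :
    ∃ C : ℝ, 1 ≤ C ∧ ∀ (u v : ℂ → Fin 2 → ℂ) (z : ℂ) (ε K : ℝ), 0 < ε → ε ≤ 1 → 1 ≤ K →
      (∀ w ∈ closedBall z ε, ∀ j, AnalyticAt ℂ (fun w => u w j) w) →
      (∀ w ∈ closedBall z ε, ∀ j, AnalyticAt ℂ (fun w => v w j) w) →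
      Calm (UU a u) z ε K → Calm (UU b v) z ε K → RelV A a B b c c' (u z) (v z) →
      HJ B b (v z) * wr v z * HA A a (u z) ^ 2 = c * (HJ A a (u z) * wr u z) * HA B b (v z) ^ 2 →
      ‖wr v z ^ (2 * B.natDegree) * HA A a (u z) ^ 5‖ * sup (UU a u) z ^ κ *
        sup (UU b v) z ^ B.natDegree ≤
        C * (K / ε) ^ (2 * B.natDegree) *
          (‖ell a i0 (u z)‖ ^ (6 * B.natDegree) * ‖HA B b (v z)‖ ^ 5) := by
  obtain ⟨C1, hC1, h1⟩ := two_est hE hE' hA hB hc c'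
  obtain ⟨C2, hC2, h2⟩ := HJ_le hE hi0
  obtain ⟨C3, hC3, h3⟩ := wr_bound hE.pos hE.inj
  obtain ⟨C4, hC4, h4⟩ := wr_bound hE'.pos hE'.inj
  obtain ⟨C5, hC5, h5⟩ := far hE hE' hbad
  obtain ⟨C6, hC6, h6⟩ := ell_le a
  obtain ⟨C7, hC7, h7⟩ := ell_le b
  set p := A.natDegree with hpd
  set q := B.natDegree with hqd
  -- the bound of the Wronskian
  let Cw : ℝ := C4 * C7 ^ 2 * C5 ^ 3 + C5 * ‖c‖ * C2 * C3 * C6 ^ 2 * C1 ^ 2
  have hCw1 : 1 ≤ Cw := by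
    have e1 : 1 ≤ C4 * C7 ^ 2 * C5 ^ 3 := one_le_mul_of_one_le_of_one_le
      (one_le_mul_of_one_le_of_one_le hC4 (one_le_pow₀ hC7)) (one_le_pow₀ hC5)
    have e2 : 0 ≤ C5 * ‖c‖ * C2 * C3 * C6 ^ 2 * C1 ^ 2 := by positivity
    simp only [Cw]
    linarith
  refine ⟨Cw ^ (2 * q) * C1 ^ 5 * C6 ^ κ * C7 ^ q, ?_, ?_⟩
  · exact one_le_mul_of_one_le_of_one_le (one_le_mul_of_one_le_of_one_le
      (one_le_mul_of_one_le_of_one_le (one_le_pow₀ hCw1) (one_le_pow₀ hC1)) (one_le_pow₀ hC6))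
      (one_le_pow₀ hC7)
  intro u v z ε K hε hε1 hK hu hv hcu hcv hrel hder
  have hzb : z ∈ closedBall z ε := mem_closedBall_self hε.le
  have hKε : 1 ≤ K / ε := by rw [le_div_iff₀ hε]; linarith
  have hKε0 : 0 < K / ε := by linarith
  have hune : u z ≠ 0 := by
    intro h0
    have := hcu.1 0 z hzb
    simp only [UU, ell_zero, h0, Pi.zero_apply, ne_eq, not_true_eq_false] at this
  have hvne : v z ≠ 0 := by
    intro h0
    have := hcv.1 0 z hzb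
    simp only [UU, ell_zero, h0, Pi.zero_apply, ne_eq, not_true_eq_false] at this
  have hu0 : 0 < ‖u z‖ := norm_pos_iff.2 hune
  have hv0 : 0 < ‖v z‖ := norm_pos_iff.2 hvne
  have hHA : HA A a (u z) ≠ 0 := by
    unfold HA
    refine mul_ne_zero (by simpa using leadingCoeff_ne_zero.2 hA) ?_
    exact Finset.prod_ne_zero_iff.2 fun i _ => pow_ne_zero _ (hcu.1 i z hzb)
  have hHA0 : 0 < ‖HA A a (u z)‖ := norm_pos_iff.2 hHA
  have hsu : sup (UU a u) z ≤ C6 * ‖u z‖ := by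
    obtain ⟨i, hi⟩ := sup_attained (UU a u) z
    rw [hi]
    exact h6 i (u z)
  have hsv : sup (UU b v) z ≤ C7 * ‖v z‖ := by
    obtain ⟨i, hi⟩ := sup_attained (UU b v) z
    rw [hi]
    exact h7 i (v z)
  have hsu0 := sup_nonneg (UU a u) z
  have hsv0 := sup_nonneg (UU b v) z
  have hwu : ‖wr u z‖ ≤ C3 * C6 ^ 2 * (K / ε) * ‖u z‖ ^ 2 := by
    refine (h3 u z ε K hε hε1 hK hu hcu).trans ?_
    calc C3 * (K / ε) * sup (UU a u) z ^ 2 ≤ C3 * (K / ε) * (C6 * ‖u z‖) ^ 2 := by gcongr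
      _ = _ := by ring
  have hwv : ‖wr v z‖ ≤ C4 * C7 ^ 2 * (K / ε) * ‖v z‖ ^ 2 := by
    refine (h4 v z ε K hε hε1 hK hv hcv).trans ?_
    calc C4 * (K / ε) * sup (UU b v) z ^ 2 ≤ C4 * (K / ε) * (C7 * ‖v z‖) ^ 2 := by gcongr
      _ = _ := by ring
  obtain ⟨hup, hlow⟩ := h1 _ _ hrel
  -- the main estimate
  have hmain : ‖wr v z‖ * ‖u z‖ ^ 3 ≤ Cw * (K / ε) * (‖ell a i0 (u z)‖ ^ 3 * ‖v z‖ ^ 2) := by
    rcases h5 (u z) (v z) hune hvne hrel with h | h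
    · -- far from the critical points
      have e1 := congrArg norm hder
      simp only [norm_mul, norm_pow] at e1
      have hx : (‖wr v z‖ * ‖u z‖ ^ 3) * (‖v z‖ ^ (2 * q - 2) * ‖HA A a (u z)‖ ^ 2 *
            ‖u z‖ ^ (2 * p)) ≤
          (C5 * ‖c‖ * C2 * C3 * C6 ^ 2 * C1 ^ 2 * (K / ε) *
            (‖ell a i0 (u z)‖ ^ 3 * ‖v z‖ ^ 2)) *
            (‖v z‖ ^ (2 * q - 2) * ‖HA A a (u z)‖ ^ 2 * ‖u z‖ ^ (2 * p)) := by
        have f1 : ‖u z‖ ^ (2 * p) = ‖u z‖ ^ (2 * p - 2) * ‖u z‖ ^ 2 := by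
          rw [← pow_add]; congr 1; omega
        have f2 : ‖v z‖ ^ 2 * ‖v z‖ ^ (2 * q - 2) = (‖v z‖ ^ q) ^ 2 := by
          rw [← pow_add, ← pow_mul]; congr 1; omega
        have f3 : ‖u z‖ ^ (2 * p) = (‖u z‖ ^ p) ^ 2 := by
          rw [← pow_mul]; congr 1; omega
        calc (‖wr v z‖ * ‖u z‖ ^ 3) * (‖v z‖ ^ (2 * q - 2) * ‖HA A a (u z)‖ ^ 2 *
              ‖u z‖ ^ (2 * p))
            ≤ (‖wr v z‖ * ‖u z‖ ^ 3) * ((C5 * ‖HJ B b (v z)‖) * ‖HA A a (u z)‖ ^ 2 *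
              ‖u z‖ ^ (2 * p)) := by gcongr
          _ = C5 * ‖u z‖ ^ 3 * ‖u z‖ ^ (2 * p) *
              (‖HJ B b (v z)‖ * ‖wr v z‖ * ‖HA A a (u z)‖ ^ 2) := by ring
          _ = C5 * ‖u z‖ ^ 3 * ‖u z‖ ^ (2 * p) *
              (‖c‖ * (‖HJ A a (u z)‖ * ‖wr u z‖) * ‖HA B b (v z)‖ ^ 2) := by rw [e1]
          _ = C5 * ‖c‖ * (‖HJ A a (u z)‖ * ‖u z‖ ^ 3) * ‖wr u z‖ *
              (‖u z‖ ^ p * ‖HA B b (v z)‖) ^ 2 := by rw [f3]; ring
          _ ≤ C5 * ‖c‖ * (C2 * (‖ell a i0 (u z)‖ ^ 3 * ‖u z‖ ^ (2 * p - 2))) *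
              (C3 * C6 ^ 2 * (K / ε) * ‖u z‖ ^ 2) *
              (C1 * (‖HA A a (u z)‖ * ‖v z‖ ^ q)) ^ 2 := by
              have g1 := h2 (u z)
              gcongr
          _ = (C5 * ‖c‖ * C2 * C3 * C6 ^ 2 * C1 ^ 2 * (K / ε)) * ‖ell a i0 (u z)‖ ^ 3 *
              (‖u z‖ ^ (2 * p - 2) * ‖u z‖ ^ 2) * ‖HA A a (u z)‖ ^ 2 * (‖v z‖ ^ q) ^ 2 := by ring
          _ = _ := by rw [← f1, ← f2]; ring
      have hpos : 0 < ‖v z‖ ^ (2 * q - 2) * ‖HA A a (u z)‖ ^ 2 * ‖u z‖ ^ (2 * p) := by positivity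
      refine (le_of_mul_le_mul_right hx hpos).trans ?_
      have e2 : 0 ≤ ‖ell a i0 (u z)‖ ^ 3 * ‖v z‖ ^ 2 := by positivity
      refine mul_le_mul_of_nonneg_right ?_ e2
      refine mul_le_mul_of_nonneg_right ?_ hKε0.le
      simp only [Cw]
      have e3 : 0 ≤ C4 * C7 ^ 2 * C5 ^ 3 := by positivity
      linarith
    · calc ‖wr v z‖ * ‖u z‖ ^ 3
          ≤ (C4 * C7 ^ 2 * (K / ε) * ‖v z‖ ^ 2) * (C5 * ‖ell a i0 (u z)‖) ^ 3 := by gcongr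
        _ = (C4 * C7 ^ 2 * C5 ^ 3) * (K / ε) * (‖ell a i0 (u z)‖ ^ 3 * ‖v z‖ ^ 2) := by ring
        _ ≤ _ := by
            refine mul_le_mul_of_nonneg_right ?_ (by positivity)
            refine mul_le_mul_of_nonneg_right ?_ hKε0.le
            simp only [Cw]
            have e2 : 0 ≤ C5 * ‖c‖ * C2 * C3 * C6 ^ 2 * C1 ^ 2 := by positivity
            linarith
  -- the powers
  have hm2 : (‖wr v z‖ * ‖u z‖ ^ 3) ^ (2 * q) ≤
      (Cw * (K / ε) * (‖ell a i0 (u z)‖ ^ 3 * ‖v z‖ ^ 2)) ^ (2 * q) :=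
    pow_le_pow_left₀ (by positivity) hmain _
  have hup5 : (‖HA A a (u z)‖ * ‖v z‖ ^ q) ^ 5 ≤ (C1 * (‖u z‖ ^ p * ‖HA B b (v z)‖)) ^ 5 :=
    pow_le_pow_left₀ (by positivity) hup _
  have hprod := mul_le_mul hm2 hup5 (by positivity) (by positivity)
  have hfin : ‖wr v z‖ ^ (2 * q) * ‖HA A a (u z)‖ ^ 5 * ‖u z‖ ^ κ * ‖v z‖ ^ q ≤
      Cw ^ (2 * q) * C1 ^ 5 * (K / ε) ^ (2 * q) *
        (‖ell a i0 (u z)‖ ^ (6 * q) * ‖HA B b (v z)‖ ^ 5) := by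
    have hpos : 0 < ‖u z‖ ^ (5 * p) * ‖v z‖ ^ (4 * q) := by positivity
    refine le_of_mul_le_mul_right ?_ hpos
    have f1 : (‖wr v z‖ * ‖u z‖ ^ 3) ^ (2 * q) * (‖HA A a (u z)‖ * ‖v z‖ ^ q) ^ 5 =
        ‖wr v z‖ ^ (2 * q) * ‖HA A a (u z)‖ ^ 5 * ‖u z‖ ^ κ * ‖v z‖ ^ q *
          (‖u z‖ ^ (5 * p) * ‖v z‖ ^ (4 * q)) := by
      have g1 : (‖u z‖ ^ 3) ^ (2 * q) = ‖u z‖ ^ κ * ‖u z‖ ^ (5 * p) := by
        rw [← pow_mul, ← pow_add]; congr 1; omega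
      have g2 : (‖v z‖ ^ q) ^ 5 = ‖v z‖ ^ q * ‖v z‖ ^ (4 * q) := by
        rw [← pow_mul, ← pow_add]; congr 1; ring
      rw [mul_pow, mul_pow, g1, g2]
      ring
    rw [← f1]
    refine hprod.trans (le_of_eq ?_)
    have g3 : (‖ell a i0 (u z)‖ ^ 3) ^ (2 * q) = ‖ell a i0 (u z)‖ ^ (6 * q) := by
      rw [← pow_mul]; congr 1; ring
    have g4 : (‖v z‖ ^ 2) ^ (2 * q) = ‖v z‖ ^ (4 * q) := by
      rw [← pow_mul]; congr 1; ring
    have g5 : (‖u z‖ ^ p) ^ 5 = ‖u z‖ ^ (5 * p) := by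
      rw [← pow_mul]; congr 1; ring
    rw [mul_pow, mul_pow, mul_pow, mul_pow, mul_pow, g3, g4, g5]
    ring
  rw [norm_mul, norm_pow, norm_pow]
  calc ‖wr v z‖ ^ (2 * q) * ‖HA A a (u z)‖ ^ 5 * sup (UU a u) z ^ κ * sup (UU b v) z ^ q
      ≤ ‖wr v z‖ ^ (2 * q) * ‖HA A a (u z)‖ ^ 5 * (C6 * ‖u z‖) ^ κ * (C7 * ‖v z‖) ^ q := by gcongr
    _ = C6 ^ κ * C7 ^ q * (‖wr v z‖ ^ (2 * q) * ‖HA A a (u z)‖ ^ 5 * ‖u z‖ ^ κ * ‖v z‖ ^ q) := by
        rw [mul_pow, mul_pow]; ring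
    _ ≤ C6 ^ κ * C7 ^ q * (Cw ^ (2 * q) * C1 ^ 5 * (K / ε) ^ (2 * q) *
        (‖ell a i0 (u z)‖ ^ (6 * q) * ‖HA B b (v z)‖ ^ 5)) :=
        mul_le_mul_of_nonneg_left hfin (by positivity)
    _ = _ := by ring

end Pool.Agent.K9h12.SH
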