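import Pool.Agent.K9h12.SH.Dgn
import Pool.Agent.Y190.AN.Ram

/-!
Meromorphic functions near infinity which share values: all cases.
-/

set_option autoImplicit false

open FF Polynomial Filter Metric Set Topology

namespace Pool.Agent.K9h12.SH

open Pool.Agent.W603.LV Pool.Agent.W602.GT Pool.Agent.W603.BP Pool.Agent.W601.PH
  Pool.Agent.W602.NC Pool.Agent.TH152.HY Pool.Agent.Y190.AN Pool.Agent.K9h12.AX

section classes

variable {D : Dm} {u : ℂ → Fin 2 → ℂ} (hu : ∀ j, MeromorphicOn (fun z => u z j) D.U)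

include hu in
theorem HA_mero {M : ℕ} (A : ℂ[X]) (a : Fin M → ℂ) :
    MeromorphicOn (fun z => HA A a (u z)) D.U := fun z hz =>
  (MeromorphicAt.const _ z).fun_mul (FA_mero hu a (mu A a) z hz)

theorem cl_HA {M : ℕ} (A : ℂ[X]) (a : Fin M → ℂ) (h : MeromorphicOn (fun z => HA A a (u z)) D.U) :
    cl _ h = HA A a (clv hu) := by
  have h1 := cl_fun_mul (MeromorphicOn.const A.leadingCoeff) (FA_mero hu a (mu A a)) h
  rw [show cl (fun z => HA A a (u z)) h = _ from h1, cl_FA hu, cl_fun_const]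
  rfl

include hu in
theorem HJ_mero {M : ℕ} (A : ℂ[X]) (a : Fin M → ℂ) :
    MeromorphicOn (fun z => HJ A a (u z)) D.U := fun z hz =>
  (MeromorphicAt.const _ z).fun_mul (FA_mero hu a (nu A a) z hz)

theorem cl_HJ {M : ℕ} (A : ℂ[X]) (a : Fin M → ℂ) (h : MeromorphicOn (fun z => HJ A a (u z)) D.U) :
    cl _ h = HJ A a (clv hu) := by
  have h1 := cl_fun_mul (MeromorphicOn.const A.derivative.leadingCoeff) (FA_mero hu a (nu A a)) h
  rw [show cl (fun z => HJ A a (u z)) h = _ from h1, cl_FA hu, cl_fun_const]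
  rfl

end classes

theorem HA_an {M : ℕ} {A : ℂ[X]} {a : Fin M → ℂ} {u : ℂ → Fin 2 → ℂ} {z : ℂ}
    (hu : ∀ j, AnalyticAt ℂ (fun w => u w j) z) : AnalyticAt ℂ (fun z => HA A a (u z)) z :=
  analyticAt_const.fun_mul (FA_an hu)

theorem HJ_an {M : ℕ} {A : ℂ[X]} {a : Fin M → ℂ} {u : ℂ → Fin 2 → ℂ} {z : ℂ}
    (hu : ∀ j, AnalyticAt ℂ (fun w => u w j) z) : AnalyticAt ℂ (fun z => HJ A a (u z)) z :=
  analyticAt_const.fun_mul (FA_an hu)

/-- analytic functions with the same class agree -/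
theorem eq_of_cl {D : Dm} {f g : ℂ → ℂ} {hf : MeromorphicOn f D.U} {hg : MeromorphicOn g D.U}
    (h : cl f hf = cl g hg) {z : ℂ} (hz : z ∈ D.U) (haf : AnalyticAt ℂ f z)
    (hag : AnalyticAt ℂ g z) : f z = g z := by
  have h1 := cl_eq.1 h z hz
  exact ((haf.frequently_eq_iff_eventually_eq hag).1 h1.frequently).self_of_nhds

/-- **Proportional values.** -/
theorem an_dgn {A B : ℂ[X]} (hA : A.Separable) (hB : B.Separable)
    (hp : 3 ≤ A.natDegree) (hpq : A.natDegree ≤ B.natDegree)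
    {M M' : ℕ} {a : Fin M → ℂ} {b : Fin M' → ℂ} (hE : Enum A a) (hE' : Enum B b)
    {i0 : Fin (M + 1)} (hi0 : 3 ≤ nu A a i0) {c c' : ℂ} (hc : c ≠ 0)
    (hbad : Bad A a B b c c' i0) {x y : MK (exD 1 one_pos)}
    (hx : MDer (exD 1 one_pos) x ≠ 0) (hy : MDer (exD 1 one_pos) y ≠ 0)
    (hrel : aeval x A = aeval y B * (algebraMap ℂ _ c + algebraMap ℂ _ c' * aeval x A)) :
    x ∈ Minf 1 one_pos ∧ y ∈ Minf 1 one_pos := by
  classical
  have hA0 : A ≠ 0 := by rintro rfl; simp at hp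
  have hq : 3 ≤ B.natDegree := hp.trans hpq
  have hB0 : B ≠ 0 := by rintro rfl; simp at hq
  have hA1 : A.derivative ≠ 0 := by
    intro h0
    have h1 := derivative_eq_zero.1 h0
    omega
  have hB1 : B.derivative ≠ 0 := by
    intro h0
    have h1 := derivative_eq_zero.1 h0
    omega
  obtain ⟨r1, hr1, u, hu, hu1, hu2, hu0, hux⟩ := prim_vec x
  obtain ⟨r2, hr2, v, hv, hv1, hv2, hv0, hvy⟩ := prim_vec y
  set r : ℝ := max r1 r2 with hr
  have hr0 : 1 < r := lt_of_lt_of_le hr1 (le_max_left _ _)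
  have hE1 : Ext r ⊆ Ext r1 := Ext_mono (le_max_left _ _)
  have hE2 : Ext r ⊆ Ext r2 := Ext_mono (le_max_right _ _)
  have hE0 : Ext r ⊆ (exD 1 one_pos).U := Ext_mono hr0.le
  -- the relations
  have rel1 : HA A a (clv hu) * clv hv 0 ^ B.natDegree = HA B b (clv hv) *
      (algebraMap ℂ _ c * clv hu 0 ^ A.natDegree + algebraMap ℂ _ c' * HA A a (clv hu)) := by
    rw [HA_eq hE hA0 hux, HA_eq hE' hB0 hvy]
    linear_combination (clv hu 0 ^ A.natDegree * clv hv 0 ^ B.natDegree) * hrel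
  have rel2 : HJ B b (clv hv) * wrA (MDer (exD 1 one_pos)) (clv hv) * HA A a (clv hu) ^ 2 =
      algebraMap ℂ _ c * (HJ A a (clv hu) * wrA (MDer (exD 1 one_pos)) (clv hu)) *
        HA B b (clv hv) ^ 2 := by
    rw [HA_eq hE hA0 hux, HA_eq hE' hB0 hvy, HJ_eq hE hA1 _ hux, HJ_eq hE' hB1 _ hvy]
    have h1 := der_rel (D := MDer (exD 1 one_pos)) hrel
    have e1 : clv hu 0 ^ (2 * A.natDegree) = (clv hu 0 ^ A.natDegree) ^ 2 := by
      rw [← pow_mul, mul_comm]
    have e2 : clv hv 0 ^ (2 * B.natDegree) = (clv hv 0 ^ B.natDegree) ^ 2 := by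
      rw [← pow_mul, mul_comm]
    rw [e1, e2]
    linear_combination ((clv hu 0 ^ A.natDegree) ^ 2 * (clv hv 0 ^ B.natDegree) ^ 2) * h1
  have hloc : ∀ z (hz : z ∈ Ext r), _ := fun z hz =>
    crv_ord (nice_PL (hE0 hz)) hA hB hp hq hE hE' hi0 hc hbad hu0 hv0 hux hvy
      (prim_at hr1 hu1 hu2 (hE1 hz) (hE0 hz)).1 (prim_at hr1 hu1 hu2 (hE1 hz) (hE0 hz)).2.1
      (prim_at hr1 hu1 hu2 (hE1 hz) (hE0 hz)).2.2 (prim_at hr2 hv1 hv2 (hE2 hz) (hE0 hz)).1
      (prim_at hr2 hv1 hv2 (hE2 hz) (hE0 hz)).2.1 (prim_at hr2 hv1 hv2 (hE2 hz) (hE0 hz)).2.2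
      hx hy rel1 rel2
  obtain ⟨z1, hz1⟩ := Ext_nonempty r
  obtain ⟨κ, hκ⟩ : ∃ κ, 6 * B.natDegree = (κ + 1) + 5 * A.natDegree :=
    ⟨6 * B.natDegree - 5 * A.natDegree - 1, by omega⟩
  obtain ⟨C, hC1, hC⟩ := dgn_bound hE hE' hA0 hB0 (by omega) (by omega) hc hi0 hbad hκ
  have hpos : 0 < r := by linarith
  have hcx := const_of_eq hx
  have hcy := const_of_eq hy
  have hUne : ∀ i, ell a i (clv hu) ≠ 0 := by
    intro i
    refine Fin.cases hu0 (fun k => ?_) i
    rw [ell_ratio hux]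
    exact mul_ne_zero hu0 (sub_ne_zero.2 (hcx _))
  have hVne : ∀ i, ell b i (clv hv) ≠ 0 := by
    intro i
    refine Fin.cases hv0 (fun k => ?_) i
    rw [ell_ratio hvy]
    exact mul_ne_zero hv0 (sub_ne_zero.2 (hcy _))
  have hUc : ∀ i, cl _ (UU_mero hu a i) ≠ 0 := fun i => by rw [cl_UU hu]; exact hUne i
  have hVc : ∀ i, cl _ (UU_mero hv b i) ≠ 0 := fun i => by rw [cl_UU hv]; exact hVne i
  -- the auxiliary function
  have hm1 : MeromorphicOn (fun z => wr v z ^ (2 * B.natDegree)) (exD 1 one_pos).U :=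
    fun z hz => (wr_mero hv z hz).fun_pow _
  have hm2 : MeromorphicOn (fun z => HA A a (u z) ^ 5) (exD 1 one_pos).U :=
    fun z hz => (HA_mero hu A a z hz).fun_pow _
  have hPm : MeromorphicOn (fun z => wr v z ^ (2 * B.natDegree) * HA A a (u z) ^ 5)
      (exD 1 one_pos).U := fun z hz => (hm1 z hz).fun_mul (hm2 z hz)
  have hPc : cl _ hPm = wrA (MDer (exD 1 one_pos)) (clv hv) ^ (2 * B.natDegree) *
      HA A a (clv hu) ^ 5 := by
    rw [cl_fun_mul hm1 hm2, cl_fun_pow (wr_mero hv), cl_fun_pow (HA_mero hu A a), cl_wr hv,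
      cl_HA hu]
  have hPan : ∀ z ∈ Ext r, AnalyticAt ℂ
      (fun z => wr v z ^ (2 * B.natDegree) * HA A a (u z) ^ 5) z := fun z hz =>
    ((wr_an (hv1 z (hE2 hz))).fun_pow _).fun_mul ((HA_an (hu1 z (hE1 hz))).fun_pow _)
  have hP0 : cl _ hPm ≠ 0 := by
    rw [hPc]
    exact mul_ne_zero (pow_ne_zero _ (hloc z1 hz1).2.1) (pow_ne_zero _ (hloc z1 hz1).2.2.1)
  let cA : Fin (M + 1) → ℕ := fun i => if i = i0 then 6 * B.natDegree else 0
  let cB : Fin (M' + 1) → ℕ := fun j => 5 * mu B b j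
  have hcA : ∑ i, cA i = 6 * B.natDegree := by
    simp only [cA]
    rw [Finset.sum_ite_eq' Finset.univ i0, if_pos (Finset.mem_univ _)]
  have hcB : ∑ j, cB j = 5 * B.natDegree := by
    simp only [cB]
    rw [← Finset.mul_sum, hE'.hmu]
  -- the pointwise relations
  have prel : ∀ z ∈ Ext r, RelV A a B b c c' (u z) (v z) := by
    intro z hz
    have hv0p : MeromorphicOn (fun z => v z 0 ^ B.natDegree) (exD 1 one_pos).U :=
      fun z hz => (hv 0 z hz).fun_pow _
    have hl : MeromorphicOn (fun z => HA A a (u z) * v z 0 ^ B.natDegree) (exD 1 one_pos).U :=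
      fun z hz => (HA_mero hu A a z hz).fun_mul (hv0p z hz)
    have hu0p : MeromorphicOn (fun z => u z 0 ^ A.natDegree) (exD 1 one_pos).U :=
      fun z hz => (hu 0 z hz).fun_pow _
    have h1 : MeromorphicOn (fun z => c * u z 0 ^ A.natDegree) (exD 1 one_pos).U :=
      fun z hz => (MeromorphicAt.const _ z).fun_mul (hu0p z hz)
    have h2 : MeromorphicOn (fun z => c' * HA A a (u z)) (exD 1 one_pos).U :=
      fun z hz => (MeromorphicAt.const _ z).fun_mul (HA_mero hu A a z hz)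
    have h3 : MeromorphicOn (fun z => c * u z 0 ^ A.natDegree + c' * HA A a (u z))
      (exD 1 one_pos).U := fun z hz => (h1 z hz).fun_add (h2 z hz)
    have h4 : MeromorphicOn (fun z => HA B b (v z) * (c * u z 0 ^ A.natDegree +
      c' * HA A a (u z))) (exD 1 one_pos).U := fun z hz => (HA_mero hv B b z hz).fun_mul (h3 z hz)
    refine eq_of_cl (hf := hl) (hg := h4) ?_ (hE0 hz)
      ((HA_an (hu1 z (hE1 hz))).fun_mul ((hv1 z (hE2 hz) 0).fun_pow _))
      ((HA_an (hv1 z (hE2 hz))).fun_mul ((analyticAt_const.fun_mul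
        ((hu1 z (hE1 hz) 0).fun_pow _)).fun_add (analyticAt_const.fun_mul
          (HA_an (hu1 z (hE1 hz))))))
    rw [cl_fun_mul (HA_mero hu A a) hv0p, cl_fun_mul (HA_mero hv B b) h3, cl_fun_add h1 h2,
      cl_fun_mul (MeromorphicOn.const c) hu0p, cl_fun_mul (MeromorphicOn.const c')
      (HA_mero hu A a), cl_fun_pow (hv 0), cl_fun_pow (hu 0), cl_HA hu, cl_HA hv, cl_fun_const,
      cl_fun_const]
    exact rel1
  have pder : ∀ z ∈ Ext r, HJ B b (v z) * wr v z * HA A a (u z) ^ 2 =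
      c * (HJ A a (u z) * wr u z) * HA B b (v z) ^ 2 := by
    intro z hz
    have h1 : MeromorphicOn (fun z => HJ B b (v z) * wr v z) (exD 1 one_pos).U :=
      fun z hz => (HJ_mero hv B b z hz).fun_mul (wr_mero hv z hz)
    have h2 : MeromorphicOn (fun z => HA A a (u z) ^ 2) (exD 1 one_pos).U :=
      fun z hz => (HA_mero hu A a z hz).fun_pow _
    have h3 : MeromorphicOn (fun z => HJ B b (v z) * wr v z * HA A a (u z) ^ 2)
      (exD 1 one_pos).U := fun z hz => (h1 z hz).fun_mul (h2 z hz)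
    have h4 : MeromorphicOn (fun z => HJ A a (u z) * wr u z) (exD 1 one_pos).U :=
      fun z hz => (HJ_mero hu A a z hz).fun_mul (wr_mero hu z hz)
    have h5 : MeromorphicOn (fun z => c * (HJ A a (u z) * wr u z)) (exD 1 one_pos).U :=
      fun z hz => (MeromorphicAt.const _ z).fun_mul (h4 z hz)
    have h6 : MeromorphicOn (fun z => HA B b (v z) ^ 2) (exD 1 one_pos).U :=
      fun z hz => (HA_mero hv B b z hz).fun_pow _
    have h7 : MeromorphicOn (fun z => c * (HJ A a (u z) * wr u z) * HA B b (v z) ^ 2)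
      (exD 1 one_pos).U := fun z hz => (h5 z hz).fun_mul (h6 z hz)
    refine eq_of_cl (hf := h3) (hg := h7) ?_ (hE0 hz)
      (((HJ_an (hv1 z (hE2 hz))).fun_mul (wr_an (hv1 z (hE2 hz)))).fun_mul
        ((HA_an (hu1 z (hE1 hz))).fun_pow _))
      ((analyticAt_const.fun_mul ((HJ_an (hu1 z (hE1 hz))).fun_mul (wr_an (hu1 z (hE1 hz))))).fun_mul
        ((HA_an (hv1 z (hE2 hz))).fun_pow _))
    rw [cl_fun_mul h1 h2, cl_fun_mul (HJ_mero hv B b) (wr_mero hv), cl_fun_mul h5 h6,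
      cl_fun_mul (MeromorphicOn.const c) h4, cl_fun_mul (HJ_mero hu A a) (wr_mero hu),
      cl_fun_pow (HA_mero hu A a), cl_fun_pow (HA_mero hv B b), cl_HA hu, cl_HA hv, cl_HJ hu,
      cl_HJ hv, cl_wr hu, cl_wr hv, cl_fun_const]
    exact rel2
  have hmain := two_ext (r0 := r) hpos cA cB (by omega) (by omega)
    (κ := κ + 1) (κ' := B.natDegree) (Nn := 2 * B.natDegree) (Nat.succ_pos _) (by omega) (C1 := C)
    hC1 (U := UU a u) (V := UU b v) (fun i z hz => UU_an (hu1 z (hE1 hz)) i)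
    (fun i z hz => UU_an (hv1 z (hE2 hz)) i)
    (fun i => exists_ne (hUc i) (Ext_open r) hE0 ⟨z1, hz1⟩)
    (fun i => exists_ne (hVc i) (Ext_open r) hE0 ⟨z1, hz1⟩)
    (P := fun z => (((1 + ‖B.leadingCoeff‖ ^ 5)⁻¹ : ℝ) : ℂ) *
      (wr v z ^ (2 * B.natDegree) * HA A a (u z) ^ 5))
    (fun z hz => analyticAt_const.fun_mul (hPan z hz)) ?_ ?_ ?_
  · constructor
    · obtain ⟨R, hR, R0, hR0⟩ := hmain (⟨0, hE.pos⟩ : Fin M).succ 0
      exact minf_of_rel hu0 hux (a := a) ⟨0, hE.pos⟩ (UU_mero hv b 0) (hVc 0) hR hR0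
    · obtain ⟨R, hR, R0, hR0⟩ := hmain 0 (⟨0, hE'.pos⟩ : Fin M').succ
      refine minf_of_rel hv0 hvy (a := b) ⟨0, hE'.pos⟩ (UU_mero hu a 0) (hUc 0) hR
        (R0 := R0) fun z hz => ?_
      have := hR0 z hz
      linear_combination this
  · obtain ⟨z, hz, hz'⟩ := exists_ne (hf := hPm) hP0 (Ext_open r) hE0 ⟨z1, hz1⟩
    refine ⟨z, hz, mul_ne_zero ?_ hz'⟩
    have h2 : ((1 + ‖B.leadingCoeff‖ ^ 5)⁻¹ : ℝ) ≠ 0 := by positivity
    exact_mod_cast h2
  · intro z hz n m hn hm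
    obtain ⟨l1, l2, l3, l4, l5, l6⟩ := hloc z hz
    have h1 : ((∑ i, cA i * n i + ∑ j, cB j * m j : ℕ) : ℕ∞) ≤ analyticOrderAt
        (fun z => wr v z ^ (2 * B.natDegree) * HA A a (u z) ^ 5) z := by
      apply le_order (hf := hPm) (hE0 hz) (hPan z hz)
      rw [hPc, FF.Place.ord_mul _ (pow_ne_zero _ l2) (pow_ne_zero _ l3), FF.Place.ord_pow,
        FF.Place.ord_pow]
      have e1 : ∀ i, (PL (hE0 hz)).ord (ell a i (clv hu)) = n i := fun i => by
        rw [← cl_UU hu a i (UU_mero hu a i)]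
        exact ord_cl (hE0 hz) (UU_an (hu1 z (hE1 hz)) i) (hn i)
      have e2 : ∀ i, (PL (hE0 hz)).ord (ell b i (clv hv)) = m i := fun i => by
        rw [← cl_UU hv b i (UU_mero hv b i)]
        exact ord_cl (hE0 hz) (UU_an (hv1 z (hE2 hz)) i) (hm i)
      have e3 : ∑ i, cA i * n i = 6 * B.natDegree * n i0 := by
        simp only [cA, ite_mul, zero_mul]
        rw [Finset.sum_ite_eq' Finset.univ i0, if_pos (Finset.mem_univ _)]
      have e4 : (PL (hE0 hz)).ord (HA B b (clv hv)) = ∑ j, (mu B b j : ℤ) * m j := by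
        unfold HA
        rw [FF.Place.ord_mul _ ((_root_.map_ne_zero _).2 (leadingCoeff_ne_zero.2 hB0))
          (Finset.prod_ne_zero_iff.2 fun i _ => pow_ne_zero _ (hVne i)),
          FF.Place.ord_const _ (leadingCoeff_ne_zero.2 hB0), zero_add]
        have hprod : ∀ s : Finset (Fin (M' + 1)), (PL (hE0 hz)).ord
            (∏ i ∈ s, ell b i (clv hv) ^ mu B b i) = ∑ i ∈ s, (mu B b i : ℤ) * m i := by
          intro s
          induction s using Finset.induction_on with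
          | empty => simp [FF.Place.ord_one]
          | insert j s hj ih =>
            rw [Finset.prod_insert hj, Finset.sum_insert hj,
              FF.Place.ord_mul _ (pow_ne_zero _ (hVne _))
              (Finset.prod_ne_zero_iff.2 fun i _ => pow_ne_zero _ (hVne i)),
              FF.Place.ord_pow, ih, e2]
        exact hprod _
      have e5 : ∑ j, cB j * m j = 5 * ∑ j, mu B b j * m j := by
        simp only [cB]
        rw [Finset.mul_sum]
        exact Finset.sum_congr rfl fun j _ => by ring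
      rw [e1] at l5
      rw [l6, e4, e3, e5]
      push_cast
      nlinarith
    refine h1.trans ?_
    have h2 : analyticOrderAt (fun z => (((1 + ‖B.leadingCoeff‖ ^ 5)⁻¹ : ℝ) : ℂ) *
      (wr v z ^ (2 * B.natDegree) * HA A a (u z) ^ 5)) z = _ :=
      analyticOrderAt_mul analyticAt_const (hPan z hz)
    rw [h2]
    exact le_add_self
  · intro z ε K hε hε1 hK hball hcu hcv
    have hz : z ∈ Ext r := hball (mem_closedBall_self hε.le)
    have h1 := hC u v z ε K hε hε1 hK (fun w hw => hu1 w (hE1 (hball hw)))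
      (fun w hw => hv1 w (hE2 (hball hw))) hcu hcv (prel z hz) (pder z hz)
    have e1 : ∏ i, ‖UU a u i z‖ ^ cA i = ‖ell a i0 (u z)‖ ^ (6 * B.natDegree) := by
      have h2 : ∀ i, ‖UU a u i z‖ ^ cA i =
          if i = i0 then ‖ell a i0 (u z)‖ ^ (6 * B.natDegree) else 1 := by
        intro i
        simp only [cA]
        split_ifs with h
        · rw [h]; rfl
        · rw [pow_zero]
      simp only [h2]
      rw [Finset.prod_ite_eq' Finset.univ i0, if_pos (Finset.mem_univ _)]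
    have e2 : ‖HA B b (v z)‖ ^ 5 = ‖B.leadingCoeff‖ ^ 5 * ∏ j, ‖UU b v j z‖ ^ cB j := by
      unfold HA
      rw [norm_mul, mul_pow, norm_prod, ← Finset.prod_pow]
      congr 1
      refine Finset.prod_congr rfl fun j _ => ?_
      rw [norm_pow, ← pow_mul]
      simp only [cB, UU]
      rw [mul_comm]
    rw [e1]
    rw [e2] at h1
    set S := ‖ell a i0 (u z)‖ ^ (6 * B.natDegree) with hS
    set T := ∏ j, ‖UU b v j z‖ ^ cB j with hT
    have hS0 : 0 ≤ S := by positivity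
    have hT0 : 0 ≤ T := Finset.prod_nonneg fun i _ => by positivity
    set l := ‖B.leadingCoeff‖ ^ 5 with hl
    have hl0 : 0 ≤ l := by positivity
    have hCp : 0 < C := by linarith
    have e3 : ‖(((1 + l)⁻¹ : ℝ) : ℂ) * (wr v z ^ (2 * B.natDegree) * HA A a (u z) ^ 5)‖ =
        (1 + l)⁻¹ * ‖wr v z ^ (2 * B.natDegree) * HA A a (u z) ^ 5‖ := by
      rw [norm_mul, Complex.norm_real, Real.norm_of_nonneg (by positivity)]
    rw [e3]
    calc (1 + l)⁻¹ * ‖wr v z ^ (2 * B.natDegree) * HA A a (u z) ^ 5‖ * sup (UU a u) z ^ (κ + 1) *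
          sup (UU b v) z ^ B.natDegree
        = (1 + l)⁻¹ * (‖wr v z ^ (2 * B.natDegree) * HA A a (u z) ^ 5‖ *
          sup (UU a u) z ^ (κ + 1) * sup (UU b v) z ^ B.natDegree) := by ring
      _ ≤ (1 + l)⁻¹ * (C * (K / ε) ^ (2 * B.natDegree) * (S * (l * T))) :=
          mul_le_mul_of_nonneg_left h1 (by positivity)
      _ = C * (K / ε) ^ (2 * B.natDegree) * (S * T) * ((1 + l)⁻¹ * l) := by ring
      _ ≤ C * (K / ε) ^ (2 * B.natDegree) * (S * T) * 1 := by
          refine mul_le_mul_of_nonneg_left ?_ (by positivity)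
          rw [inv_mul_le_iff₀ (by linarith)]
          linarith
      _ = _ := by ring

end Pool.Agent.K9h12.SH
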