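import Pool.Agent.K9h12.SH.Crv
import Pool.Agent.W602.GT.Der

/-!
The exceptional curves: the proportionality constants for which all critical values are shared.
-/

set_option autoImplicit false

open FF Polynomial Pool.Agent.W603.LV Pool.Agent.W602.GT

namespace Pool.Agent.K9h12.SH

variable {L : Type} [Field L] [Algebra ℂ L]

theorem der_div_zero (D : Derivation ℂ L L) {f g : L} (hf : f ≠ 0)
    (h : f * D g - D f * g = 0) : D (g / f) = 0 := by
  rw [div_eq_mul_inv, D.leibniz, D.leibniz_inv]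
  simp only [smul_eq_mul]
  field_simp
  linear_combination h

/-- the relation if the Wronskian vanishes -/
theorem rel_of_W {D : Derivation ℂ L L} (hconst : ∀ f, D f = 0 → ∃ c : ℂ, f = algebraMap ℂ L c)
    {A B : ℂ[X]} (hA : A ≠ 0) (hB : B ≠ 0) (hA1 : A.derivative ≠ 0) (hB1 : B.derivative ≠ 0)
    {x y : L} (hx : D x ≠ 0) (hy : D y ≠ 0)
    (hW : W D (aeval x A)⁻¹ (aeval y B)⁻¹ = 0) : ∃ c c' : ℂ, c ≠ 0 ∧
      aeval x A = aeval y B * (algebraMap ℂ L c + algebraMap ℂ L c' * aeval x A) := by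
  have hval : ∀ {z : L} (_ : D z ≠ 0) {Q : ℂ[X]} (_ : Q ≠ 0), aeval z Q ≠ 0 := by
    intro z hz Q hQ h0
    have halg : IsAlgebraic ℂ z := ⟨Q, hQ, h0⟩
    obtain ⟨c, hc⟩ := const_of_algebraic halg
    exact const_of_eq hz c hc
  have ha := hval hx hA
  have hb := hval hy hB
  have hF : ∀ {z : L} (_ : D z ≠ 0) {Q : ℂ[X]} (_ : Q ≠ 0) (_ : Q.derivative ≠ 0),
      D (aeval z Q)⁻¹ ≠ 0 := by
    intro z hz Q hQ hQ1
    rw [D.leibniz_inv, der_poly]
    simp only [smul_eq_mul]
    have h1 := hval hz hQ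
    have h2 := hval hz hQ1
    refine mul_ne_zero ?_ (mul_ne_zero h2 hz)
    exact neg_ne_zero.2 (pow_ne_zero _ (inv_ne_zero h1))
  have hFx := hF hx hA hA1
  have hGy := hF hy hB hB1
  set F := (aeval x A)⁻¹ with hFd
  set G := (aeval y B)⁻¹ with hGd
  have h1 : D (D G / D F) = 0 := der_div_zero D hFx hW
  obtain ⟨c, hc⟩ := hconst _ h1
  have h2 : D G = algebraMap ℂ L c * D F := by
    rw [← hc]
    field_simp
  have h3 : D (G - algebraMap ℂ L c * F) = 0 := by
    rw [map_sub, D.leibniz, D.map_algebraMap, h2]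
    simp
  obtain ⟨c', hc'⟩ := hconst _ h3
  refine ⟨c, c', ?_, ?_⟩
  · rintro rfl
    rw [map_zero, zero_mul] at h2
    exact hGy h2
  · have h4 : G = algebraMap ℂ L c * F + algebraMap ℂ L c' := by
      rw [← hc']; ring
    rw [hFd, hGd] at h4
    field_simp at h4
    linear_combination h4

/-- the derivative of the relation -/
theorem der_rel {D : Derivation ℂ L L} {A B : ℂ[X]} {c c' : ℂ} {x y : L}
    (h : aeval x A = aeval y B * (algebraMap ℂ L c + algebraMap ℂ L c' * aeval x A)) :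
    D (aeval y B) * aeval x A ^ 2 = algebraMap ℂ L c * D (aeval x A) * aeval y B ^ 2 := by
  have h1 := congrArg D h
  rw [D.leibniz, map_add, D.leibniz, D.map_algebraMap, D.map_algebraMap] at h1
  simp only [smul_eq_mul, mul_zero, add_zero, zero_add] at h1
  linear_combination (aeval x A * D (aeval y B) + D (aeval x A) * aeval y B) * h -
    (aeval x A * aeval y B) * h1

variable {M M' : ℕ}

/-- the critical values -/
noncomputable def CV (B : ℂ[X]) : Finset ℂ :=
  insert 0 (B.derivative.roots.toFinset.image fun d => (B.eval d)⁻¹)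

theorem HA_at {A : ℂ[X]} {a : Fin M → ℂ} (hE : Enum A a) (hA : A ≠ 0) {w : Fin 2 → ℂ} {e : ℂ}
    (h : w 1 = w 0 * e) : HA A a w = w 0 ^ A.natDegree * A.eval e := by
  have h1 := HA_eq hE hA (u := w) (x := e) h
  simpa only [Polynomial.coe_aeval_eq_eval] using h1

theorem HA_inf {A : ℂ[X]} {a : Fin M → ℂ} (hE : Enum A a) (hA : A ≠ 0) {w : Fin 2 → ℂ}
    (hw : w ≠ 0) (h : w 0 = 0) : HA A a w ≠ 0 := fun h0 => hw (HA_prim hE hA h0 h)

/-- critical vectors -/
theorem crit_vec {B : ℂ[X]} {b : Fin M' → ℂ} (hE' : Enum B b) (hB : B.Separable) (hB0 : B ≠ 0)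
    (hB1 : B.derivative ≠ 0) {v : Fin 2 → ℂ} (hv : v ≠ 0) (h : HJ B b v = 0) :
    HA B b v ≠ 0 ∧ ∃ w ∈ CV B, v 0 ^ B.natDegree = HA B b v * w := by
  unfold HJ at h
  have h1 := (mul_eq_zero.1 h).resolve_left (by simpa using leadingCoeff_ne_zero.2 hB1)
  obtain ⟨i, -, hi⟩ := Finset.prod_eq_zero_iff.1 h1
  have hn : nu B b i ≠ 0 := by
    intro h0
    rw [h0, pow_zero] at hi
    exact one_ne_zero hi
  have hi' := (pow_eq_zero_iff hn).1 hi
  have hne := HA_ne hB hB0 hE' hn hv hi'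
  refine ⟨hne, ?_⟩
  rcases Fin.eq_zero_or_eq_succ i with rfl | ⟨k, rfl⟩
  · refine ⟨0, Finset.mem_insert_self _ _, ?_⟩
    rw [ell_zero] at hi'
    rw [hi', mul_zero, zero_pow]
    rintro h0
    have h2 := natDegree_der hB1
    omega
  · have h2 : v 1 = v 0 * b k := by
      rw [ell_succ] at hi'
      simp only [Algebra.algebraMap_self, RingHom.id_apply] at hi'
      linear_combination hi'
    have h3 := HA_at hE' hB0 h2
    have h4 : B.eval (b k) ≠ 0 := by
      intro h0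
      rw [h0, mul_zero] at h3
      exact hne h3
    refine ⟨(B.eval (b k))⁻¹, Finset.mem_insert_of_mem (Finset.mem_image.2 ⟨b k, ?_, rfl⟩), ?_⟩
    · rw [Multiset.mem_toFinset, mem_roots hB1]
      exact (rootMultiplicity_pos hB1).1 (Nat.pos_of_ne_zero hn)
    · rw [h3]
      field_simp

/-- a critical point of high multiplicity -/
theorem exists_crit {A : ℂ[X]} {a : Fin M → ℂ} (hE : Enum A a) (hA1 : A.derivative ≠ 0)
    (hp : 2 * kk A + 2 ≤ A.natDegree) : ∃ k : Fin M, 3 ≤ nu A a k.succ := by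
  classical
  by_contra hcon
  push Not at hcon
  have h1 := hE.hnu
  rw [Fin.sum_univ_succ] at h1
  have h2 : nu A a 0 = A.natDegree - 1 := rfl
  have h3 : ∑ k : Fin M, nu A a k.succ ≤ 2 * kk A := by
    have h4 : ∑ k : Fin M, nu A a k.succ =
        ∑ k ∈ Finset.univ.filter (fun k : Fin M => nu A a k.succ ≠ 0), nu A a k.succ := by
      rw [Finset.sum_filter_ne_zero]
    rw [h4]
    have h5 : ∑ k ∈ Finset.univ.filter (fun k : Fin M => nu A a k.succ ≠ 0), nu A a k.succ ≤
        ∑ _k ∈ Finset.univ.filter (fun k : Fin M => nu A a k.succ ≠ 0), 2 :=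
      Finset.sum_le_sum fun k _ => by have := hcon k; omega
    refine h5.trans ?_
    rw [Finset.sum_const, smul_eq_mul, mul_comm]
    refine Nat.mul_le_mul_left 2 ?_
    unfold kk
    refine Finset.card_le_card_of_injOn a (fun k hk => ?_) fun i _ j _ h => hE.inj h
    have hk' : nu A a k.succ ≠ 0 := (Finset.mem_filter.1 (Finset.mem_coe.1 hk)).2
    rw [Finset.mem_coe, Multiset.mem_toFinset, mem_roots hA1]
    exact (rootMultiplicity_pos hA1).1 (Nat.pos_of_ne_zero hk')
  omega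

/-- **The exceptional pairs.** -/
theorem exists_exc {A B : ℂ[X]} (hA : A.Separable) (hB : B.Separable)
    (hp : 2 * kk A + 4 ≤ A.natDegree) (hB1 : B.derivative ≠ 0) {a : Fin M → ℂ} {b : Fin M' → ℂ}
    (hE : Enum A a) (hE' : Enum B b) : ∃ E : Finset (ℂ × ℂ), ∀ c c' : ℂ, c ≠ 0 → (c, c') ∉ E →
      ∃ i0, 3 ≤ nu A a i0 ∧ Bad A a B b c c' i0 := by
  classical
  have hA0 : A ≠ 0 := by rintro rfl; simp at hp
  have hB0 : B ≠ 0 := by rintro rfl; simp at hB1
  have hA1 : A.derivative ≠ 0 := by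
    intro h0
    have h1 := derivative_eq_zero.1 h0
    omega
  obtain ⟨k, hk⟩ := exists_crit hE hA1 (by omega)
  refine ⟨(CV B ×ˢ CV B).image fun w => (A.eval (a k) * (w.1 - w.2), w.2), fun c c' hc hcc => ?_⟩
  by_contra hcon
  push Not at hcon
  have h0 := hcon 0 (by
    have : nu A a 0 = A.natDegree - 1 := rfl
    omega)
  have h1 := hcon k.succ hk
  unfold Bad at h0 h1
  push Not at h0 h1
  obtain ⟨u, v, hu, hv, hl, hJ, hr⟩ := h0
  obtain ⟨u', v', hu', hv', hl', hJ', hr'⟩ := h1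
  obtain ⟨n1, w, hw, hvw⟩ := crit_vec hE' hB hB0 hB1 hv hJ
  obtain ⟨n2, w', hw', hvw'⟩ := crit_vec hE' hB hB0 hB1 hv' hJ'
  rw [ell_zero] at hl
  have e1 : c' = w := by
    have h3 := HA_inf hE hA0 hu hl
    rw [hvw, hl, zero_pow (by omega), mul_zero, zero_add] at hr
    have h4 : HA A a u * HA B b v * (c' - w) = 0 := by linear_combination -hr
    have h5 := (mul_eq_zero.1 h4).resolve_left (mul_ne_zero h3 n1)
    exact sub_eq_zero.1 h5
  have hu2 : u' 1 = u' 0 * a k := by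
    rw [ell_succ] at hl'
    simp only [Algebra.algebraMap_self, RingHom.id_apply] at hl'
    linear_combination hl'
  have e2 : c = A.eval (a k) * (w' - c') := by
    have h3 : u' 0 ≠ 0 := by
      intro h4
      apply hu'
      funext j
      fin_cases j
      · exact h4
      · simp only [Fin.mk_one]
        rw [hu2, h4, zero_mul]
        rfl
    rw [hvw', HA_at hE hA0 hu2] at hr'
    have h4 : (u' 0 ^ A.natDegree * HA B b v') * (c - A.eval (a k) * (w' - c')) = 0 := by
      linear_combination -hr'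
    exact sub_eq_zero.1 ((mul_eq_zero.1 h4).resolve_left (mul_ne_zero (pow_ne_zero _ h3) n2))
  exact hcc (Finset.mem_image.2 ⟨(w', w), Finset.mem_product.2 ⟨hw', hw⟩, by rw [e2, e1]⟩)

/-- **The exceptional curves.** -/
theorem exists_H {A B : ℂ[X]} (hA : A.Separable) (hB : B.Separable) (hp : 1 ≤ A.natDegree)
    (hq : 1 ≤ B.natDegree) (E E' : Finset (ℂ × ℂ)) : ∃ H : MvPolynomial (Fin 2) ℂ, H ≠ 0 ∧
      ∀ (L : Type) [Field L] [Algebra ℂ L] (x : Fin 2 → L), MvPolynomial.aeval x H ≠ 0 →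
        aeval (x 0) A ≠ 0 ∧ aeval (x 1) B ≠ 0 ∧
        (∀ c c' : ℂ, c ≠ 0 → (c, c') ∈ E → aeval (x 0) A ≠
          aeval (x 1) B * (algebraMap ℂ L c + algebraMap ℂ L c' * aeval (x 0) A)) ∧
        (∀ c c' : ℂ, c ≠ 0 → (c, c') ∈ E' → aeval (x 1) B ≠
          aeval (x 0) A * (algebraMap ℂ L c + algebraMap ℂ L c' * aeval (x 1) B)) := by
  classical
  have hA0 : A ≠ 0 := by rintro rfl; simp at hp
  have hB0 : B ≠ 0 := by rintro rfl; simp at hq
  let fA : MvPolynomial (Fin 2) ℂ := aeval (MvPolynomial.X 0) A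
  let fB : MvPolynomial (Fin 2) ℂ := aeval (MvPolynomial.X 1) B
  have vA : ∀ {L : Type} [Field L] [Algebra ℂ L] (x : Fin 2 → L),
      MvPolynomial.aeval x fA = aeval (x 0) A := by
    intro L _ _ x
    simp only [fA]
    rw [← Polynomial.aeval_algHom_apply, MvPolynomial.aeval_X]
  have vB : ∀ {L : Type} [Field L] [Algebra ℂ L] (x : Fin 2 → L),
      MvPolynomial.aeval x fB = aeval (x 1) B := by
    intro L _ _ x
    simp only [fB]
    rw [← Polynomial.aeval_algHom_apply, MvPolynomial.aeval_X]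
  let r : ℂ × ℂ → MvPolynomial (Fin 2) ℂ := fun e =>
    fA - fB * (MvPolynomial.C e.1 + MvPolynomial.C e.2 * fA)
  let r' : ℂ × ℂ → MvPolynomial (Fin 2) ℂ := fun e =>
    fB - fA * (MvPolynomial.C e.1 + MvPolynomial.C e.2 * fB)
  obtain ⟨α, hα⟩ := IsAlgClosed.exists_root A (by
    rw [degree_eq_natDegree hA0]
    exact_mod_cast (by omega : A.natDegree ≠ 0))
  obtain ⟨β, hβ⟩ := IsAlgClosed.exists_root B (by
    rw [degree_eq_natDegree hB0]
    exact_mod_cast (by omega : B.natDegree ≠ 0))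
  have hnz : ∀ {Q : ℂ[X]}, Q ≠ 0 → ∃ t : ℂ, Q.eval t ≠ 0 := by
    intro Q hQ
    by_contra hcon
    push Not at hcon
    exact hQ (Polynomial.funext fun t => by rw [hcon t, eval_zero])
  obtain ⟨α', hα'⟩ := hnz hA0
  obtain ⟨β', hβ'⟩ := hnz hB0
  have rne : ∀ e : ℂ × ℂ, e.1 ≠ 0 → r e ≠ 0 := by
    intro e he h0
    have h1 := congrArg (MvPolynomial.aeval ![α, β']) h0
    simp only [r, map_sub, map_mul, map_add, vA, vB, map_zero] at h1
    simp only [Matrix.cons_val_zero, Matrix.cons_val_one, coe_aeval_eq_eval, IsRoot.def.1 hα,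
      MvPolynomial.aeval_C, Algebra.algebraMap_self, RingHom.id_apply, mul_zero, add_zero,
      zero_sub, neg_eq_zero] at h1
    exact mul_ne_zero hβ' he h1
  have rne' : ∀ e : ℂ × ℂ, e.1 ≠ 0 → r' e ≠ 0 := by
    intro e he h0
    have h1 := congrArg (MvPolynomial.aeval ![α', β]) h0
    simp only [r', map_sub, map_mul, map_add, vA, vB, map_zero] at h1
    simp only [Matrix.cons_val_zero, Matrix.cons_val_one, coe_aeval_eq_eval, IsRoot.def.1 hβ,
      MvPolynomial.aeval_C, Algebra.algebraMap_self, RingHom.id_apply, mul_zero, add_zero,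
      zero_sub, neg_eq_zero] at h1
    exact mul_ne_zero hα' he h1
  have fAne : fA ≠ 0 := by
    intro h0
    have h1 := congrArg (MvPolynomial.aeval ![α', β]) h0
    rw [vA, map_zero] at h1
    exact hα' (by simpa using h1)
  have fBne : fB ≠ 0 := by
    intro h0
    have h1 := congrArg (MvPolynomial.aeval ![α', β']) h0
    rw [vB, map_zero] at h1
    exact hβ' (by simpa using h1)
  refine ⟨fA * fB * ((∏ e ∈ E.filter (fun e => e.1 ≠ 0), r e) *
    ∏ e ∈ E'.filter (fun e => e.1 ≠ 0), r' e), ?_, ?_⟩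
  · refine mul_ne_zero (mul_ne_zero fAne fBne) (mul_ne_zero ?_ ?_)
    · exact Finset.prod_ne_zero_iff.2 fun e he => rne e (Finset.mem_filter.1 he).2
    · exact Finset.prod_ne_zero_iff.2 fun e he => rne' e (Finset.mem_filter.1 he).2
  · intro L _ _ x hx
    simp only [map_mul, map_prod, vA, vB] at hx
    obtain ⟨h1, h2⟩ := mul_ne_zero_iff.1 hx
    obtain ⟨h3, h4⟩ := mul_ne_zero_iff.1 h1
    obtain ⟨h5, h6⟩ := mul_ne_zero_iff.1 h2
    refine ⟨h3, h4, fun c c' hc hcc h0 => ?_, fun c c' hc hcc h0 => ?_⟩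
    · refine Finset.prod_ne_zero_iff.1 h5 (c, c') (Finset.mem_filter.2 ⟨hcc, hc⟩) ?_
      simp only [r, map_sub, map_mul, map_add, vA, vB, MvPolynomial.aeval_C]
      rw [sub_eq_zero]
      exact h0
    · refine Finset.prod_ne_zero_iff.1 h6 (c, c') (Finset.mem_filter.2 ⟨hcc, hc⟩) ?_
      simp only [r', map_sub, map_mul, map_add, vA, vB, MvPolynomial.aeval_C]
      rw [sub_eq_zero]
      exact h0

end Pool.Agent.K9h12.SH
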