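import Pool.Agent.W602.GT.Loc
import Mathlib.Analysis.Complex.Polynomial.Basic

/-!
Local estimates for derivations at a place: the Wronskian of two functions.
-/

set_option autoImplicit false

open FF Polynomial Pool.Agent.W603.LV Pool.Agent.W602.GT

namespace Pool.Agent.K9h12.SH

variable {L : Type} [Field L] [Algebra ℂ L] {P : Place ℂ L} {D : Derivation ℂ L L}

/-- a place of degree one with the derivation with respect to a uniformizer -/
structure Nice (P : Place ℂ L) (D : Derivation ℂ L L) : Prop where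
  reg : ∀ f, Ge P 0 f → Ge P 0 (D f)
  uni : ∃ π, P.ord π = 1 ∧ D π = 1
  res : ∀ f, Ge P 0 f → ∃ c : ℂ, Ge P 1 (f - algebraMap ℂ L c)

theorem cast_ord (P : Place ℂ L) {n : ℤ} (hn : n ≠ 0) : ((n : L) ≠ 0) ∧ P.ord (n : L) = 0 := by
  have h1 : ((n : ℂ)) ≠ 0 := Int.cast_ne_zero.2 hn
  have h2 : (n : L) = algebraMap ℂ L (n : ℂ) := by rw [map_intCast]
  rw [h2]
  exact ⟨(_root_.map_ne_zero _).2 h1, P.ord_const h1⟩

theorem Nice.ord_der (h : Nice P D) {f : L} (hf : f ≠ 0) (ho : P.ord f ≠ 0) :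
    D f ≠ 0 ∧ P.ord (D f) = P.ord f - 1 := by
  obtain ⟨π, hπ, hDπ⟩ := h.uni
  have hπ0 : π ≠ 0 := by
    rintro rfl
    rw [P.ord_zero] at hπ; omega
  obtain ⟨u, hu, hu0, hfu, hlog⟩ := logder_eq P D hπ hf
  obtain ⟨hn0, hno⟩ := cast_ord P ho
  have h1 : Ge P 0 (D u / u) := ge_logder_reg (fun f hf => h.reg f hf) hu hu0
  have h2 : ((P.ord f : ℤ) : L) * (D π / π) ≠ 0 := by
    rw [hDπ]
    exact mul_ne_zero hn0 (div_ne_zero one_ne_zero hπ0)
  have h3 : P.ord (((P.ord f : ℤ) : L) * (D π / π)) = -1 := by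
    rw [hDπ, P.ord_mul hn0 (div_ne_zero one_ne_zero hπ0), hno, P.ord_div one_ne_zero hπ0,
      P.ord_one, hπ]
    ring
  have h4 : D f / f ≠ 0 ∧ P.ord (D f / f) = -1 := by
    rw [hlog]
    by_cases h5 : D u / u = 0
    · rw [h5, zero_add]
      exact ⟨h2, h3⟩
    · have h6 := h1.resolve_left h5
      have h7 := P.ord_add_eq h2 h5 (by rw [h3]; omega)
      rw [add_comm]
      exact ⟨h7.1, h7.2.trans h3⟩
  have h5 : D f = D f / f * f := by field_simp
  have h6 : D f ≠ 0 := fun h0 => h4.1 (by rw [h0, zero_div])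
  refine ⟨h6, ?_⟩
  rw [h5, P.ord_mul h4.1 hf, h4.2]
  ring

theorem Nice.ge_der (h : Nice P D) {f : L} {n : ℤ} (hf : Ge P n f) : Ge P (n - 1) (D f) := by
  rcases hf with rfl | hf
  · rw [map_zero]; exact Ge.zero
  by_cases hf0 : f = 0
  · rw [hf0, map_zero]; exact Ge.zero
  by_cases ho : P.ord f = 0
  · exact (h.reg f (Or.inr ho.ge)).mono (by omega)
  · have := h.ord_der hf0 ho
    exact Or.inr (by omega)

theorem Nice.elim (h : Nice P D) {f g : L} (hg : g ≠ 0) (hf : Ge P (P.ord g) f) :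
    ∃ c : ℂ, Ge P (P.ord g + 1) (f - algebraMap ℂ L c * g) := by
  obtain ⟨c, hc⟩ := h.res (f / g) (by simpa using ge_div hg hf)
  refine ⟨c, ?_⟩
  have h1 : f - algebraMap ℂ L c * g = g * (f / g - algebraMap ℂ L c) := by
    field_simp
  rw [h1]
  exact (ge_ord P g).mul hc

/-- the Wronskian of `1, f, g` -/
def W (D : Derivation ℂ L L) (f g : L) : L := D f * D (D g) - D (D f) * D g

theorem Nice.W_ge (h : Nice P D) {f g : L} {n m : ℤ} (hf : Ge P n (D f)) (hg : Ge P m (D g)) :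
    Ge P (n + m - 1) (W D f g) := by
  have h1 := hf.mul (h.ge_der hg)
  have h2 := (h.ge_der hf).mul hg
  exact (h1.mono (by omega)).sub (h2.mono (by omega))

theorem Nice.W_eq (h : Nice P D) {f g : L} {n : ℤ} (hf0 : D f ≠ 0) (hf : P.ord (D f) = n)
    (hg : Ge P n (D g)) : Ge P (2 * n) (W D f g) := by
  obtain ⟨c, hc⟩ := h.elim hf0 (by rw [hf]; exact hg)
  rw [hf] at hc
  obtain ⟨r, hr⟩ : ∃ r, r = D g - algebraMap ℂ L c * D f := ⟨_, rfl⟩
  rw [← hr] at hc
  have h1 : D g = algebraMap ℂ L c * D f + r := by rw [hr]; ring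
  have h2 : W D f g = D f * D r - D (D f) * r := by
    unfold W
    rw [h1, map_add, D.leibniz, D.map_algebraMap]
    simp only [smul_eq_mul, mul_zero, add_zero]
    ring
  rw [h2]
  have h3 : Ge P n (D f) := Or.inr hf.ge
  exact ((h3.mul (h.ge_der hc)).mono (by omega)).sub (((h.ge_der h3).mul hc).mono (by omega))

theorem Nice.W_one (h : Nice P D) {f g : L} (hf0 : f ≠ 0) (hf : P.ord f = -1)
    (hg : Ge P (-1) g) : Ge P (-3) (W D f g) := by
  obtain ⟨c, hc⟩ := h.elim hf0 (by rw [hf]; exact hg)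
  rw [hf] at hc
  obtain ⟨r, hr⟩ : ∃ r, r = g - algebraMap ℂ L c * f := ⟨_, rfl⟩
  rw [← hr] at hc
  have h1 : g = algebraMap ℂ L c * f + r := by rw [hr]; ring
  have h2 : W D f g = D f * D (D r) - D (D f) * D r := by
    unfold W
    rw [h1, map_add, D.leibniz, D.map_algebraMap]
    simp only [smul_eq_mul, mul_zero, add_zero, map_add, D.leibniz, D.map_algebraMap]
    ring
  rw [h2]
  have hf' : Ge P (-1) f := Or.inr hf.ge
  have hr0 : Ge P 0 r := hc.mono (by omega)
  exact (((h.ge_der hf').mul (h.reg _ (h.reg _ hr0))).mono (by omega)).sub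
    (((h.ge_der (h.ge_der hf')).mul (h.reg _ hr0)).mono (by omega))

/-- the order of the value of a polynomial -/
theorem ord_poly (P : Place ℂ L) {x : L} (hx : ∀ c : ℂ, x ≠ algebraMap ℂ L c) {Q : ℂ[X]}
    (hQ : Q ≠ 0) : aeval x Q ≠ 0 ∧
      P.ord (aeval x Q) = (Q.roots.map fun c => P.ord (x - algebraMap ℂ L c)).sum := by
  have hcard : Q.roots.card = Q.natDegree := (IsAlgClosed.splits Q).natDegree_eq_card_roots.symm
  have h1 := C_leadingCoeff_mul_prod_multiset_X_sub_C hcard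
  have h2 : ∀ s : Multiset ℂ, ((s.map fun c => x - algebraMap ℂ L c).prod ≠ 0) ∧
      P.ord (s.map fun c => x - algebraMap ℂ L c).prod =
        (s.map fun c => P.ord (x - algebraMap ℂ L c)).sum := by
    intro s
    induction s using Multiset.induction_on with
    | empty => simp [P.ord_one]
    | cons a s ih =>
      rw [Multiset.map_cons, Multiset.prod_cons, Multiset.map_cons, Multiset.sum_cons]
      have h3 : x - algebraMap ℂ L a ≠ 0 := sub_ne_zero.2 (hx a)
      exact ⟨mul_ne_zero h3 ih.1, by rw [P.ord_mul h3 ih.1, ih.2]⟩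
  have h3 : aeval x Q = algebraMap ℂ L Q.leadingCoeff *
      (Q.roots.map fun c => x - algebraMap ℂ L c).prod := by
    conv_lhs => rw [← h1]
    rw [map_mul, aeval_C, map_multiset_prod, Multiset.map_map]
    congr 2
    refine Multiset.map_congr rfl fun c _ => ?_
    simp
  have h4 : algebraMap ℂ L Q.leadingCoeff ≠ 0 := (_root_.map_ne_zero _).2 (leadingCoeff_ne_zero.2 hQ)
  rw [h3]
  exact ⟨mul_ne_zero h4 (h2 _).1, by
    rw [P.ord_mul h4 (h2 _).1, P.ord_const (leadingCoeff_ne_zero.2 hQ), (h2 _).2, zero_add]⟩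

/-- at a pole -/
theorem ord_poly_inf (P : Place ℂ L) {x : L} (hx : ∀ c : ℂ, x ≠ algebraMap ℂ L c) {Q : ℂ[X]}
    (hQ : Q ≠ 0) {ρ : ℤ} (hρ : P.ord x = -ρ) (h0 : 0 < ρ) :
    P.ord (aeval x Q) = -(Q.natDegree * ρ) := by
  have hcard : Q.roots.card = Q.natDegree := (IsAlgClosed.splits Q).natDegree_eq_card_roots.symm
  rw [(ord_poly P hx hQ).2, ← hcard]
  have h1 : ∀ c : ℂ, P.ord (x - algebraMap ℂ L c) = -ρ := by
    intro c
    by_cases hc : c = 0
    · rw [hc, map_zero, sub_zero, hρ]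
    · have hx0 : x ≠ 0 := by
        intro h
        exact hx 0 (by rw [h, map_zero])
      have hc' : -algebraMap ℂ L c ≠ 0 := neg_ne_zero.2 ((_root_.map_ne_zero _).2 hc)
      rw [sub_eq_add_neg, (P.ord_add_eq hx0 hc' (by
        rw [P.ord_neg, P.ord_const hc, hρ]; omega)).2, hρ]
  simp only [h1]
  rw [Multiset.map_const', Multiset.sum_replicate]
  simp

/-- at a point -/
theorem ord_poly_fin (P : Place ℂ L) {x : L} (hx : ∀ c : ℂ, x ≠ algebraMap ℂ L c) {Q : ℂ[X]}
    (hQ : Q ≠ 0) {c : ℂ} {ρ : ℤ} (hρ : P.ord (x - algebraMap ℂ L c) = ρ) (h0 : 0 < ρ) :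
    P.ord (aeval x Q) = Q.rootMultiplicity c * ρ := by
  classical
  rw [(ord_poly P hx hQ).2]
  have h1 : ∀ c' : ℂ, P.ord (x - algebraMap ℂ L c') = if c' = c then ρ else 0 := by
    intro c'
    split_ifs with h
    · rw [h, hρ]
    · have h2 : algebraMap ℂ L (c - c') ≠ 0 := (_root_.map_ne_zero _).2 (sub_ne_zero.2 fun h' => h h'.symm)
      have h3 : x - algebraMap ℂ L c' = algebraMap ℂ L (c - c') + (x - algebraMap ℂ L c) := by
        rw [map_sub]; ring
      rw [h3, (P.ord_add_eq h2 (sub_ne_zero.2 (hx c)) (by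
        rw [P.ord_const (sub_ne_zero.2 fun h' => h h'.symm), hρ]; exact h0)).2,
        P.ord_const (sub_ne_zero.2 fun h' => h h'.symm)]
  simp only [h1]
  have h2 : ∀ s : Multiset ℂ, (s.map fun c' => if c' = c then ρ else 0).sum = s.count c * ρ := by
    intro s
    induction s using Multiset.induction_on with
    | empty => simp
    | cons a s ih =>
      rw [Multiset.map_cons, Multiset.sum_cons, ih, Multiset.count_cons]
      by_cases h : a = c
      · rw [if_pos h, if_pos h.symm]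
        push_cast
        ring
      · rw [if_neg h, if_neg (fun h' => h h'.symm), zero_add, Nat.add_zero]
  rw [h2, count_roots]

end Pool.Agent.K9h12.SH
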