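import Pool.Agent.K9h12.SH.Loc

/-!
The order of the jet differential of the shared values at a place.
-/

set_option autoImplicit false

open FF Polynomial Pool.Agent.W603.LV Pool.Agent.W602.GT

namespace Pool.Agent.K9h12.SH

/-- the number of the critical points -/
noncomputable def kk (A : ℂ[X]) : ℕ := A.derivative.roots.toFinset.card

/-- the product of the powers of the factors of the derivative -/
noncomputable def RR (A : ℂ[X]) : ℂ[X] :=
  ∏ e ∈ A.derivative.roots.toFinset, (X - C e) ^ (2 * (A.derivative.rootMultiplicity e - 1))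

theorem RR_ne (A : ℂ[X]) : RR A ≠ 0 :=
  Finset.prod_ne_zero_iff.2 fun e _ => pow_ne_zero _ (X_sub_C_ne_zero e)

theorem natDegree_der {A : ℂ[X]} (hA : A.derivative ≠ 0) :
    A.derivative.natDegree + 1 = A.natDegree := by
  have h4 : A.natDegree ≠ 0 := by
    intro h0
    apply hA
    rw [eq_C_of_natDegree_eq_zero h0, derivative_C]
  have h5 := natDegree_derivative_le A
  have h6 : A.natDegree - 1 ≤ A.derivative.natDegree := by
    apply le_natDegree_of_ne_zero
    rw [coeff_derivative, Nat.sub_add_cancel (Nat.pos_of_ne_zero h4)]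
    refine mul_ne_zero ?_ ?_
    · rw [coeff_natDegree]
      intro h7
      rw [leadingCoeff_eq_zero] at h7
      rw [h7] at h4
      exact h4 natDegree_zero
    · have h7 : ((A.natDegree - 1 : ℕ) : ℂ) + 1 = ((A.natDegree - 1 + 1 : ℕ) : ℂ) := by
        push_cast; rfl
      rw [h7, Nat.cast_ne_zero]
      omega
  omega

theorem RR_deg {A : ℂ[X]} (hA : A.derivative ≠ 0) :
    (RR A).natDegree + 2 * kk A + 2 = 2 * A.natDegree := by
  classical
  have h1 : (RR A).natDegree = ∑ e ∈ A.derivative.roots.toFinset,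
      (2 * (A.derivative.rootMultiplicity e - 1)) := by
    unfold RR
    rw [natDegree_prod _ _ fun e _ => pow_ne_zero _ (X_sub_C_ne_zero e)]
    refine Finset.sum_congr rfl fun e _ => ?_
    rw [natDegree_pow, natDegree_X_sub_C, mul_one]
  have h2 : ∑ e ∈ A.derivative.roots.toFinset, A.derivative.rootMultiplicity e =
      A.derivative.natDegree := by
    rw [(IsAlgClosed.splits A.derivative).natDegree_eq_card_roots,
      ← Multiset.toFinset_sum_count_eq]
    exact Finset.sum_congr rfl fun e _ => by rw [count_roots]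
  have h3 := natDegree_der hA
  have h4 : ∑ e ∈ A.derivative.roots.toFinset, (2 * (A.derivative.rootMultiplicity e - 1)) +
      2 * kk A = 2 * A.derivative.natDegree := by
    rw [← h2, Finset.mul_sum, kk, Finset.card_eq_sum_ones, Finset.mul_sum,
      ← Finset.sum_add_distrib]
    refine Finset.sum_congr rfl fun e he => ?_
    have h5 : 0 < A.derivative.rootMultiplicity e := by
      rw [rootMultiplicity_pos hA]
      exact isRoot_of_mem_roots (Multiset.mem_toFinset.1 he)
    omega
  omega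

theorem RR_mult {A : ℂ[X]} (hA : A.derivative ≠ 0) (c : ℂ) :
    (RR A).rootMultiplicity c = 2 * (A.derivative.rootMultiplicity c - 1) := by
  classical
  have h1 : ∀ s : Finset ℂ, (∏ e ∈ s, (X - C e) ^ (2 * (A.derivative.rootMultiplicity e - 1)) :
      ℂ[X]).rootMultiplicity c = if c ∈ s then 2 * (A.derivative.rootMultiplicity c - 1) else 0 := by
    intro s
    induction s using Finset.induction_on with
    | empty => simp
    | insert a s ha ih =>
      have hne : (∏ e ∈ insert a s, (X - C e) ^ (2 * (A.derivative.rootMultiplicity e - 1)) :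
          ℂ[X]) ≠ 0 := Finset.prod_ne_zero_iff.2 fun e _ => pow_ne_zero _ (X_sub_C_ne_zero e)
      rw [Finset.prod_insert ha] at hne ⊢
      rw [rootMultiplicity_mul hne, ih]
      by_cases h : a = c
      · subst h
        rw [rootMultiplicity_X_sub_C_pow, if_neg ha, if_pos (Finset.mem_insert_self a s), add_zero]
      · rw [← count_roots, roots_pow, roots_X_sub_C, Multiset.count_nsmul,
          Multiset.count_singleton, if_neg (fun h' => h h'.symm), mul_zero, zero_add]
        by_cases h' : c ∈ s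
        · rw [if_pos h', if_pos (Finset.mem_insert_of_mem h')]
        · rw [if_neg h', if_neg]
          rw [Finset.mem_insert]
          rintro (h'' | h'')
          · exact h h''.symm
          · exact h' h''
  unfold RR
  rw [h1]
  split_ifs with h
  · rfl
  · have h2 : A.derivative.rootMultiplicity c = 0 := by
      by_contra h3
      apply h
      rw [Multiset.mem_toFinset, mem_roots hA]
      exact (rootMultiplicity_pos hA).1 (Nat.pos_of_ne_zero h3)
    rw [h2]

variable {L : Type} [Field L] [Algebra ℂ L] {P : Place ℂ L} {D : Derivation ℂ L L}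

theorem der_poly (D : Derivation ℂ L L) (x : L) (A : ℂ[X]) :
    D (aeval x A) = aeval x A.derivative * D x := by
  rw [D.map_aeval]
  rfl

/-- the part of the jet differential belonging to `x` -/
noncomputable def EE (D : Derivation ℂ L L) (A : ℂ[X]) (x : L) (i : ℕ) : L :=
  D x ^ 3 * aeval x A ^ 3 / aeval x (RR A) * x ^ i

/-- the orders belonging to `x` -/
def XD (P : Place ℂ L) (D : Derivation ℂ L L) (A : ℂ[X]) (x : L) (f E : ℤ) : Prop :=
  (Ge P 0 x ∧ P.ord (aeval x A) = 1 ∧ f = -2 ∧ E = 3) ∨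
  (Ge P 0 x ∧ 2 ≤ P.ord (aeval x A) ∧ 3 ≤ 2 * f + E) ∨
  (Ge P 0 x ∧ P.ord (aeval x A) = 0 ∧ f = 0 ∧ 0 ≤ E) ∨
  (Ge P 0 x ∧ P.ord (aeval x A) = 0 ∧ 2 ≤ 2 * f + E) ∨
  (¬ Ge P 0 x ∧ 3 ≤ 2 * f + E)

theorem const_of_eq {D : Derivation ℂ L L} {x : L} (hx : D x ≠ 0) (c : ℂ) :
    x ≠ algebraMap ℂ L c := by
  rintro rfl
  exact hx (D.map_algebraMap c)

theorem xdata (h : Nice P D) {A : ℂ[X]} (hA : A.Separable) {x : L} (hx : D x ≠ 0) {i : ℕ}
    (hi : 2 * kk A + 13 + i ≤ A.natDegree) :
    ∃ f E : ℤ, D (aeval x A)⁻¹ ≠ 0 ∧ P.ord (D (aeval x A)⁻¹) = f ∧ Ge P E (EE D A x i) ∧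
      XD P D A x f E := by
  have hA0 : A ≠ 0 := by
    rintro rfl
    simp at hi
  have hA1 : A.derivative ≠ 0 := by
    intro h0
    have h1 := derivative_eq_zero.1 h0
    omega
  have hc := const_of_eq hx
  have ha := ord_poly P hc hA0
  have ha1 := ord_poly P hc hA1
  have hr := ord_poly P hc (RR_ne A)
  have hx0 : x ≠ 0 := fun h0 => hc 0 (by rw [h0, map_zero])
  have hF : D (aeval x A)⁻¹ = -(aeval x A.derivative * D x / aeval x A ^ 2) := by
    rw [D.leibniz_inv, der_poly]
    simp only [smul_eq_mul]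
    field_simp
  have hFne : aeval x A.derivative * D x / aeval x A ^ 2 ≠ 0 :=
    div_ne_zero (mul_ne_zero ha1.1 hx) (pow_ne_zero _ ha.1)
  have hFord : P.ord (D (aeval x A)⁻¹) = P.ord (aeval x A.derivative) + P.ord (D x) -
      2 * P.ord (aeval x A) := by
    rw [hF, P.ord_neg, P.ord_div (mul_ne_zero ha1.1 hx) (pow_ne_zero _ ha.1),
      P.ord_mul ha1.1 hx, P.ord_pow]
    push_cast
    ring
  have hE : P.ord (EE D A x i) = 3 * P.ord (D x) + 3 * P.ord (aeval x A) -
      P.ord (aeval x (RR A)) + i * P.ord x := by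
    unfold EE
    rw [P.ord_mul (div_ne_zero (mul_ne_zero (pow_ne_zero _ hx) (pow_ne_zero _ ha.1)) hr.1)
      (pow_ne_zero _ hx0), P.ord_div (mul_ne_zero (pow_ne_zero _ hx) (pow_ne_zero _ ha.1)) hr.1,
      P.ord_mul (pow_ne_zero _ hx) (pow_ne_zero _ ha.1), P.ord_pow, P.ord_pow, P.ord_pow]
    push_cast
    ring
  have hEE : Ge P (P.ord (EE D A x i)) (EE D A x i) := ge_ord P _
  have hne : D (aeval x A)⁻¹ ≠ 0 := by
    rw [hF]
    exact neg_ne_zero.2 hFne
  by_cases hfin : Ge P 0 x
  · obtain ⟨c, hc1⟩ := h.res x hfin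
    have hxc : x - algebraMap ℂ L c ≠ 0 := sub_ne_zero.2 (hc c)
    have hρ := hc1.resolve_left hxc
    obtain ⟨ρ, hρd⟩ : ∃ ρ, ρ = P.ord (x - algebraMap ℂ L c) := ⟨_, rfl⟩
    rw [← hρd] at hρ
    have hDx : P.ord (D x) = ρ - 1 := by
      have h1 := (h.ord_der hxc (by omega)).2
      rw [map_sub, D.map_algebraMap, sub_zero] at h1
      omega
    have e1 := ord_poly_fin P hc hA0 hρd.symm (by omega)
    have e2 := ord_poly_fin P hc hA1 hρd.symm (by omega)
    have e3 := ord_poly_fin P hc (RR_ne A) hρd.symm (by omega)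
    rw [RR_mult hA1] at e3
    have hx1 : 0 ≤ (i : ℤ) * P.ord x :=
      mul_nonneg (Int.natCast_nonneg i) (hfin.resolve_left hx0)
    have hsep : A.rootMultiplicity c ≤ 1 := rootMultiplicity_le_one_of_separable hA c
    by_cases hμ : A.IsRoot c
    · have hm : A.derivative.rootMultiplicity c = 0 := by
        rw [rootMultiplicity_eq_zero_iff]
        intro h1
        exact absurd h1 (hA.eval₂_derivative_ne_zero (RingHom.id ℂ) (by
          rw [eval₂_id]; exact hμ) ∘ fun h => by rw [eval₂_id]; exact h)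
      have hμ1 : A.rootMultiplicity c = 1 := by
        have := (rootMultiplicity_pos hA0).2 hμ
        omega
      rw [hμ1] at e1
      rw [hm] at e2 e3
      simp only [Nat.cast_one, one_mul, Nat.cast_zero, zero_mul, Nat.zero_sub, mul_zero] at e1 e2 e3
      refine ⟨-ρ - 1, 6 * ρ - 3, hne, by rw [hFord]; omega, hEE.mono (by rw [hE]; omega), ?_⟩
      rcases (by omega : ρ = 1 ∨ 2 ≤ ρ) with h1 | h1
      · exact Or.inl ⟨hfin, by omega, by omega, by omega⟩
      · exact Or.inr (Or.inl ⟨hfin, by omega, by omega⟩)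
    · have hμ1 : A.rootMultiplicity c = 0 := rootMultiplicity_eq_zero hμ
      rw [hμ1] at e1
      simp only [Nat.cast_zero, zero_mul] at e1
      by_cases hm : A.derivative.rootMultiplicity c = 0
      · rw [hm] at e2 e3
        simp only [Nat.cast_zero, zero_mul, Nat.zero_sub, mul_zero] at e2 e3
        refine ⟨ρ - 1, 3 * (ρ - 1), hne, by rw [hFord]; omega, hEE.mono (by rw [hE]; omega), ?_⟩
        rcases (by omega : ρ = 1 ∨ 2 ≤ ρ) with h1 | h1
        · exact Or.inr (Or.inr (Or.inl ⟨hfin, e1, by omega, by omega⟩))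
        · exact Or.inr (Or.inr (Or.inr (Or.inl ⟨hfin, e1, by omega⟩)))
      · obtain ⟨m, hm'⟩ : ∃ m, A.derivative.rootMultiplicity c = m + 1 :=
          ⟨A.derivative.rootMultiplicity c - 1, by omega⟩
        rw [hm'] at e2 e3
        have e4 : ((2 * (m + 1 - 1) : ℕ) : ℤ) * ρ = 2 * (m * ρ) := by
          rw [Nat.add_sub_cancel]
          push_cast
          ring
        have e5 : ((m + 1 : ℕ) : ℤ) * ρ = m * ρ + ρ := by push_cast; ring
        rw [e4] at e3
        rw [e5] at e2
        refine ⟨m * ρ + ρ + ρ - 1, 3 * (ρ - 1) - 2 * (m * ρ), hne, by rw [hFord]; omega,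
          hEE.mono (by rw [hE]; omega), ?_⟩
        exact Or.inr (Or.inr (Or.inr (Or.inl ⟨hfin, e1, by linarith⟩)))
  · have hx1 : P.ord x < 0 := by
      by_contra h1
      exact hfin (Or.inr (by omega))
    obtain ⟨ρ, hρ⟩ : ∃ ρ, P.ord x = -ρ := ⟨-P.ord x, by ring⟩
    have hρ0 : 0 < ρ := by omega
    have hDx : P.ord (D x) = -ρ - 1 := by
      have h1 := (h.ord_der hx0 (by omega)).2
      omega
    have e1 := ord_poly_inf P hc hA0 hρ hρ0
    have e2 := ord_poly_inf P hc hA1 hρ hρ0
    have e3 := ord_poly_inf P hc (RR_ne A) hρ hρ0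
    have e4 := RR_deg hA1
    have e5 : A.derivative.natDegree + 1 = A.natDegree := natDegree_der hA1
    refine ⟨A.natDegree * ρ - 1, (A.natDegree - 5 - 2 * kk A - i) * ρ - 5 - 2 * (A.natDegree * ρ - 1),
      hne, ?_, hEE.mono ?_, Or.inr (Or.inr (Or.inr (Or.inr ⟨hfin, ?_⟩)))⟩
    · rw [hFord, e1, e2, hDx, ← e5]
      push_cast
      ring
    · rw [hE, e1, e3, hDx, hρ]
      have h6 : ((RR A).natDegree : ℤ) = 2 * A.natDegree - 2 * kk A - 2 := by
        have : (((RR A).natDegree + 2 * kk A + 2 : ℕ) : ℤ) = ((2 * A.natDegree : ℕ) : ℤ) := by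
          rw [e4]
        push_cast at this
        linarith
      rw [h6]
      apply le_of_eq
      ring
    · have h6 : (2 * kk A + 13 + i : ℤ) ≤ A.natDegree := by exact_mod_cast hi
      nlinarith

/-- the jet differential of the shared values -/
noncomputable def om (D : Derivation ℂ L L) (A B : ℂ[X]) (x y : L) (i j : ℕ) : L :=
  W D (aeval x A)⁻¹ (aeval y B)⁻¹ ^ 2 * (EE D A x i * EE D B y j)

/-- **The local estimate.** -/
theorem loc_main (h : Nice P D) {A B : ℂ[X]} (hA : A.Separable) (hB : B.Separable) {x y : L}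
    (hx : D x ≠ 0) (hy : D y ≠ 0) {i j : ℕ} (hi : 2 * kk A + 13 + i ≤ A.natDegree)
    (hj : 2 * kk B + 13 + j ≤ B.natDegree) :
    Ge P (-4) (om D A B x y i j) ∧
      ((Ge P 0 x → Ge P 0 y → P.ord (aeval x A) + P.ord (aeval y B) ≠ 1) →
        Ge P 0 (om D A B x y i j)) := by
  obtain ⟨f, E, hf0, hf, hE, hX⟩ := xdata h hA hx hi
  obtain ⟨f', E', hf0', hf', hE', hY⟩ := xdata h hB hy hj
  have hgf : Ge P f (D (aeval x A)⁻¹) := Or.inr hf.ge
  have hgf' : Ge P f' (D (aeval y B)⁻¹) := Or.inr hf'.ge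
  have h1 := h.W_ge hgf hgf'
  have h2 : Ge P (2 * f + E + (2 * f' + E') - 2) (om D A B x y i j) :=
    ((h1.pow 2).mul (hE.mul hE')).mono (by push_cast; omega)
  have h3 : ∀ {n : ℤ}, Ge P n (W D (aeval x A)⁻¹ (aeval y B)⁻¹) →
      Ge P (2 * n + (E + E')) (om D A B x y i j) := fun h =>
    ((h.pow 2).mul (hE.mul hE')).mono (by push_cast; omega)
  unfold XD at hX hY
  refine ⟨h2.mono (by omega), fun hst => ?_⟩
  rcases hX with ⟨a1, a2, a3, a4⟩ | ⟨a1, a2, a3⟩ | ⟨a1, a2, a3, a4⟩ | ⟨a1, a2, a3⟩ | ⟨a1, a3⟩ <;>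
  rcases hY with ⟨b1, b2, b3, b4⟩ | ⟨b1, b2, b3⟩ | ⟨b1, b2, b3, b4⟩ | ⟨b1, b2, b3⟩ | ⟨b1, b3⟩
  · -- both simple
    have hA0 : aeval x A ≠ 0 := by
      intro h0
      rw [h0, P.ord_zero] at a2
      omega
    exact (h3 (h.W_one (inv_ne_zero hA0) (by rw [P.ord_inv, a2]) (Or.inr (by
      rw [P.ord_inv, b2])))).mono (by omega)
  · exact h2.mono (by omega)
  · exact absurd (by omega) (hst a1 b1)
  · exact absurd (by omega) (hst a1 b1)
  · exact h2.mono (by omega)
  · exact h2.mono (by omega)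
  · exact h2.mono (by omega)
  · exact h2.mono (by omega)
  · exact h2.mono (by omega)
  · exact h2.mono (by omega)
  · exact absurd (by omega) (hst a1 b1)
  · exact h2.mono (by omega)
  · -- both unramified
    exact (h3 (h.W_eq hf0 hf (by rw [a3, ← b3]; exact hgf'))).mono (by omega)
  · exact h2.mono (by omega)
  · exact h2.mono (by omega)
  · exact absurd (by omega) (hst a1 b1)
  · exact h2.mono (by omega)
  · exact h2.mono (by omega)
  · exact h2.mono (by omega)
  · exact h2.mono (by omega)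
  · exact h2.mono (by omega)
  · exact h2.mono (by omega)
  · exact h2.mono (by omega)
  · exact h2.mono (by omega)
  · exact h2.mono (by omega)

end Pool.Agent.K9h12.SH
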